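import Pool.Agent.Work.MP_8c604c_gt.OB.Lp
import Pool.Agent.Work.MP_8c604c_gt.T.SL

-- merged part: Pool.Agent.Work.MP_8c604c_gt.OG.GeoD
section
/-!
Point set geometry of the closed geodesics of a Blaschke metric: definitions.
-/

noncomputable section

namespace Pool.Agent.Work.MP_8c604c_gt.OT

open Set Real Classical T

variable {V : Type} [NormedAddCommGroup V] [InnerProductSpace ℝ V] [FiniteDimensional ℝ V]
  {𝕄 : Mf V} {k : ℕ}

/-- pairs of points -/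
def Mf.MM (𝕄 : Mf V) : Set (V × V) := 𝕄.M ×ˢ 𝕄.M

/-- the diagonal -/
def Dg (V : Type) : Set (V × V) := {y | y.1 = y.2}

/-- pairs of distinct points -/
def Mf.Od (𝕄 : Mf V) : Set (V × V) := 𝕄.MM \ Dg V

/-- the tangent bundle -/
def Mf.Tt (𝕄 : Mf V) : Set (V × V) := {y | 𝕄.Tan y.1 y.2}

/-- pairs of matrices with the Euclidean norm -/
abbrev AA (V : Type) : Type := WithLp 2 (V × V)

namespace TD0

variable (D : TD0 𝕄 k)

/-- pairs of cut points -/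
def F : Set (V × V) := cutS D.S

/-- pairs that are not cut points -/
def Nb : Set (V × V) := 𝕄.MM \ D.F

/-- the geodesic with initial vector `y` and the scale of `y` -/
def gcr (y : V × V) : LM V × ℝ :=
  if y.2 = 0 then (0, 0) else
    epsilon fun z => z.1 ∈ D.S ∧ z.1 1 = y.1 ∧ 0 < z.2 ∧ y.2 = z.2 • D.vel z.1

/-- the geodesic with initial vector `y` -/
def gc (y : V × V) : LM V := (D.gcr y).1

/-- the scale of the vector `y` -/
def gr (y : V × V) : ℝ := (D.gcr y).2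

/-- a geodesic from `y.1` to `y.2` and the time of arrival -/
def lct (y : V × V) : LM V × ℝ :=
  if y.1 = y.2 then (0, 0) else
    epsilon fun z => z.1 ∈ D.S ∧ z.1 1 = y.1 ∧ z.2 ∈ Ioc 0 (π / 2) ∧ z.1 (cs z.2) = y.2

/-- a geodesic from `y.1` to `y.2` -/
def lc (y : V × V) : LM V := (D.lct y).1

/-- the time from `y.1` to `y.2` -/
def lt (y : V × V) : ℝ := (D.lct y).2

/-- the cut point of `y.1` behind `y.2` -/
def hat (y : V × V) : V × V := (y.1, D.lc y (cs (π / 2)))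

/-- the point at time `t` on the geodesic with initial vector `y` -/
def pt (y : V × V) (t : ℝ) : V × V := (y.1, D.gc y (cs t))

/-- the exponential map `𝕄.Tt → Nb` -/
def G (y : V × V) : V × V :=
  if y.2 = 0 then (y.1, y.1) else D.pt y (π / 2 * (D.gr y / (1 + D.gr y)))

/-- the inverse of `G` -/
def Gi (y : V × V) : V × V := (y.1, (D.lt y / (π / 2 - D.lt y)) • D.vel (D.lc y))

/-- the directions of the geodesics from `y.1` to its cut point `y.2` -/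
def Ws (y : V × V) : Submodule ℝ V :=
  Submodule.span ℝ {X | ∃ c ∈ D.S, c 1 = y.1 ∧ c (cs (π / 2)) = y.2 ∧ X = D.vel c}

/-- the bundle of these directions over `F` -/
def WF (y : V × V) : V →L[ℝ] V := (D.Ws y).starProjection

/-- the bundle of these directions over `𝕄.Od` -/
def W (y : V × V) : V →L[ℝ] V := D.WF (D.hat y)

/-- the pairs of directions at the two ends -/
def Vs (y : V × V) : Submodule ℝ (AA V) :=
  Submodule.span ℝ {X | ∃ c ∈ D.S, c 1 = y.1 ∧ c (cs (π / 2)) = y.2 ∧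
    X = WithLp.toLp 2 (D.vel c, D.vel (sh (cs (π / 2)) c))}

/-- the graph bundle over `F` -/
def VV (y : V × V) : AA V →L[ℝ] AA V := (D.Vs y).starProjection

/-- the tube `totR WF F → 𝕄.Od` -/
def Th (z : (V × V) × V) : V × V :=
  if z.2 = 0 then z.1 else D.pt (z.1.1, z.2) (π / 2 / (1 + D.gr (z.1.1, z.2)))

/-- the inverse of `Th` -/
def Thi (y : V × V) : (V × V) × V :=
  (D.hat y, (π / 2 / D.lt y - 1) • D.vel (D.lc y))

/-- the end points of a half loop -/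
def en (_D : TD0 𝕄 k) (c : LM V) : V × V := (c 1, c (cs (π / 2)))

/-- the end points of a quarter loop -/
def j0 (_D : TD0 𝕄 k) (c : LM V) : V × V := (c 1, c (cs (π / 4)))

end TD0

end Pool.Agent.Work.MP_8c604c_gt.OT
end
end

-- merged part: Pool.Agent.Work.MP_8c604c_gt.OG.GeoA
section
/-!
Point set geometry, part A: the sets, `gc`, `gr`, `lc`, `lt`, `hat`.
-/

set_option linter.unusedSectionVars false

noncomputable section

namespace Pool.Agent.Work.MP_8c604c_gt.OT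

open Set Real Topology Filter T

variable {V : Type} [NormedAddCommGroup V] [InnerProductSpace ℝ V] [FiniteDimensional ℝ V]
  {𝕄 : Mf V} {k : ℕ}

theorem isCompact_MM' : IsCompact 𝕄.MM := 𝕄.cpt.prod 𝕄.cpt

theorem isClosed_Dg' : IsClosed (Dg V) := isClosed_eq continuous_fst continuous_snd

theorem lc_Od' : IsLocallyClosed 𝕄.Od :=
  isCompact_MM'.isClosed.isLocallyClosed.inter isClosed_Dg'.isOpen_compl.isLocallyClosed

theorem Tt_eq : 𝕄.Tt = totR 𝕄.tp 𝕄.M := by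
  rfl

theorem isClosed_Tt : IsClosed 𝕄.Tt := by
  have : 𝕄.Tt = (Prod.fst ⁻¹' 𝕄.M) ∩ (fun y : V × V => 𝕄.tp y.1 y.2 - y.2) ⁻¹' {0} := by
    ext y
    simp [Mf.Tt, Mf.Tan, sub_eq_zero]
  rw [this]
  exact ContinuousOn.preimage_isClosed_of_isClosed (((𝕄.rb.cont.comp continuousOn_fst
    fun _ h => h).clm_apply continuousOn_snd).sub continuousOn_snd)
    (𝕄.cpt.isClosed.preimage continuous_fst) isClosed_singleton

theorem cs_add (s t : ℝ) : cs (s + t) = cs s * cs t := by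
  rw [cs, cs, cs, mul_add, Circle.exp_add]

theorem cs_zero : cs 0 = 1 := by
  rw [cs, mul_zero, Circle.exp_zero]

theorem cs_pi : cs π = 1 := by
  rw [cs, Circle.exp_two_pi]

theorem continuous_cs : Continuous cs := by
  exact Circle.exp.continuous.comp (continuous_const.mul continuous_id)

theorem exists_cs (θ : Circle) : ∃ t ∈ Ico 0 π, θ = cs t := by
  have e : θ = cs (Complex.arg θ / 2) := by
    rw [cs, mul_div_cancel₀ _ two_ne_zero, Circle.exp_arg]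
  have h1 := Complex.neg_pi_lt_arg θ
  have h2 := Complex.arg_le_pi θ
  have h3 := pi_pos
  rcases le_or_gt 0 (Complex.arg θ) with h | h
  · exact ⟨_, ⟨by linarith, by linarith⟩, e⟩
  · exact ⟨Complex.arg θ / 2 + π, ⟨by linarith, by linarith⟩, by rw [cs_add, cs_pi, mul_one, ← e]⟩

theorem sh_apply (θ t : Circle) (c : LM V) : sh θ c t = c (θ * t) := rfl

theorem sh_one (c : LM V) : sh 1 c = c := by
  ext1 t
  rw [sh_apply, one_mul]

theorem sh_mul (θ η : Circle) (c : LM V) : sh (θ * η) c = sh θ (sh η c) := by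
  ext1 t
  rw [sh_apply, sh_apply, sh_apply, mul_left_comm, mul_assoc]

theorem continuous_sh : Continuous fun z : Circle × LM V => sh z.1 z.2 := by
  refine ContinuousMap.continuous_of_continuous_uncurry _ ?_
  exact (continuous_snd.comp continuous_fst).eval
    ((continuous_fst.comp continuous_fst).mul continuous_snd)

theorem Mf.Tan.mem {p X : V} (h : 𝕄.Tan p X) : p ∈ 𝕄.M := h.1

theorem Mf.Tan.rsmul {p X : V} (h : 𝕄.Tan p X) (r : ℝ) : 𝕄.Tan p (r • X) :=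
  ⟨h.1, by rw [map_smul, h.2]⟩

/-- the start point and the point at time `t` -/
def ev2 (z : LM V × ℝ) : V × V := (z.1 1, z.1 (cs z.2))

theorem continuous_ev2 : Continuous (ev2 : LM V × ℝ → _) :=
  (continuous_fst.eval continuous_const).prodMk
    (continuous_fst.eval (continuous_cs.comp continuous_snd))

namespace TD0

variable (D : TD0 𝕄 k)

theorem continuous_en : Continuous D.en :=
  (continuous_eval_const _).prodMk (continuous_eval_const _)

theorem od_mem {c : LM V} (hc : c ∈ D.S) {t : ℝ} (ht : t ∈ Ioc 0 (π / 2)) :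
    (c 1, c (cs t)) ∈ 𝕄.Od :=
  ⟨⟨D.mem c hc _, D.mem c hc _⟩, fun e => D.ne c hc t ht (Eq.symm e)⟩

theorem isCompact_F : IsCompact D.F := by
  have e : D.F = D.en '' D.S := Set.ext fun y =>
    ⟨fun ⟨c, hc, e1, e2⟩ => ⟨c, hc, Prod.ext e1 e2⟩, fun ⟨c, hc, e⟩ => e ▸ ⟨c, hc, rfl, rfl⟩⟩
  rw [e]
  exact D.cpt.image D.continuous_en

theorem F_sub : D.F ⊆ 𝕄.Od := by
  rintro ⟨p, q⟩ ⟨c, hc, rfl, rfl⟩
  exact D.od_mem hc ⟨by positivity, le_rfl⟩

theorem swap_F {y : V × V} (h : y ∈ D.F) : y.swap ∈ D.F := by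
  obtain ⟨c, hc, e1, e2⟩ := h
  refine ⟨sh (cs (π / 2)) c, D.inv _ c hc, ?_, ?_⟩
  · rw [sh_apply, mul_one]; exact e2
  · rw [sh_apply, ← cs_add, add_halves, cs_pi]; exact e1

theorem en_mem {c : LM V} (hc : c ∈ D.S) : D.en c ∈ D.F := ⟨c, hc, rfl, rfl⟩

theorem lc_Nb : IsLocallyClosed D.Nb := by
  exact isCompact_MM'.isClosed.isLocallyClosed.inter
    D.isCompact_F.isClosed.isOpen_compl.isLocallyClosed

theorem Dg_sub {y : V × V} (h : y ∈ 𝕄.MM) (k : y ∈ Dg V) : y ∈ D.Nb := by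
  exact ⟨h, fun hF => (D.F_sub hF).2 k⟩

/-- two points of a geodesic at distance less than `π / 2` are not cut points -/
theorem not_cut {c : LM V} (hc : c ∈ D.S) {s t : ℝ} (h : |t - s| < π / 2) :
    (c (cs s), c (cs t)) ∈ D.Nb := by
  have key : ∀ s t : ℝ, s < t → t - s < π / 2 → (c (cs s), c (cs t)) ∉ D.F := by
    rintro s t h1 h2 ⟨c', hc', e1, e2⟩
    have := (D.inj (sh (cs s) c) (D.inv _ c hc) c' hc' (by rw [sh_apply, mul_one]; exact e1)
      (t - s) ⟨by linarith, h2⟩ (π / 2) ⟨by positivity, le_rfl⟩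
      (by rw [sh_apply, ← cs_add, add_sub_cancel]; exact e2)).2
    linarith
  have hM : (c (cs s), c (cs t)) ∈ 𝕄.MM := ⟨D.mem c hc _, D.mem c hc _⟩
  obtain ⟨h1, h2⟩ := abs_lt.1 h
  rcases lt_trichotomy s t with l | rfl | l
  · exact ⟨hM, key s t l h2⟩
  · exact D.Dg_sub hM rfl
  · exact ⟨hM, fun hF => key t s l (by linarith) (D.swap_F hF)⟩

theorem cut_iff {c : LM V} (hc : c ∈ D.S) {θ : Circle} : (c 1, c θ) ∈ D.F ↔ θ = cs (π / 2) := by
  refine ⟨fun h => ?_, fun e => e ▸ D.en_mem hc⟩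
  obtain ⟨t, ht, rfl⟩ := exists_cs θ
  have h3 := pi_pos
  rcases lt_trichotomy t (π / 2) with l | rfl | l
  · have := D.not_cut hc (s := 0) (t := t) (by rw [sub_zero, abs_of_nonneg ht.1]; exact l)
    rw [cs_zero] at this
    exact absurd h this.2
  · rfl
  · have := D.not_cut hc (s := π) (t := t) (abs_lt.2 ⟨by linarith, by linarith [ht.2]⟩)
    rw [cs_pi] at this
    exact absurd h this.2

theorem j0_mem {c : LM V} (hc : c ∈ D.S) : D.j0 c ∈ D.Nb \ Dg V := by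
  have h3 := pi_pos
  have := D.not_cut hc (s := 0) (t := π / 4) (abs_lt.2 ⟨by linarith, by linarith⟩)
  rw [cs_zero] at this
  exact ⟨this, (D.od_mem hc (t := π / 4) ⟨by linarith, by linarith⟩).2⟩

/-- the circle acts freely -/
theorem free {c : LM V} (hc : c ∈ D.S) {θ : Circle} (h : sh θ c = c) : θ = 1 := by
  obtain ⟨t, ht, rfl⟩ := exists_cs θ
  rcases ht.1.eq_or_lt with rfl | h0
  · exact cs_zero
  rcases le_or_gt t (π / 2) with l | l
  · refine absurd ?_ (D.ne c hc t ⟨h0, l⟩)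
    have := sh_apply (cs t) 1 c
    rw [h, mul_one] at this
    exact this.symm
  · refine absurd ?_ (D.ne c hc (π - t) ⟨by linarith [ht.2], by linarith⟩)
    have := sh_apply (cs t) (cs (π - t)) c
    rw [h, ← cs_add, add_sub_cancel, cs_pi] at this
    exact this

theorem gc_spec {y : V × V} (h : y ∈ 𝕄.Tt) (h0 : y.2 ≠ 0) :
    D.gc y ∈ D.S ∧ D.gc y 1 = y.1 ∧ 0 < D.gr y ∧ y.2 = D.gr y • D.vel (D.gc y) := by
  obtain ⟨c, hc, e1, r, hr, e2⟩ := D.ex y.1 y.2 h h0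
  unfold gc gr gcr
  rw [if_neg h0]
  exact Classical.epsilon_spec (p := fun z : LM V × ℝ =>
    z.1 ∈ D.S ∧ z.1 1 = y.1 ∧ 0 < z.2 ∧ y.2 = z.2 • D.vel z.1) ⟨(c, r), hc, e1, hr, e2⟩

theorem gc_eq {c : LM V} (hc : c ∈ D.S) {r : ℝ} (hr : 0 < r) :
    D.gc (c 1, r • D.vel c) = c ∧ D.gr (c 1, r • D.vel c) = r := by
  obtain ⟨h1, h2, h3, h4⟩ := D.gc_spec (y := (c 1, r • D.vel c)) ((D.tan c hc).rsmul r)
    (smul_ne_zero hr.ne' (D.vne c hc))
  have e : D.gc (c 1, r • D.vel c) = c := by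
    refine D.uniq c hc _ h1 h2 ((D.gr (c 1, r • D.vel c))⁻¹ * r) (by positivity) ?_
    rw [mul_smul, eq_inv_smul_iff₀ h3.ne']
    exact h4.symm
  rw [e] at h4
  exact ⟨e, (smul_left_injective ℝ (D.vne c hc) h4).symm⟩

theorem gr_zero (p : V) : D.gr (p, 0) = 0 := by
  simp [gr, gcr]

theorem gr_nonneg {y : V × V} (h : y ∈ 𝕄.Tt) : 0 ≤ D.gr y := by
  by_cases h0 : y.2 = 0
  · rw [show y = (y.1, 0) from Prod.ext rfl h0, D.gr_zero]
  · exact (D.gc_spec h h0).2.2.1.le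

theorem gc_smul {p X : V} (h : 𝕄.Tan p X) {s : ℝ} (hs : 0 < s) :
    D.gc (p, s • X) = D.gc (p, X) ∧ D.gr (p, s • X) = s * D.gr (p, X) := by
  by_cases h0 : X = 0
  · rw [h0, smul_zero, D.gr_zero, mul_zero]
    exact ⟨rfl, rfl⟩
  · obtain ⟨c, hc, rfl, r, hr, rfl⟩ := D.ex p X h h0
    rw [smul_smul, (D.gc_eq hc hr).1, (D.gc_eq hc hr).2]
    exact D.gc_eq hc (mul_pos hs hr)

theorem cont_gc : ContinuousOn D.gc (𝕄.Tt \ zs V V) := by
  have h1 : ContinuousOn D.gc ((fun c => (c 1, ‖D.vel c‖⁻¹ • D.vel c)) '' D.S) :=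
    contOn_of_cpt D.cpt ((continuous_eval_const 1).continuousOn.prodMk
      ((D.cvel.norm.inv₀ fun c hc => norm_ne_zero_iff.2 (D.vne c hc)).smul D.cvel)) subset_rfl
      continuousOn_id fun c hc => (D.gc_eq hc (inv_pos.2 (norm_pos_iff.2 (D.vne c hc)))).1
  have h2 : ContinuousOn (fun y : V × V => (y.1, ‖y.2‖⁻¹ • y.2)) (𝕄.Tt \ zs V V) :=
    continuousOn_fst.prodMk ((continuousOn_snd.norm.inv₀ fun y hy =>
      norm_ne_zero_iff.2 hy.2).smul continuousOn_snd)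
  refine (h1.comp h2 fun y hy => ?_).congr fun y hy => ?_
  · obtain ⟨k1, k2, k3, k4⟩ := D.gc_spec hy.1 hy.2
    refine ⟨D.gc y, k1, Prod.ext k2 ?_⟩
    have k5 := norm_ne_zero_iff.2 (D.vne _ k1)
    change ‖D.vel (D.gc y)‖⁻¹ • D.vel (D.gc y) = ‖y.2‖⁻¹ • y.2
    generalize D.gr y = r at k3 k4
    rw [k4, norm_smul, Real.norm_of_nonneg k3.le, smul_smul]
    congr 1
    field_simp
  · exact (D.gc_smul hy.1 (inv_pos.2 (norm_pos_iff.2 hy.2))).1.symm

theorem gr_div {y : V × V} (h : y ∈ 𝕄.Tt) (h0 : y.2 ≠ 0) :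
    D.gr y = ‖y.2‖ / ‖D.vel (D.gc y)‖ := by
  obtain ⟨k1, -, k3, k4⟩ := D.gc_spec h h0
  rw [eq_div_iff (norm_ne_zero_iff.2 (D.vne _ k1)), ← Real.norm_of_nonneg k3.le, ← norm_smul, ← k4]

theorem gr_le : ∃ b : ℝ, 0 < b ∧ ∀ y ∈ 𝕄.Tt, D.gr y ≤ b * ‖y.2‖ := by
  obtain ⟨m, hm, k⟩ := D.cpt.exists_forall_le' D.cvel.norm (a := 0)
    fun c hc => norm_pos_iff.2 (D.vne c hc)
  refine ⟨m⁻¹, inv_pos.2 hm, fun y hy => ?_⟩
  by_cases h0 : y.2 = 0
  · rw [show y = (y.1, 0) from Prod.ext rfl h0, D.gr_zero, norm_zero, mul_zero]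
  · rw [D.gr_div hy h0, inv_mul_eq_div]
    exact div_le_div_of_nonneg_left (norm_nonneg _) hm (k _ (D.gc_spec hy h0).1)

theorem cont_gr : ContinuousOn D.gr 𝕄.Tt := by
  intro y hy
  by_cases h0 : y.2 = 0
  · obtain ⟨b, -, hb⟩ := D.gr_le
    have e : D.gr y = 0 := by rw [show y = (y.1, 0) from Prod.ext rfl h0, D.gr_zero]
    unfold ContinuousWithinAt
    rw [e]
    refine squeeze_zero' (eventually_nhdsWithin_of_forall fun z hz => D.gr_nonneg hz)
      (eventually_nhdsWithin_of_forall hb) ?_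
    have : Tendsto (fun z : V × V => b * ‖z.2‖) (𝓝 y) (𝓝 (b * ‖y.2‖)) :=
      (continuous_const.mul continuous_snd.norm).tendsto y
    rw [h0, norm_zero, mul_zero] at this
    exact this.mono_left nhdsWithin_le_nhds
  · have h1 : ContinuousOn D.gr (𝕄.Tt \ zs V V) :=
      (continuousOn_snd.norm.div (D.cvel.comp D.cont_gc fun z hz => (D.gc_spec hz.1 hz.2).1).norm
        fun z hz => norm_ne_zero_iff.2 (D.vne _ (D.gc_spec hz.1 hz.2).1)).congr
        fun z hz => D.gr_div hz.1 hz.2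
    exact (h1 y ⟨hy, h0⟩).mono_of_mem_nhdsWithin (inter_mem_nhdsWithin _
      ((isClosed_eq continuous_snd continuous_const).isOpen_compl.mem_nhds h0))

/-- the scale is comparable with the norm -/
theorem gr_bound : ∃ a b : ℝ, 0 < a ∧ 0 < b ∧ ∀ y ∈ 𝕄.Tt, a * ‖y.2‖ ≤ D.gr y ∧ D.gr y ≤ b * ‖y.2‖ := by
  obtain ⟨b, hb, k⟩ := D.gr_le
  obtain ⟨M, hM⟩ := D.cpt.exists_bound_of_continuousOn D.cvel
  have p : 0 < max M 1 := lt_max_of_lt_right one_pos
  refine ⟨(max M 1)⁻¹, b, inv_pos.2 p, hb, fun y hy => ⟨?_, k y hy⟩⟩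
  by_cases h0 : y.2 = 0
  · rw [h0, norm_zero, mul_zero]
    exact D.gr_nonneg hy
  · have k1 := (D.gc_spec hy h0).1
    rw [D.gr_div hy h0, inv_mul_eq_div]
    exact div_le_div_of_nonneg_left (norm_nonneg _) (norm_pos_iff.2 (D.vne _ k1))
      ((hM _ k1).trans (le_max_left _ _))

theorem lc_spec {y : V × V} (h : y ∈ 𝕄.Od) :
    D.lc y ∈ D.S ∧ D.lc y 1 = y.1 ∧ D.lt y ∈ Ioc 0 (π / 2) ∧ D.lc y (cs (D.lt y)) = y.2 := by
  obtain ⟨c, hc, e1, t, ht, e2⟩ := D.surj y.1 h.1.1 y.2 h.1.2 h.2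
  unfold lc lt lct
  rw [if_neg (show ¬ y.1 = y.2 from h.2)]
  exact Classical.epsilon_spec (p := fun z : LM V × ℝ =>
    z.1 ∈ D.S ∧ z.1 1 = y.1 ∧ z.2 ∈ Ioc 0 (π / 2) ∧ z.1 (cs z.2) = y.2) ⟨(c, t), hc, e1, ht, e2⟩

theorem lt_dg {y : V × V} (h : y ∈ Dg V) : D.lt y = 0 := by
  unfold lt lct
  rw [if_pos (show y.1 = y.2 from h)]

theorem lt_eq {c : LM V} (hc : c ∈ D.S) {t : ℝ} (ht : t ∈ Icc 0 (π / 2)) :
    D.lt (c 1, c (cs t)) = t := by
  rcases ht.1.eq_or_lt with rfl | h0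
  · exact D.lt_dg (by rw [cs_zero]; rfl)
  obtain ⟨h1, h2, h3, h4⟩ := D.lc_spec (D.od_mem hc ⟨h0, ht.2⟩)
  rcases ht.2.eq_or_lt with e | l
  · rcases h3.2.eq_or_lt with e' | l'
    · exact e'.trans e.symm
    · exact (D.inj _ h1 c hc h2.symm _ ⟨h3.1, l'⟩ t ⟨h0, ht.2⟩ h4.symm).2.symm
  · exact (D.inj c hc _ h1 h2 t ⟨h0, l⟩ _ h3 h4).2

theorem lc_eq {c : LM V} (hc : c ∈ D.S) {t : ℝ} (ht : t ∈ Ioo 0 (π / 2)) :
    D.lc (c 1, c (cs t)) = c := by
  obtain ⟨h1, h2, h3, h4⟩ := D.lc_spec (D.od_mem hc ⟨ht.1, ht.2.le⟩)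
  exact (D.inj c hc _ h1 h2 t ht _ h3 h4).1

theorem hat_eq {c : LM V} (hc : c ∈ D.S) {t : ℝ} (ht : t ∈ Ioc 0 (π / 2)) :
    D.hat (c 1, c (cs t)) = D.en c := by
  refine Prod.ext rfl ?_
  change D.lc (c 1, c (cs t)) (cs (π / 2)) = c (cs (π / 2))
  rcases ht.2.eq_or_lt with rfl | l
  · have h4 := (D.lc_spec (D.od_mem hc ht)).2.2.2
    rwa [D.lt_eq hc ⟨ht.1.le, ht.2⟩] at h4
  · rw [D.lc_eq hc ⟨ht.1, l⟩]

theorem lt_lt {y : V × V} (h : y ∈ D.Nb) : D.lt y ∈ Ico 0 (π / 2) := by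
  by_cases h0 : y ∈ Dg V
  · rw [D.lt_dg h0]
    exact ⟨le_rfl, by positivity⟩
  · obtain ⟨h1, h2, h3, h4⟩ := D.lc_spec ⟨h.1, h0⟩
    exact ⟨h3.1.le, h3.2.lt_of_ne fun e => h.2 ⟨_, h1, h2, by rw [← e]; exact h4⟩⟩

theorem cont_lt : ContinuousOn D.lt 𝕄.MM := by
  have hK : IsCompact (D.S ×ˢ Icc 0 (π / 2)) := D.cpt.prod isCompact_Icc
  have h1 : ContinuousOn D.lt (ev2 '' (D.S ×ˢ Icc 0 (π / 2))) :=
    contOn_of_cpt hK continuous_ev2.continuousOn subset_rfl continuousOn_snd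
      fun z hz => D.lt_eq hz.1 hz.2
  have h2 : ContinuousOn D.lt (Dg V) := continuousOn_const.congr fun y hy => D.lt_dg hy
  refine (h1.union_of_isClosed h2 (hK.image continuous_ev2).isClosed isClosed_Dg').mono
    fun y hy => ?_
  by_cases h0 : y ∈ Dg V
  · exact Or.inr h0
  · obtain ⟨k1, k2, k3, k4⟩ := D.lc_spec ⟨hy, h0⟩
    exact Or.inl ⟨(D.lc y, D.lt y), ⟨k1, k3.1.le, k3.2⟩, Prod.ext k2 k4⟩

theorem cont_loc {X : Type} [TopologicalSpace X] {f : V × V → X} {g : LM V → X}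
    (hg : ContinuousOn g D.S) {U : Set (V × V)} (hU : U ⊆ 𝕄.Od) {y : V × V}
    (hy : y ∈ U) {a b : ℝ} (ha : a < D.lt y) (hb : D.lt y < b)
    (e : ∀ c ∈ D.S, ∀ t ∈ Icc a b ∩ Icc 0 (π / 2), f (c 1, c (cs t)) = g c) :
    ContinuousWithinAt f U y := by
  have h1 : ContinuousOn f (U ∩ D.lt ⁻¹' Ioo a b) := by
    refine contOn_of_cpt (K := D.S ×ˢ (Icc a b ∩ Icc 0 (π / 2)))
      (D.cpt.prod (isCompact_Icc.inter_right isClosed_Icc)) continuous_ev2.continuousOn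
      (fun z hz => ?_) (hg.comp continuousOn_fst fun z hz => hz.1) fun z hz => e _ hz.1 _ hz.2
    obtain ⟨k1, k2, k3, k4⟩ := D.lc_spec (hU hz.1)
    exact ⟨(D.lc z, D.lt z), ⟨k1, Ioo_subset_Icc_self hz.2, k3.1.le, k3.2⟩, Prod.ext k2 k4⟩
  exact (h1 y ⟨hy, ha, hb⟩).mono_of_mem_nhdsWithin (inter_mem self_mem_nhdsWithin
    (((D.cont_lt y (hU hy).1).mono fun z hz => (hU hz).1).preimage_mem_nhdsWithin
      (Ioo_mem_nhds ha hb)))

theorem cont_lc : ContinuousOn D.lc (D.Nb \ Dg V) := by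
  intro y hy
  have h1 := (D.lc_spec ⟨hy.1.1, hy.2⟩).2.2.1.1
  have h2 := (D.lt_lt hy.1).2
  exact D.cont_loc continuousOn_id (fun z hz => ⟨hz.1.1, hz.2⟩) hy (a := D.lt y / 2)
    (b := (D.lt y + π / 2) / 2) (by linarith) (by linarith)
    fun c hc t ht => D.lc_eq hc ⟨by linarith [ht.1.1], by linarith [ht.1.2]⟩

theorem cont_hat : ContinuousOn D.hat 𝕄.Od := by
  intro y hy
  have h1 := (D.lc_spec hy).2.2.1.1
  exact D.cont_loc D.continuous_en.continuousOn subset_rfl hy (a := D.lt y / 2)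
    (b := D.lt y + 1) (by linarith) (by linarith)
    fun c hc t ht => D.hat_eq hc ⟨by linarith [ht.1.1], ht.2.2⟩

theorem hat_mem : MapsTo D.hat 𝕄.Od D.F := by
  intro y hy
  obtain ⟨k1, k2, -, -⟩ := D.lc_spec hy
  exact ⟨D.lc y, k1, k2, rfl⟩

theorem hat_of_mem {y : V × V} (h : y ∈ D.F) : D.hat y = y := by
  obtain ⟨c, hc, e1, e2⟩ := h
  obtain rfl : D.en c = y := Prod.ext e1 e2
  exact D.hat_eq hc ⟨by positivity, le_rfl⟩

end TD0

end Pool.Agent.Work.MP_8c604c_gt.OT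
end
end
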