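import Pool.Agent.Work.MP_8c604c_gt.T.SL
import Pool.Agent.Work.MP_8c604c_gt.T.Sph
import Pool.Agent.Work.MP_8c604c_gt.T.VB
import Pool.Agent.Work.MP_8c604c_gt.T.ZTh
import Pool.Agent.Work.MP_8c604c_gt.T.Gys
import Pool.Agent.Work.MP_8c604c_gt.T.Deg

-- merged part: Pool.Agent.Work.MP_8c604c_gt.T.Quo
section
-- merged part: Pool.Agent.Work.MP_8c604c_gt.T.GeoD
section
/-!
Point set geometry of the closed geodesics of a Blaschke metric: definitions.
-/

noncomputable section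

namespace Pool.Agent.Work.MP_8c604c_gt.T

open Set Real Classical

variable {n k : ℕ}

/-- pairs of points -/
def MM (n : ℕ) : Set (AM n × AM n) := MH n ×ˢ MH n

/-- the diagonal -/
def Dg (n : ℕ) : Set (AM n × AM n) := {y | y.1 = y.2}

/-- pairs of distinct points -/
def Od (n : ℕ) : Set (AM n × AM n) := MM n \ Dg n

/-- the tangent bundle -/
def Tt (n : ℕ) : Set (AM n × AM n) := {y | Tan y.1 y.2}

/-- pairs of matrices with the Euclidean norm -/
abbrev AA (n : ℕ) : Type := WithLp 2 (AM n × AM n)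

namespace TD0

variable (D : TD0 n k)

/-- pairs of cut points -/
def F : Set (AM n × AM n) := cutS D.S

/-- pairs that are not cut points -/
def Nb : Set (AM n × AM n) := MM n \ D.F

/-- the geodesic with initial vector `y` and the scale of `y` -/
def gcr (y : AM n × AM n) : LM n × ℝ :=
  if y.2 = 0 then (0, 0) else
    epsilon fun z => z.1 ∈ D.S ∧ z.1 1 = y.1 ∧ 0 < z.2 ∧ y.2 = z.2 • D.vel z.1

/-- the geodesic with initial vector `y` -/
def gc (y : AM n × AM n) : LM n := (D.gcr y).1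

/-- the scale of the vector `y` -/
def gr (y : AM n × AM n) : ℝ := (D.gcr y).2

/-- a geodesic from `y.1` to `y.2` and the time of arrival -/
def lct (y : AM n × AM n) : LM n × ℝ :=
  if y.1 = y.2 then (0, 0) else
    epsilon fun z => z.1 ∈ D.S ∧ z.1 1 = y.1 ∧ z.2 ∈ Ioc 0 (π / 2) ∧ z.1 (cs z.2) = y.2

/-- a geodesic from `y.1` to `y.2` -/
def lc (y : AM n × AM n) : LM n := (D.lct y).1

/-- the time from `y.1` to `y.2` -/
def lt (y : AM n × AM n) : ℝ := (D.lct y).2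

/-- the cut point of `y.1` behind `y.2` -/
def hat (y : AM n × AM n) : AM n × AM n := (y.1, D.lc y (cs (π / 2)))

/-- the point at time `t` on the geodesic with initial vector `y` -/
def pt (y : AM n × AM n) (t : ℝ) : AM n × AM n := (y.1, D.gc y (cs t))

/-- the exponential map `Tt n → Nb` -/
def G (y : AM n × AM n) : AM n × AM n :=
  if y.2 = 0 then (y.1, y.1) else D.pt y (π / 2 * (D.gr y / (1 + D.gr y)))

/-- the inverse of `G` -/
def Gi (y : AM n × AM n) : AM n × AM n := (y.1, (D.lt y / (π / 2 - D.lt y)) • D.vel (D.lc y))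

/-- the directions of the geodesics from `y.1` to its cut point `y.2` -/
def Ws (y : AM n × AM n) : Submodule ℝ (AM n) :=
  Submodule.span ℝ {X | ∃ c ∈ D.S, c 1 = y.1 ∧ c (cs (π / 2)) = y.2 ∧ X = D.vel c}

/-- the bundle of these directions over `F` -/
def WF (y : AM n × AM n) : AM n →L[ℝ] AM n := (D.Ws y).starProjection

/-- the bundle of these directions over `Od n` -/
def W (y : AM n × AM n) : AM n →L[ℝ] AM n := D.WF (D.hat y)

/-- the pairs of directions at the two ends -/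
def Vs (y : AM n × AM n) : Submodule ℝ (AA n) :=
  Submodule.span ℝ {X | ∃ c ∈ D.S, c 1 = y.1 ∧ c (cs (π / 2)) = y.2 ∧
    X = WithLp.toLp 2 (D.vel c, D.vel (sh (cs (π / 2)) c))}

/-- the graph bundle over `F` -/
def VV (y : AM n × AM n) : AA n →L[ℝ] AA n := (D.Vs y).starProjection

/-- the tube `totR WF F → Od n` -/
def Th (z : (AM n × AM n) × AM n) : AM n × AM n :=
  if z.2 = 0 then z.1 else D.pt (z.1.1, z.2) (π / 2 / (1 + D.gr (z.1.1, z.2)))

/-- the inverse of `Th` -/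
def Thi (y : AM n × AM n) : (AM n × AM n) × AM n :=
  (D.hat y, (π / 2 / D.lt y - 1) • D.vel (D.lc y))

/-- the end points of a half loop -/
def en (_D : TD0 n k) (c : LM n) : AM n × AM n := (c 1, c (cs (π / 2)))

/-- the end points of a quarter loop -/
def j0 (_D : TD0 n k) (c : LM n) : AM n × AM n := (c 1, c (cs (π / 4)))

end TD0

end Pool.Agent.Work.MP_8c604c_gt.T
end
end

-- merged part: Pool.Agent.Work.MP_8c604c_gt.T.GeoA
section
/-!
Point set geometry, part A: the sets, `gc`, `gr`, `lc`, `lt`, `hat`.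
-/

noncomputable section

namespace Pool.Agent.Work.MP_8c604c_gt.T

open Set Real Topology Filter

variable {n k : ℕ}

theorem isCompact_MM' : IsCompact (MM n) := isCompact_MH.prod isCompact_MH

theorem isClosed_Dg' : IsClosed (Dg n) := isClosed_eq continuous_fst continuous_snd

theorem lc_Od' : IsLocallyClosed (Od n) :=
  isCompact_MM'.isClosed.isLocallyClosed.inter isClosed_Dg'.isOpen_compl.isLocallyClosed

theorem Tt_eq : Tt n = totR tanP (MH n) := by
  ext y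
  exact ⟨fun h => ⟨Tan.mem h, (tanP_eq_iff (Tan.mem h)).2 h⟩, fun h => (tanP_eq_iff h.1).1 h.2⟩

theorem isClosed_Tt : IsClosed (Tt n) := by
  rw [Tt_eq]
  exact (isCompact_MH.isClosed.preimage continuous_fst).inter
    (isClosed_eq ((continuous_tanP.comp continuous_fst).clm_apply continuous_snd) continuous_snd)

theorem cs_add (s t : ℝ) : cs (s + t) = cs s * cs t := by
  rw [cs, cs, cs, mul_add, Circle.exp_add]

theorem cs_zero : cs 0 = 1 := by
  rw [cs, mul_zero, Circle.exp_zero]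

theorem cs_pi : cs π = 1 := by
  rw [cs, Circle.exp_two_pi]

theorem continuous_cs : Continuous cs := by
  exact Circle.exp.continuous.comp (continuous_const.mul continuous_id)

theorem exists_cs (θ : Circle) : ∃ t ∈ Ico 0 π, θ = cs t := by
  have e : θ = cs (Complex.arg θ / 2) := by
    rw [cs, mul_div_cancel₀ _ two_ne_zero, Circle.exp_arg]
  have h1 := Complex.neg_pi_lt_arg θ
  have h2 := Complex.arg_le_pi θ
  have h3 := pi_pos
  rcases le_or_gt 0 (Complex.arg θ) with h | h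
  · exact ⟨_, ⟨by linarith, by linarith⟩, e⟩
  · exact ⟨Complex.arg θ / 2 + π, ⟨by linarith, by linarith⟩, by rw [cs_add, cs_pi, mul_one, ← e]⟩

theorem sh_apply (θ t : Circle) (c : LM n) : sh θ c t = c (θ * t) := rfl

theorem sh_one (c : LM n) : sh 1 c = c := by
  ext1 t
  rw [sh_apply, one_mul]

theorem sh_mul (θ η : Circle) (c : LM n) : sh (θ * η) c = sh θ (sh η c) := by
  ext1 t
  rw [sh_apply, sh_apply, sh_apply, mul_left_comm, mul_assoc]

theorem continuous_sh : Continuous fun z : Circle × LM n => sh z.1 z.2 := by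
  refine ContinuousMap.continuous_of_continuous_uncurry _ ?_
  exact (continuous_snd.comp continuous_fst).eval
    ((continuous_fst.comp continuous_fst).mul continuous_snd)

theorem Tan.rsmul {p X : AM n} (h : Tan p X) (r : ℝ) : Tan p (r • X) := by
  obtain ⟨z, hz, e, u, rfl⟩ := h
  exact ⟨z, hz, e, r • u, (map_smul _ r u).symm⟩

/-- the start point and the point at time `t` -/
def ev2 (z : LM n × ℝ) : AM n × AM n := (z.1 1, z.1 (cs z.2))

theorem continuous_ev2 : Continuous (ev2 : LM n × ℝ → _) :=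
  (continuous_fst.eval continuous_const).prodMk
    (continuous_fst.eval (continuous_cs.comp continuous_snd))

namespace TD0

variable (D : TD0 n k)

theorem continuous_en : Continuous D.en :=
  (continuous_eval_const _).prodMk (continuous_eval_const _)

theorem od_mem {c : LM n} (hc : c ∈ D.S) {t : ℝ} (ht : t ∈ Ioc 0 (π / 2)) :
    (c 1, c (cs t)) ∈ Od n :=
  ⟨⟨D.mem c hc _, D.mem c hc _⟩, fun e => D.ne c hc t ht (Eq.symm e)⟩

theorem isCompact_F : IsCompact D.F := by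
  have e : D.F = D.en '' D.S := Set.ext fun y =>
    ⟨fun ⟨c, hc, e1, e2⟩ => ⟨c, hc, Prod.ext e1 e2⟩, fun ⟨c, hc, e⟩ => e ▸ ⟨c, hc, rfl, rfl⟩⟩
  rw [e]
  exact D.cpt.image D.continuous_en

theorem F_sub : D.F ⊆ Od n := by
  rintro ⟨p, q⟩ ⟨c, hc, rfl, rfl⟩
  exact D.od_mem hc ⟨by positivity, le_rfl⟩

theorem swap_F {y : AM n × AM n} (h : y ∈ D.F) : y.swap ∈ D.F := by
  obtain ⟨c, hc, e1, e2⟩ := h
  refine ⟨sh (cs (π / 2)) c, D.inv _ c hc, ?_, ?_⟩
  · rw [sh_apply, mul_one]; exact e2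
  · rw [sh_apply, ← cs_add, add_halves, cs_pi]; exact e1

theorem en_mem {c : LM n} (hc : c ∈ D.S) : D.en c ∈ D.F := ⟨c, hc, rfl, rfl⟩

theorem lc_Nb : IsLocallyClosed D.Nb := by
  exact isCompact_MM'.isClosed.isLocallyClosed.inter
    D.isCompact_F.isClosed.isOpen_compl.isLocallyClosed

theorem Dg_sub {y : AM n × AM n} (h : y ∈ MM n) (k : y ∈ Dg n) : y ∈ D.Nb := by
  exact ⟨h, fun hF => (D.F_sub hF).2 k⟩

/-- two points of a geodesic at distance less than `π / 2` are not cut points -/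
theorem not_cut {c : LM n} (hc : c ∈ D.S) {s t : ℝ} (h : |t - s| < π / 2) :
    (c (cs s), c (cs t)) ∈ D.Nb := by
  have key : ∀ s t : ℝ, s < t → t - s < π / 2 → (c (cs s), c (cs t)) ∉ D.F := by
    rintro s t h1 h2 ⟨c', hc', e1, e2⟩
    have := (D.inj (sh (cs s) c) (D.inv _ c hc) c' hc' (by rw [sh_apply, mul_one]; exact e1)
      (t - s) ⟨by linarith, h2⟩ (π / 2) ⟨by positivity, le_rfl⟩
      (by rw [sh_apply, ← cs_add, add_sub_cancel]; exact e2)).2
    linarith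
  have hM : (c (cs s), c (cs t)) ∈ MM n := ⟨D.mem c hc _, D.mem c hc _⟩
  obtain ⟨h1, h2⟩ := abs_lt.1 h
  rcases lt_trichotomy s t with l | rfl | l
  · exact ⟨hM, key s t l h2⟩
  · exact D.Dg_sub hM rfl
  · exact ⟨hM, fun hF => key t s l (by linarith) (D.swap_F hF)⟩

theorem cut_iff {c : LM n} (hc : c ∈ D.S) {θ : Circle} : (c 1, c θ) ∈ D.F ↔ θ = cs (π / 2) := by
  refine ⟨fun h => ?_, fun e => e ▸ D.en_mem hc⟩
  obtain ⟨t, ht, rfl⟩ := exists_cs θ
  have h3 := pi_pos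
  rcases lt_trichotomy t (π / 2) with l | rfl | l
  · have := D.not_cut hc (s := 0) (t := t) (by rw [sub_zero, abs_of_nonneg ht.1]; exact l)
    rw [cs_zero] at this
    exact absurd h this.2
  · rfl
  · have := D.not_cut hc (s := π) (t := t) (abs_lt.2 ⟨by linarith, by linarith [ht.2]⟩)
    rw [cs_pi] at this
    exact absurd h this.2

theorem j0_mem {c : LM n} (hc : c ∈ D.S) : D.j0 c ∈ D.Nb \ Dg n := by
  have h3 := pi_pos
  have := D.not_cut hc (s := 0) (t := π / 4) (abs_lt.2 ⟨by linarith, by linarith⟩)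
  rw [cs_zero] at this
  exact ⟨this, (D.od_mem hc (t := π / 4) ⟨by linarith, by linarith⟩).2⟩

/-- the circle acts freely -/
theorem free {c : LM n} (hc : c ∈ D.S) {θ : Circle} (h : sh θ c = c) : θ = 1 := by
  obtain ⟨t, ht, rfl⟩ := exists_cs θ
  rcases ht.1.eq_or_lt with rfl | h0
  · exact cs_zero
  rcases le_or_gt t (π / 2) with l | l
  · refine absurd ?_ (D.ne c hc t ⟨h0, l⟩)
    have := sh_apply (cs t) 1 c
    rw [h, mul_one] at this
    exact this.symm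
  · refine absurd ?_ (D.ne c hc (π - t) ⟨by linarith [ht.2], by linarith⟩)
    have := sh_apply (cs t) (cs (π - t)) c
    rw [h, ← cs_add, add_sub_cancel, cs_pi] at this
    exact this

theorem gc_spec {y : AM n × AM n} (h : y ∈ Tt n) (h0 : y.2 ≠ 0) :
    D.gc y ∈ D.S ∧ D.gc y 1 = y.1 ∧ 0 < D.gr y ∧ y.2 = D.gr y • D.vel (D.gc y) := by
  obtain ⟨c, hc, e1, r, hr, e2⟩ := D.ex y.1 y.2 h h0
  unfold gc gr gcr
  rw [if_neg h0]
  exact Classical.epsilon_spec (p := fun z : LM n × ℝ =>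
    z.1 ∈ D.S ∧ z.1 1 = y.1 ∧ 0 < z.2 ∧ y.2 = z.2 • D.vel z.1) ⟨(c, r), hc, e1, hr, e2⟩

theorem gc_eq {c : LM n} (hc : c ∈ D.S) {r : ℝ} (hr : 0 < r) :
    D.gc (c 1, r • D.vel c) = c ∧ D.gr (c 1, r • D.vel c) = r := by
  obtain ⟨h1, h2, h3, h4⟩ := D.gc_spec (y := (c 1, r • D.vel c)) ((D.tan c hc).rsmul r)
    (smul_ne_zero hr.ne' (D.vne c hc))
  have e : D.gc (c 1, r • D.vel c) = c := by
    refine D.uniq c hc _ h1 h2 ((D.gr (c 1, r • D.vel c))⁻¹ * r) (by positivity) ?_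
    rw [mul_smul, eq_inv_smul_iff₀ h3.ne']
    exact h4.symm
  rw [e] at h4
  exact ⟨e, (smul_left_injective ℝ (D.vne c hc) h4).symm⟩

theorem gr_zero (p : AM n) : D.gr (p, 0) = 0 := by
  simp [gr, gcr]

theorem gr_nonneg {y : AM n × AM n} (h : y ∈ Tt n) : 0 ≤ D.gr y := by
  by_cases h0 : y.2 = 0
  · rw [show y = (y.1, 0) from Prod.ext rfl h0, D.gr_zero]
  · exact (D.gc_spec h h0).2.2.1.le

theorem gc_smul {p X : AM n} (h : Tan p X) {s : ℝ} (hs : 0 < s) :
    D.gc (p, s • X) = D.gc (p, X) ∧ D.gr (p, s • X) = s * D.gr (p, X) := by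
  by_cases h0 : X = 0
  · rw [h0, smul_zero, D.gr_zero, mul_zero]
    exact ⟨rfl, rfl⟩
  · obtain ⟨c, hc, rfl, r, hr, rfl⟩ := D.ex p X h h0
    rw [smul_smul, (D.gc_eq hc hr).1, (D.gc_eq hc hr).2]
    exact D.gc_eq hc (mul_pos hs hr)

theorem cont_gc : ContinuousOn D.gc (Tt n \ zs (AM n) (AM n)) := by
  have h1 : ContinuousOn D.gc ((fun c => (c 1, ‖D.vel c‖⁻¹ • D.vel c)) '' D.S) :=
    contOn_of_cpt D.cpt ((continuous_eval_const 1).continuousOn.prodMk
      ((D.cvel.norm.inv₀ fun c hc => norm_ne_zero_iff.2 (D.vne c hc)).smul D.cvel)) subset_rfl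
      continuousOn_id fun c hc => (D.gc_eq hc (inv_pos.2 (norm_pos_iff.2 (D.vne c hc)))).1
  have h2 : ContinuousOn (fun y : AM n × AM n => (y.1, ‖y.2‖⁻¹ • y.2)) (Tt n \ zs (AM n) (AM n)) :=
    continuousOn_fst.prodMk ((continuousOn_snd.norm.inv₀ fun y hy =>
      norm_ne_zero_iff.2 hy.2).smul continuousOn_snd)
  refine (h1.comp h2 fun y hy => ?_).congr fun y hy => ?_
  · obtain ⟨k1, k2, k3, k4⟩ := D.gc_spec hy.1 hy.2
    refine ⟨D.gc y, k1, Prod.ext k2 ?_⟩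
    have k5 := norm_ne_zero_iff.2 (D.vne _ k1)
    change ‖D.vel (D.gc y)‖⁻¹ • D.vel (D.gc y) = ‖y.2‖⁻¹ • y.2
    generalize D.gr y = r at k3 k4
    rw [k4, norm_smul, Real.norm_of_nonneg k3.le, smul_smul]
    congr 1
    field_simp
  · exact (D.gc_smul hy.1 (inv_pos.2 (norm_pos_iff.2 hy.2))).1.symm

theorem gr_div {y : AM n × AM n} (h : y ∈ Tt n) (h0 : y.2 ≠ 0) :
    D.gr y = ‖y.2‖ / ‖D.vel (D.gc y)‖ := by
  obtain ⟨k1, -, k3, k4⟩ := D.gc_spec h h0
  rw [eq_div_iff (norm_ne_zero_iff.2 (D.vne _ k1)), ← Real.norm_of_nonneg k3.le, ← norm_smul, ← k4]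

theorem gr_le : ∃ b : ℝ, 0 < b ∧ ∀ y ∈ Tt n, D.gr y ≤ b * ‖y.2‖ := by
  obtain ⟨m, hm, k⟩ := D.cpt.exists_forall_le' D.cvel.norm (a := 0)
    fun c hc => norm_pos_iff.2 (D.vne c hc)
  refine ⟨m⁻¹, inv_pos.2 hm, fun y hy => ?_⟩
  by_cases h0 : y.2 = 0
  · rw [show y = (y.1, 0) from Prod.ext rfl h0, D.gr_zero, norm_zero, mul_zero]
  · rw [D.gr_div hy h0, inv_mul_eq_div]
    exact div_le_div_of_nonneg_left (norm_nonneg _) hm (k _ (D.gc_spec hy h0).1)

theorem cont_gr : ContinuousOn D.gr (Tt n) := by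
  intro y hy
  by_cases h0 : y.2 = 0
  · obtain ⟨b, -, hb⟩ := D.gr_le
    have e : D.gr y = 0 := by rw [show y = (y.1, 0) from Prod.ext rfl h0, D.gr_zero]
    unfold ContinuousWithinAt
    rw [e]
    refine squeeze_zero' (eventually_nhdsWithin_of_forall fun z hz => D.gr_nonneg hz)
      (eventually_nhdsWithin_of_forall hb) ?_
    have : Tendsto (fun z : AM n × AM n => b * ‖z.2‖) (𝓝 y) (𝓝 (b * ‖y.2‖)) :=
      (continuous_const.mul continuous_snd.norm).tendsto y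
    rw [h0, norm_zero, mul_zero] at this
    exact this.mono_left nhdsWithin_le_nhds
  · have h1 : ContinuousOn D.gr (Tt n \ zs (AM n) (AM n)) :=
      (continuousOn_snd.norm.div (D.cvel.comp D.cont_gc fun z hz => (D.gc_spec hz.1 hz.2).1).norm
        fun z hz => norm_ne_zero_iff.2 (D.vne _ (D.gc_spec hz.1 hz.2).1)).congr
        fun z hz => D.gr_div hz.1 hz.2
    exact (h1 y ⟨hy, h0⟩).mono_of_mem_nhdsWithin (inter_mem_nhdsWithin _
      ((isClosed_eq continuous_snd continuous_const).isOpen_compl.mem_nhds h0))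

/-- the scale is comparable with the norm -/
theorem gr_bound : ∃ a b : ℝ, 0 < a ∧ 0 < b ∧ ∀ y ∈ Tt n, a * ‖y.2‖ ≤ D.gr y ∧ D.gr y ≤ b * ‖y.2‖ := by
  obtain ⟨b, hb, k⟩ := D.gr_le
  obtain ⟨M, hM⟩ := D.cpt.exists_bound_of_continuousOn D.cvel
  have p : 0 < max M 1 := lt_max_of_lt_right one_pos
  refine ⟨(max M 1)⁻¹, b, inv_pos.2 p, hb, fun y hy => ⟨?_, k y hy⟩⟩
  by_cases h0 : y.2 = 0
  · rw [h0, norm_zero, mul_zero]
    exact D.gr_nonneg hy
  · have k1 := (D.gc_spec hy h0).1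
    rw [D.gr_div hy h0, inv_mul_eq_div]
    exact div_le_div_of_nonneg_left (norm_nonneg _) (norm_pos_iff.2 (D.vne _ k1))
      ((hM _ k1).trans (le_max_left _ _))

theorem lc_spec {y : AM n × AM n} (h : y ∈ Od n) :
    D.lc y ∈ D.S ∧ D.lc y 1 = y.1 ∧ D.lt y ∈ Ioc 0 (π / 2) ∧ D.lc y (cs (D.lt y)) = y.2 := by
  obtain ⟨c, hc, e1, t, ht, e2⟩ := D.surj y.1 h.1.1 y.2 h.1.2 h.2
  unfold lc lt lct
  rw [if_neg (show ¬ y.1 = y.2 from h.2)]
  exact Classical.epsilon_spec (p := fun z : LM n × ℝ =>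
    z.1 ∈ D.S ∧ z.1 1 = y.1 ∧ z.2 ∈ Ioc 0 (π / 2) ∧ z.1 (cs z.2) = y.2) ⟨(c, t), hc, e1, ht, e2⟩

theorem lt_dg {y : AM n × AM n} (h : y ∈ Dg n) : D.lt y = 0 := by
  unfold lt lct
  rw [if_pos (show y.1 = y.2 from h)]

theorem lt_eq {c : LM n} (hc : c ∈ D.S) {t : ℝ} (ht : t ∈ Icc 0 (π / 2)) :
    D.lt (c 1, c (cs t)) = t := by
  rcases ht.1.eq_or_lt with rfl | h0
  · exact D.lt_dg (by rw [cs_zero]; rfl)
  obtain ⟨h1, h2, h3, h4⟩ := D.lc_spec (D.od_mem hc ⟨h0, ht.2⟩)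
  rcases ht.2.eq_or_lt with e | l
  · rcases h3.2.eq_or_lt with e' | l'
    · exact e'.trans e.symm
    · exact (D.inj _ h1 c hc h2.symm _ ⟨h3.1, l'⟩ t ⟨h0, ht.2⟩ h4.symm).2.symm
  · exact (D.inj c hc _ h1 h2 t ⟨h0, l⟩ _ h3 h4).2

theorem lc_eq {c : LM n} (hc : c ∈ D.S) {t : ℝ} (ht : t ∈ Ioo 0 (π / 2)) :
    D.lc (c 1, c (cs t)) = c := by
  obtain ⟨h1, h2, h3, h4⟩ := D.lc_spec (D.od_mem hc ⟨ht.1, ht.2.le⟩)
  exact (D.inj c hc _ h1 h2 t ht _ h3 h4).1

theorem hat_eq {c : LM n} (hc : c ∈ D.S) {t : ℝ} (ht : t ∈ Ioc 0 (π / 2)) :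
    D.hat (c 1, c (cs t)) = D.en c := by
  refine Prod.ext rfl ?_
  change D.lc (c 1, c (cs t)) (cs (π / 2)) = c (cs (π / 2))
  rcases ht.2.eq_or_lt with rfl | l
  · have h4 := (D.lc_spec (D.od_mem hc ht)).2.2.2
    rwa [D.lt_eq hc ⟨ht.1.le, ht.2⟩] at h4
  · rw [D.lc_eq hc ⟨ht.1, l⟩]

theorem lt_lt {y : AM n × AM n} (h : y ∈ D.Nb) : D.lt y ∈ Ico 0 (π / 2) := by
  by_cases h0 : y ∈ Dg n
  · rw [D.lt_dg h0]
    exact ⟨le_rfl, by positivity⟩
  · obtain ⟨h1, h2, h3, h4⟩ := D.lc_spec ⟨h.1, h0⟩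
    exact ⟨h3.1.le, h3.2.lt_of_ne fun e => h.2 ⟨_, h1, h2, by rw [← e]; exact h4⟩⟩

theorem cont_lt : ContinuousOn D.lt (MM n) := by
  have hK : IsCompact (D.S ×ˢ Icc 0 (π / 2)) := D.cpt.prod isCompact_Icc
  have h1 : ContinuousOn D.lt (ev2 '' (D.S ×ˢ Icc 0 (π / 2))) :=
    contOn_of_cpt hK continuous_ev2.continuousOn subset_rfl continuousOn_snd
      fun z hz => D.lt_eq hz.1 hz.2
  have h2 : ContinuousOn D.lt (Dg n) := continuousOn_const.congr fun y hy => D.lt_dg hy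
  refine (h1.union_of_isClosed h2 (hK.image continuous_ev2).isClosed isClosed_Dg').mono
    fun y hy => ?_
  by_cases h0 : y ∈ Dg n
  · exact Or.inr h0
  · obtain ⟨k1, k2, k3, k4⟩ := D.lc_spec ⟨hy, h0⟩
    exact Or.inl ⟨(D.lc y, D.lt y), ⟨k1, k3.1.le, k3.2⟩, Prod.ext k2 k4⟩

theorem cont_loc {X : Type} [TopologicalSpace X] {f : AM n × AM n → X} {g : LM n → X}
    (hg : ContinuousOn g D.S) {U : Set (AM n × AM n)} (hU : U ⊆ Od n) {y : AM n × AM n}
    (hy : y ∈ U) {a b : ℝ} (ha : a < D.lt y) (hb : D.lt y < b)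
    (e : ∀ c ∈ D.S, ∀ t ∈ Icc a b ∩ Icc 0 (π / 2), f (c 1, c (cs t)) = g c) :
    ContinuousWithinAt f U y := by
  have h1 : ContinuousOn f (U ∩ D.lt ⁻¹' Ioo a b) := by
    refine contOn_of_cpt (K := D.S ×ˢ (Icc a b ∩ Icc 0 (π / 2)))
      (D.cpt.prod (isCompact_Icc.inter_right isClosed_Icc)) continuous_ev2.continuousOn
      (fun z hz => ?_) (hg.comp continuousOn_fst fun z hz => hz.1) fun z hz => e _ hz.1 _ hz.2
    obtain ⟨k1, k2, k3, k4⟩ := D.lc_spec (hU hz.1)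
    exact ⟨(D.lc z, D.lt z), ⟨k1, Ioo_subset_Icc_self hz.2, k3.1.le, k3.2⟩, Prod.ext k2 k4⟩
  exact (h1 y ⟨hy, ha, hb⟩).mono_of_mem_nhdsWithin (inter_mem self_mem_nhdsWithin
    (((D.cont_lt y (hU hy).1).mono fun z hz => (hU hz).1).preimage_mem_nhdsWithin
      (Ioo_mem_nhds ha hb)))

theorem cont_lc : ContinuousOn D.lc (D.Nb \ Dg n) := by
  intro y hy
  have h1 := (D.lc_spec ⟨hy.1.1, hy.2⟩).2.2.1.1
  have h2 := (D.lt_lt hy.1).2
  exact D.cont_loc continuousOn_id (fun z hz => ⟨hz.1.1, hz.2⟩) hy (a := D.lt y / 2)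
    (b := (D.lt y + π / 2) / 2) (by linarith) (by linarith)
    fun c hc t ht => D.lc_eq hc ⟨by linarith [ht.1.1], by linarith [ht.1.2]⟩

theorem cont_hat : ContinuousOn D.hat (Od n) := by
  intro y hy
  have h1 := (D.lc_spec hy).2.2.1.1
  exact D.cont_loc D.continuous_en.continuousOn subset_rfl hy (a := D.lt y / 2)
    (b := D.lt y + 1) (by linarith) (by linarith)
    fun c hc t ht => D.hat_eq hc ⟨by linarith [ht.1.1], ht.2.2⟩

theorem hat_mem : MapsTo D.hat (Od n) D.F := by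
  intro y hy
  obtain ⟨k1, k2, -, -⟩ := D.lc_spec hy
  exact ⟨D.lc y, k1, k2, rfl⟩

theorem hat_of_mem {y : AM n × AM n} (h : y ∈ D.F) : D.hat y = y := by
  obtain ⟨c, hc, e1, e2⟩ := h
  obtain rfl : D.en c = y := Prod.ext e1 e2
  exact D.hat_eq hc ⟨by positivity, le_rfl⟩

end TD0

end Pool.Agent.Work.MP_8c604c_gt.T
end
end

-- merged part: Pool.Agent.Work.MP_8c604c_gt.T.GeoB1
section
/-!
General lemmas for part B of the point set geometry.
-/

noncomputable section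

namespace Pool.Agent.Work.MP_8c604c_gt.T

open Set Filter Topology

/-- subspaces of equal dimension, one almost inside the other, have close projectors -/
theorem geob_close {A : Type} [NormedAddCommGroup A] [InnerProductSpace ℝ A]
    [FiniteDimensional ℝ A] {V W : Submodule ℝ A}
    (hd : Module.finrank ℝ V = Module.finrank ℝ W) {ε : ℝ} (h0 : 0 ≤ ε) (h1 : ε ≤ 1 / 2)
    (h : ∀ a ∈ V, ‖a - W.starProjection a‖ ≤ ε * ‖a‖) :
    ‖V.starProjection - W.starProjection‖ ≤ 3 * ε := by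
  let f : V →ₗ[ℝ] W := LinearMap.codRestrict W
    ((W.starProjection : A →ₗ[ℝ] A).domRestrict V) fun a => W.starProjection_apply_mem a
  have fi : Function.Injective f := by
    rw [injective_iff_map_eq_zero]
    intro a ha
    have e : W.starProjection (a : A) = 0 := congrArg Subtype.val ha
    have k := h a a.2
    rw [e, sub_zero] at k
    have := norm_nonneg (a : A)
    have k2 : ‖(a : A)‖ = 0 := by nlinarith
    exact Subtype.ext (norm_eq_zero.1 k2)
  have fs := (LinearMap.injective_iff_surjective_of_finrank_eq_finrank hd).1 fi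
  have low : ∀ b ∈ W, ‖b - V.starProjection b‖ ≤ 2 * ε * ‖b‖ := fun b hb => by
    obtain ⟨a, ha⟩ := fs ⟨b, hb⟩
    have e : W.starProjection (a : A) = b := congrArg Subtype.val ha
    have k := h a a.2
    rw [e] at k
    have k1 : ‖(a : A)‖ ≤ ‖(a : A) - b‖ + ‖b‖ := norm_le_norm_sub_add _ _
    have n1 := norm_nonneg (a : A)
    have k2 : ‖(a : A)‖ ≤ 2 * ‖b‖ := by nlinarith
    have e2 : b - V.starProjection b = Vᗮ.starProjection (b - a) := by
      rw [Submodule.starProjection_orthogonal_val, map_sub,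
        Submodule.starProjection_eq_self_iff.2 a.2]
      abel
    rw [e2]
    refine (Submodule.norm_starProjection_apply_le _ _).trans ?_
    rw [norm_sub_rev]
    nlinarith
  refine ContinuousLinearMap.opNorm_le_bound _ (by linarith) fun v => ?_
  have e : (V.starProjection - W.starProjection) v =
      (V.starProjection v - W.starProjection (V.starProjection v)) -
        W.starProjection (v - V.starProjection v) := by
    rw [sub_apply, map_sub]
    abel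
  have k1 := h _ (V.starProjection_apply_mem v)
  have k2 := V.norm_starProjection_apply_le v
  have k3 : ‖v - V.starProjection v‖ ≤ ‖v‖ := by
    rw [← Submodule.starProjection_orthogonal_val]
    exact Submodule.norm_starProjection_apply_le _ _
  have k4 : ‖W.starProjection (v - V.starProjection v)‖ ≤ 2 * ε * ‖v - V.starProjection v‖ := by
    set w := v - V.starProjection v with hw
    set u := W.starProjection w with hu
    have i1 : inner ℝ (w - u) u = 0 :=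
      W.starProjection_inner_eq_zero w u (W.starProjection_apply_mem w)
    have i2 : inner ℝ w (V.starProjection u) = 0 :=
      V.starProjection_inner_eq_zero v _ (V.starProjection_apply_mem u)
    have i3 : ‖u‖ ^ 2 = inner ℝ w (u - V.starProjection u) := by
      rw [inner_sub_left, real_inner_self_eq_norm_sq] at i1
      rw [inner_sub_right, i2]
      linarith
    have i4 := real_inner_le_norm w (u - V.starProjection u)
    have i5 := low u (W.starProjection_apply_mem w)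
    have n1 := norm_nonneg u
    have n2 := norm_nonneg w
    rcases n1.eq_or_lt with z | z
    · rw [← z]; positivity
    · have : ‖u‖ * ‖u‖ ≤ ‖u‖ * (2 * ε * ‖w‖) := by nlinarith
      exact le_of_mul_le_mul_left this z
  rw [e]
  refine (norm_sub_le _ _).trans ?_
  nlinarith

/-- the projectors of a closed family of subspaces of constant dimension are continuous -/
theorem geob_proj_cont {X A : Type} [TopologicalSpace X] [NormedAddCommGroup A]
    [InnerProductSpace ℝ A] [FiniteDimensional ℝ A] {U : Set X}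
    {V : X → Submodule ℝ A} {r : ℕ} (hr : ∀ x ∈ U, Module.finrank ℝ (V x) = r)
    (hc : IsClosed {z : X × A | z.1 ∈ U ∧ z.2 ∈ V z.1}) :
    ContinuousOn (fun x => (V x).starProjection) U := by
  intro x hx
  refine Metric.tendsto_nhds.2 fun δ hδ => ?_
  obtain ⟨ε, e0, e1, e2⟩ : ∃ ε : ℝ, 0 < ε ∧ ε ≤ 1 / 2 ∧ 3 * ε < δ :=
    ⟨min (1 / 2) (δ / 4), by positivity, min_le_left _ _, by
      have := min_le_right (1 / 2) (δ / 4); linarith⟩
  have hK : IsCompact (Metric.sphere (0 : A) 1 ∩ {a | ε ≤ ‖a - (V x).starProjection a‖}) :=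
    (isCompact_sphere 0 1).inter_right (isClosed_le continuous_const (by fun_prop))
  have ev : ∀ᶠ y in 𝓝 x, ∀ a ∈ Metric.sphere (0 : A) 1 ∩
      {a | ε ≤ ‖a - (V x).starProjection a‖}, ¬ (y ∈ U ∧ a ∈ V y) := by
    refine hK.eventually_forall_of_forall_eventually fun a ha => ?_
    refine hc.isOpen_compl.mem_nhds fun k => ?_
    have k2 := ha.2
    rw [mem_ofPred_eq, Submodule.starProjection_eq_self_iff.2 k.2, sub_self, norm_zero] at k2
    linarith
  filter_upwards [nhdsWithin_le_nhds ev, self_mem_nhdsWithin] with y hy yU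
  rw [dist_eq_norm]
  refine lt_of_le_of_lt (geob_close ((hr y yU).trans (hr x hx).symm) e0.le e1 fun a ha => ?_) e2
  rcases eq_or_ne a 0 with rfl | a0
  · simp
  have n0 : 0 < ‖a‖ := norm_pos_iff.2 a0
  by_contra k
  refine hy (‖a‖⁻¹ • a) ⟨by simp [norm_smul, n0.ne'], ?_⟩ ⟨yU, (V y).smul_mem _ ha⟩
  rw [mem_ofPred_eq, map_smul, ← smul_sub, norm_smul, norm_inv, norm_norm, le_inv_mul_iff₀ n0]
  rw [not_le] at k
  linarith

/-- a cone over a compact set: closed image -/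
theorem geob_cone_closed {A B : Type} [TopologicalSpace A] [TopologicalSpace B] [T2Space B]
    {S : Set A} (hS : IsCompact S) {π : A × ℝ → B} (hπ : ContinuousOn π (S ×ˢ Ici 0))
    {N : B → ℝ} (hN : Continuous N) (hb : ∀ c ∈ S, ∀ r : ℝ, 0 ≤ r → r ≤ N (π (c, r))) :
    IsClosed (π '' (S ×ˢ Ici 0)) := by
  refine isClosed_of_closure_subset fun x hx => ?_
  have hO : IsOpen {b | N b < N x + 1} := isOpen_lt hN continuous_const
  have k1 := hO.inter_closure ⟨(by simp : N x < N x + 1), hx⟩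
  have sub : S ×ˢ Icc 0 (N x + 1) ⊆ S ×ˢ Ici (0 : ℝ) := prod_mono le_rfl Icc_subset_Ici_self
  have hK : IsCompact (π '' (S ×ˢ Icc 0 (N x + 1))) :=
    (hS.prod isCompact_Icc).image_of_continuousOn (hπ.mono sub)
  refine image_mono sub (hK.isClosed.closure_subset_iff.2 ?_ k1)
  rintro _ ⟨k, y, hy, rfl⟩
  exact ⟨y, ⟨hy.1, hy.2, (hb y.1 hy.1 y.2 hy.2).trans (le_of_lt k)⟩, rfl⟩

/-- a cone over a compact set: continuity on the image -/
theorem geob_cone_cont {A B X : Type} [TopologicalSpace A] [TopologicalSpace B] [T2Space B]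
    [TopologicalSpace X]
    {S : Set A} (hS : IsCompact S) {π : A × ℝ → B} (hπ : ContinuousOn π (S ×ˢ Ici 0))
    {N : B → ℝ} (hN : Continuous N) (hb : ∀ c ∈ S, ∀ r : ℝ, 0 ≤ r → r ≤ N (π (c, r)))
    {f : B → X} {G : A × ℝ → X} (hG : ContinuousOn G (S ×ˢ Ici 0))
    (e : ∀ c ∈ S, ∀ r : ℝ, 0 ≤ r → f (π (c, r)) = G (c, r)) :
    ContinuousOn f (π '' (S ×ˢ Ici 0)) := by
  refine continuousOn_of_locally_continuousOn fun x _ =>
    ⟨{b | N b < N x + 1}, isOpen_lt hN continuous_const, (by simp : N x < N x + 1), ?_⟩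
  have sub : S ×ˢ Icc 0 (N x + 1) ⊆ S ×ˢ Ici (0 : ℝ) := prod_mono le_rfl Icc_subset_Ici_self
  refine contOn_of_cpt (hS.prod isCompact_Icc) (hπ.mono sub) ?_ (hG.mono sub)
    fun y hy => e y.1 hy.1 y.2 hy.2.1
  rintro _ ⟨⟨y, hy, rfl⟩, k⟩
  exact ⟨y, ⟨hy.1, hy.2, (hb y.1 hy.1 y.2 hy.2).trans (le_of_lt k)⟩, rfl⟩

/-- a bounded field times a function that vanishes where the field is not continuous -/
theorem geob_smul_cont {X E : Type} [TopologicalSpace X] [NormedAddCommGroup E] [NormedSpace ℝ E]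
    {U Z : Set X} (hZ : IsClosed Z) {φ : X → ℝ} {v : X → E} (hφ : ContinuousOn φ U)
    (hv : ContinuousOn v (U \ Z)) (h0 : ∀ x ∈ U, x ∈ Z → φ x = 0) {M : ℝ}
    (hM : ∀ x ∈ U \ Z, ‖v x‖ ≤ M) : ContinuousOn (fun x => φ x • v x) U := by
  intro x hx
  by_cases xZ : x ∈ Z
  · have k : Tendsto (fun y => ‖φ y‖ * M) (𝓝[U] x) (𝓝 0) := by
      have := (hφ x hx).norm.tendsto.mul_const M
      rwa [h0 x hx xZ, norm_zero, zero_mul] at this
    show Tendsto _ _ (𝓝 (φ x • v x))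
    rw [h0 x hx xZ, zero_smul]
    refine squeeze_zero_norm' ?_ k
    filter_upwards [self_mem_nhdsWithin] with y hy
    by_cases yZ : y ∈ Z
    · simp [h0 y hy yZ]
    · rw [norm_smul]
      exact mul_le_mul_of_nonneg_left (hM y ⟨hy, yZ⟩) (norm_nonneg _)
  · refine (hφ x hx).smul ((hv x ⟨hx, xZ⟩).mono_of_mem_nhdsWithin ?_)
    exact inter_mem_nhdsWithin _ (hZ.isOpen_compl.mem_nhds xZ)

end Pool.Agent.Work.MP_8c604c_gt.T
end
end

-- merged part: Pool.Agent.Work.MP_8c604c_gt.T.GeoB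
section
/-!
Point set geometry, part B: the homeomorphisms `G : Tt n → Nb` and `Th : totR WF F → Od n`, and
the bundles `WF`, `W`, `VV`.
-/

noncomputable section

namespace Pool.Agent.Work.MP_8c604c_gt.T

open Set Real

variable {n k : ℕ}

/-- a closed family of subspaces of constant dimension is a bundle -/
theorem rb_of_closed {X A : Type} [TopologicalSpace X] [NormedAddCommGroup A]
    [InnerProductSpace ℝ A] [FiniteDimensional ℝ A] {U : Set X} (hU : IsClosed U)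
    {V : X → Submodule ℝ A} {r : ℕ} (hr : ∀ x ∈ U, Module.finrank ℝ (V x) = r)
    (hc : IsClosed {z : X × A | z.1 ∈ U ∧ z.2 ∈ V z.1}) :
    RB (fun x => (V x).starProjection) r U := by
  refine ⟨hU.isLocallyClosed, geob_proj_cont hr hc, fun x _ a =>
    Submodule.starProjection_eq_self_iff.2 ((V x).starProjection_apply_mem a), fun x hx => ?_⟩
  rw [Submodule.range_starProjection]
  exact hr x hx

theorem geob_tan_smul {p X : AM n} (h : Tan p X) (s : ℝ) : Tan p (s • X) := by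
  obtain ⟨z, hz, e, u, rfl⟩ := h
  exact ⟨z, hz, e, s • u, by rw [map_smul]⟩

theorem geob_tan_zero {p : AM n} (h : p ∈ MH n) : Tan p 0 := by
  obtain ⟨z, hz, e⟩ := h
  exact ⟨z, hz, e, 0, by rw [map_zero]⟩

theorem geob_t1 {r : ℝ} (hr : 0 < r) : π / 2 * (r / (1 + r)) ∈ Ioo 0 (π / 2) := by
  have := pi_pos
  refine ⟨by positivity, mul_lt_of_lt_one_right (by positivity) ?_⟩
  rw [div_lt_one (by positivity)]
  linarith

theorem geob_t2 {r : ℝ} (hr : 0 ≤ r) : π / 2 / (1 + r) ∈ Ioc 0 (π / 2) := by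
  have := pi_pos
  exact ⟨by positivity, div_le_self (by positivity) (by linarith)⟩

theorem geob_t3 {r : ℝ} (hr : 0 < r) : π / 2 / (1 + r) ∈ Ioo 0 (π / 2) := by
  have := pi_pos
  exact ⟨by positivity, div_lt_self (by positivity) (by linarith)⟩

namespace TD0

variable (D : TD0 n k)

/-- the velocity is bounded above and below -/
theorem geob_vel : ∃ m M : ℝ, ∀ c ∈ D.S, 1 ≤ m * ‖D.vel c‖ ∧ ‖D.vel c‖ ≤ M := by
  obtain ⟨M, hM⟩ := D.cpt.exists_bound_of_continuousOn D.cvel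
  obtain ⟨m, hm⟩ := D.cpt.exists_bound_of_continuousOn
    (D.cvel.norm.inv₀ fun c hc => norm_ne_zero_iff.2 (D.vne c hc))
  refine ⟨m, M, fun c hc => ⟨?_, hM c hc⟩⟩
  have k : ‖D.vel c‖⁻¹ ≤ m := (le_abs_self _).trans (hm c hc)
  have n0 := norm_pos_iff.2 (D.vne c hc)
  rwa [inv_le_iff_one_le_mul₀ n0] at k

theorem geob_le {m : ℝ} {c : LM n} (h : 1 ≤ m * ‖D.vel c‖) {r : ℝ} (hr : 0 ≤ r) :
    r ≤ m * ‖r • D.vel c‖ := by
  rw [norm_smul, Real.norm_of_nonneg hr]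
  nlinarith

theorem geob_cvel : ContinuousOn (fun z : LM n × ℝ => D.vel z.1) (D.S ×ˢ Ici 0) :=
  D.cvel.comp continuousOn_fst fun _ h => h.1

theorem geob_cen : Continuous fun z : LM n × ℝ => D.en z.1 := by
  unfold en
  fun_prop

theorem geob_G0 {y : AM n × AM n} (h : y.2 = 0) : D.G y = (y.1, y.1) := if_pos h

theorem geob_G_eq {c : LM n} (hc : c ∈ D.S) {r : ℝ} (hr : 0 ≤ r) :
    D.G (c 1, r • D.vel c) = (c 1, c (cs (π / 2 * (r / (1 + r))))) := by
  rcases hr.eq_or_lt with rfl | hr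
  · rw [D.geob_G0 (zero_smul _ _), zero_div, mul_zero, cs_zero]
  · unfold G
    rw [if_neg (smul_ne_zero hr.ne' (D.vne c hc)), pt, (D.gc_eq hc hr).1, (D.gc_eq hc hr).2]

/-- nonzero tangent vectors -/
theorem geob_Tt {y : AM n × AM n} (h : y ∈ Tt n) (h0 : y.2 ≠ 0) :
    ∃ c ∈ D.S, ∃ r : ℝ, 0 < r ∧ y = (c 1, r • D.vel c) := by
  obtain ⟨c, hc, e, r, hr, k⟩ := D.ex y.1 y.2 h h0
  exact ⟨c, hc, r, hr, Prod.ext e.symm k⟩

/-- pairs of distinct points -/
theorem geob_Od {y : AM n × AM n} (h : y ∈ Od n) :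
    y = (D.lc y 1, D.lc y (cs (D.lt y))) := by
  obtain ⟨-, e, -, k⟩ := D.lc_spec h
  exact Prod.ext e.symm k.symm

theorem geob_lt0 {y : AM n × AM n} (h : y ∈ Dg n) : D.lt y = 0 := by
  unfold lt lct
  rw [if_pos (show y.1 = y.2 from h)]

theorem cont_G : ContinuousOn D.G (Tt n) := by
  obtain ⟨m, M, hm⟩ := D.geob_vel
  have hπ : ContinuousOn (fun z : LM n × ℝ => (z.1 1, z.2 • D.vel z.1)) (D.S ×ˢ Ici 0) :=
    ContinuousOn.prodMk (by fun_prop) (continuousOn_snd.smul D.geob_cvel)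
  have hN : Continuous fun y : AM n × AM n => m * ‖y.2‖ := by fun_prop
  have hb : ∀ c ∈ D.S, ∀ r : ℝ, 0 ≤ r → r ≤ m * ‖r • D.vel c‖ :=
    fun c hc r hr => D.geob_le (hm c hc).1 hr
  have hG : ContinuousOn (fun z : LM n × ℝ => (z.1 1, z.1 (cs (π / 2 * (z.2 / (1 + z.2))))))
      (D.S ×ˢ Ici 0) := by
    refine ContinuousOn.prodMk (by fun_prop) (continuousOn_fst.eval
      (continuous_cs.comp_continuousOn (continuousOn_const.mul
        (continuousOn_snd.div (by fun_prop) fun z hz => ?_))))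
    have : (0 : ℝ) ≤ z.2 := hz.2
    positivity
  have c1 := geob_cone_cont D.cpt hπ hN hb (f := D.G) hG fun c hc r hr => D.geob_G_eq hc hr
  have c2 : ContinuousOn D.G {y | y.2 = 0} :=
    (continuous_fst.prodMk continuous_fst).continuousOn.congr fun y hy => D.geob_G0 hy
  refine (c1.union_of_isClosed c2 (geob_cone_closed D.cpt hπ hN hb)
    (isClosed_eq continuous_snd continuous_const)).mono fun y hy => ?_
  by_cases h0 : y.2 = 0
  · exact Or.inr h0
  · obtain ⟨c, hc, r, hr, e⟩ := D.geob_Tt hy h0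
    exact Or.inl ⟨(c, r), ⟨hc, hr.le⟩, e.symm⟩

theorem G_mem : MapsTo D.G (Tt n) D.Nb := by
  intro y hy
  by_cases h0 : y.2 = 0
  · rw [D.geob_G0 h0]
    exact D.Dg_sub ⟨Tan.mem hy, Tan.mem hy⟩ rfl
  · obtain ⟨c, hc, r, hr, rfl⟩ := D.geob_Tt hy h0
    have t := geob_t1 hr
    have k := D.not_cut hc (s := 0) (t := π / 2 * (r / (1 + r)))
      (by rw [sub_zero, abs_of_pos t.1]; exact t.2)
    rw [cs_zero] at k
    rw [D.geob_G_eq hc hr.le]
    exact k

theorem G_fst (y : AM n × AM n) : (D.G y).1 = y.1 := by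
  unfold G
  split_ifs <;> rfl

theorem G_dg {y : AM n × AM n} (h : y ∈ Tt n) : D.G y ∈ Dg n ↔ y.2 = 0 := by
  refine ⟨fun k => by_contra fun h0 => ?_, fun h0 => by rw [D.geob_G0 h0]; rfl⟩
  obtain ⟨c, hc, r, hr, rfl⟩ := D.geob_Tt h h0
  rw [D.geob_G_eq hc hr.le] at k
  exact D.ne c hc _ (Ioo_subset_Ioc_self (geob_t1 hr)) (Eq.symm k)

theorem G_vel {c : LM n} (hc : c ∈ D.S) : D.G (c 1, D.vel c) = D.j0 c := by
  have k := D.geob_G_eq hc zero_le_one
  rw [one_smul, show π / 2 * (1 / (1 + 1)) = π / 4 by ring] at k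
  exact k

theorem cont_Gi : ContinuousOn D.Gi D.Nb := by
  obtain ⟨m, M, hm⟩ := D.geob_vel
  have cl : ContinuousOn D.lt D.Nb := D.cont_lt.mono sdiff_subset
  have ms : ∀ y ∈ D.Nb \ Dg n, D.lc y ∈ D.S := fun y hy => (D.lc_spec ⟨hy.1.1, hy.2⟩).1
  refine continuousOn_fst.prodMk (geob_smul_cont isClosed_Dg'
    (cl.div (continuousOn_const.sub cl) fun y hy => (sub_pos.2 (D.lt_lt hy).2).ne')
    (D.cvel.comp D.cont_lc ms) (fun y _ hy => ?_) fun y hy => (hm _ (ms y hy)).2)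
  show D.lt y / _ = 0
  rw [D.geob_lt0 hy, zero_div]

theorem geob_Gi0 {y : AM n × AM n} (h : y ∈ Dg n) : D.Gi y = (y.1, 0) := by
  unfold Gi
  rw [D.geob_lt0 h, zero_div, zero_smul]

theorem Gi_mem : MapsTo D.Gi D.Nb (Tt n) := by
  intro y hy
  by_cases h0 : y ∈ Dg n
  · rw [D.geob_Gi0 h0]
    exact geob_tan_zero hy.1.1
  · obtain ⟨hc, e, -, -⟩ := D.lc_spec ⟨hy.1, h0⟩
    have k := D.tan _ hc
    rw [e] at k
    exact geob_tan_smul k _

theorem Gi_G {y : AM n × AM n} (h : y ∈ Tt n) : D.Gi (D.G y) = y := by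
  by_cases h0 : y.2 = 0
  · rw [D.geob_G0 h0, D.geob_Gi0 rfl]
    exact Prod.ext rfl h0.symm
  · obtain ⟨c, hc, r, hr, rfl⟩ := D.geob_Tt h h0
    have t := geob_t1 hr
    have := pi_pos
    rw [D.geob_G_eq hc hr.le, Gi, D.lt_eq hc (Ioo_subset_Icc_self t), D.lc_eq hc t]
    have e : π / 2 * (r / (1 + r)) / (π / 2 - π / 2 * (r / (1 + r))) = r := by
      rw [div_eq_iff (sub_pos.2 t.2).ne']
      field_simp
      ring
    rw [e]

theorem G_Gi {y : AM n × AM n} (h : y ∈ D.Nb) : D.G (D.Gi y) = y := by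
  by_cases h0 : y ∈ Dg n
  · rw [D.geob_Gi0 h0, D.geob_G0 rfl]
    exact Prod.ext rfl h0
  · obtain ⟨hc, e, t, e2⟩ := D.lc_spec ⟨h.1, h0⟩
    have t2 := sub_pos.2 (D.lt_lt h).2
    have := pi_pos
    have k := D.geob_G_eq hc (div_pos t.1 t2).le
    have e3 : π / 2 * (D.lt y / (π / 2 - D.lt y) / (1 + D.lt y / (π / 2 - D.lt y))) = D.lt y := by
      rw [one_add_div t2.ne', sub_add_cancel, div_div_div_cancel_right₀ t2.ne']
      field_simp
    rw [e3, e, e2] at k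
    exact k

/-- the linking space of a pair of cut points -/
theorem geob_link {y : AM n × AM n} (h : y ∈ D.F) :
    ∃ V : Submodule ℝ (AM n × AM n), Module.finrank ℝ V = k + 1 ∧ ∀ Y, Y ∈ V ↔
      ∃ c ∈ D.S, D.en c = y ∧ ∃ r : ℝ, 0 ≤ r ∧
        Y = r • (D.vel c, D.vel (sh (cs (π / 2)) c)) := by
  obtain ⟨c, hc, e1, e2⟩ := h
  obtain ⟨V, hV, H⟩ := D.link c hc
  refine ⟨V, hV, fun Y => (H Y).trans (exists_congr fun c' => and_congr_right fun _ =>
    and_congr_left fun _ => ?_)⟩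
  rw [Lk, e1, e2, en, Prod.ext_iff]

theorem geob_Ws {y : AM n × AM n} {V : Submodule ℝ (AM n × AM n)} (H : ∀ Y, Y ∈ V ↔
      ∃ c ∈ D.S, D.en c = y ∧ ∃ r : ℝ, 0 ≤ r ∧ Y = r • (D.vel c, D.vel (sh (cs (π / 2)) c))) :
    D.Ws y = V.map (LinearMap.fst ℝ _ _) := by
  refine le_antisymm (Submodule.span_le.2 ?_) ?_
  · rintro _ ⟨c, hc, e1, e2, rfl⟩
    exact ⟨_, (H _).2 ⟨c, hc, Prod.ext e1 e2, 1, zero_le_one, (one_smul _ _).symm⟩, rfl⟩
  · rintro _ ⟨Y, hY, rfl⟩
    obtain ⟨c, hc, e, r, -, rfl⟩ := (H Y).1 hY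
    exact Submodule.smul_mem _ r (Submodule.subset_span
      ⟨c, hc, congrArg Prod.fst e, congrArg Prod.snd e, rfl⟩)

theorem geob_Vs {y : AM n × AM n} {V : Submodule ℝ (AM n × AM n)} (H : ∀ Y, Y ∈ V ↔
      ∃ c ∈ D.S, D.en c = y ∧ ∃ r : ℝ, 0 ≤ r ∧ Y = r • (D.vel c, D.vel (sh (cs (π / 2)) c))) :
    D.Vs y = V.map (WithLp.linearEquiv 2 ℝ (AM n × AM n)).symm.toLinearMap := by
  refine le_antisymm (Submodule.span_le.2 ?_) ?_
  · rintro _ ⟨c, hc, e1, e2, rfl⟩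
    exact ⟨_, (H _).2 ⟨c, hc, Prod.ext e1 e2, 1, zero_le_one, (one_smul _ _).symm⟩, rfl⟩
  · rintro _ ⟨Y, hY, rfl⟩
    obtain ⟨c, hc, e, r, -, rfl⟩ := (H Y).1 hY
    rw [map_smul]
    exact Submodule.smul_mem _ r (Submodule.subset_span
      ⟨c, hc, congrArg Prod.fst e, congrArg Prod.snd e, rfl⟩)

theorem mem_Ws {y : AM n × AM n} (h : y ∈ D.F) {X : AM n} : X ∈ D.Ws y ↔
    ∃ c ∈ D.S, D.en c = y ∧ ∃ r : ℝ, 0 ≤ r ∧ X = r • D.vel c := by
  obtain ⟨V, -, H⟩ := D.geob_link h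
  rw [D.geob_Ws H]
  constructor
  · rintro ⟨Y, hY, rfl⟩
    obtain ⟨c, hc, e, r, hr, rfl⟩ := (H Y).1 hY
    exact ⟨c, hc, e, r, hr, rfl⟩
  · rintro ⟨c, hc, e, r, hr, rfl⟩
    exact ⟨_, (H _).2 ⟨c, hc, e, r, hr, rfl⟩, rfl⟩

theorem mem_Vs {y : AM n × AM n} (h : y ∈ D.F) {X : AA n} : X ∈ D.Vs y ↔
    ∃ c ∈ D.S, D.en c = y ∧ ∃ r : ℝ, 0 ≤ r ∧
      X = r • WithLp.toLp 2 (D.vel c, D.vel (sh (cs (π / 2)) c)) := by
  obtain ⟨V, -, H⟩ := D.geob_link h
  rw [D.geob_Vs H]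
  constructor
  · rintro ⟨Y, hY, rfl⟩
    obtain ⟨c, hc, e, r, hr, rfl⟩ := (H Y).1 hY
    exact ⟨c, hc, e, r, hr, rfl⟩
  · rintro ⟨c, hc, e, r, hr, rfl⟩
    exact ⟨_, (H _).2 ⟨c, hc, e, r, hr, rfl⟩, rfl⟩

theorem WF_eq {y : AM n × AM n} {X : AM n} : D.WF y X = X ↔ X ∈ D.Ws y :=
  Submodule.starProjection_eq_self_iff

theorem VV_eq {y : AM n × AM n} {X : AA n} : D.VV y X = X ↔ X ∈ D.Vs y :=
  Submodule.starProjection_eq_self_iff

theorem geob_rkW {y : AM n × AM n} (h : y ∈ D.F) : Module.finrank ℝ (D.Ws y) = k + 1 := by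
  obtain ⟨V, hV, H⟩ := D.geob_link h
  rw [D.geob_Ws H, ← LinearMap.range_domRestrict, LinearMap.finrank_range_of_inj, hV]
  rw [injective_iff_map_eq_zero]
  rintro ⟨Y, hY⟩ e
  obtain ⟨c, hc, -, r, -, rfl⟩ := (H Y).1 hY
  have e2 : r • D.vel c = 0 := e
  have e3 : r = 0 := (smul_eq_zero.1 e2).resolve_right (D.vne c hc)
  subst e3
  exact Subtype.ext (zero_smul _ _)

theorem geob_rkV {y : AM n × AM n} (h : y ∈ D.F) : Module.finrank ℝ (D.Vs y) = k + 1 := by
  obtain ⟨V, hV, H⟩ := D.geob_link h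
  rw [D.geob_Vs H, LinearEquiv.finrank_map_eq, hV]

theorem geob_cW :
    ContinuousOn (fun z : LM n × ℝ => (D.en z.1, z.2 • D.vel z.1)) (D.S ×ˢ Ici 0) :=
  D.geob_cen.continuousOn.prodMk (continuousOn_snd.smul D.geob_cvel)

theorem geob_tot {z : (AM n × AM n) × AM n} : z ∈ totR D.WF D.F ↔
    ∃ c ∈ D.S, ∃ r : ℝ, 0 ≤ r ∧ z = (D.en c, r • D.vel c) := by
  constructor
  · rintro ⟨h1, h2⟩
    obtain ⟨c, hc, e, r, hr, e2⟩ := (D.mem_Ws h1).1 (D.WF_eq.1 h2)
    exact ⟨c, hc, r, hr, Prod.ext e.symm e2⟩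
  · rintro ⟨c, hc, r, hr, rfl⟩
    exact ⟨D.en_mem hc, D.WF_eq.2 ((D.mem_Ws (D.en_mem hc)).2 ⟨c, hc, rfl, r, hr, rfl⟩)⟩

theorem geob_tot_eq : totR D.WF D.F =
    (fun z : LM n × ℝ => (D.en z.1, z.2 • D.vel z.1)) '' (D.S ×ˢ Ici 0) := by
  ext z
  rw [D.geob_tot]
  exact ⟨fun ⟨c, hc, r, hr, e⟩ => ⟨(c, r), ⟨hc, hr⟩, e.symm⟩,
    fun ⟨y, hy, e⟩ => ⟨y.1, hy.1, y.2, hy.2, e.symm⟩⟩

theorem rb_WF : RB D.WF (k + 1) D.F := by
  obtain ⟨m, M, hm⟩ := D.geob_vel
  refine rb_of_closed D.isCompact_F.isClosed (fun y hy => D.geob_rkW hy) ?_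
  have e : {z : (AM n × AM n) × AM n | z.1 ∈ D.F ∧ z.2 ∈ D.Ws z.1} = totR D.WF D.F :=
    Set.ext fun z => and_congr_right fun _ => D.WF_eq.symm
  rw [e, D.geob_tot_eq]
  exact geob_cone_closed D.cpt D.geob_cW (N := fun z => m * ‖z.2‖) (by fun_prop)
    fun c hc r hr => D.geob_le (hm c hc).1 hr

theorem rb_W : RB D.W (k + 1) (Od n) :=
  ⟨lc_Od', D.rb_WF.cont.comp D.cont_hat D.hat_mem, fun _ e => D.rb_WF.idem _ (D.hat_mem e),
    fun _ e => D.rb_WF.rank _ (D.hat_mem e)⟩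

theorem rb_VV : RB D.VV (k + 1) D.F := by
  obtain ⟨m, M, hm⟩ := D.geob_vel
  refine rb_of_closed D.isCompact_F.isClosed (fun y hy => D.geob_rkV hy) ?_
  have e : {z : (AM n × AM n) × AA n | z.1 ∈ D.F ∧ z.2 ∈ D.Vs z.1} =
      (fun z : LM n × ℝ => (D.en z.1,
        z.2 • WithLp.toLp 2 (D.vel z.1, D.vel (sh (cs (π / 2)) z.1)))) '' (D.S ×ˢ Ici 0) := by
    ext z
    constructor
    · rintro ⟨h1, h2⟩
      obtain ⟨c, hc, e, r, hr, e2⟩ := (D.mem_Vs h1).1 h2
      exact ⟨(c, r), ⟨hc, hr⟩, Prod.ext e e2.symm⟩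
    · rintro ⟨y, hy, rfl⟩
      exact ⟨D.en_mem hy.1, (D.mem_Vs (D.en_mem hy.1)).2 ⟨y.1, hy.1, rfl, y.2, hy.2, rfl⟩⟩
  rw [e]
  have c2 : ContinuousOn (fun z : LM n × ℝ => D.vel (sh (cs (π / 2)) z.1)) (D.S ×ˢ Ici 0) :=
    D.cvel.comp (continuous_sh.comp (continuous_const.prodMk continuous_fst)).continuousOn
      fun z h => D.inv _ _ h.1
  exact geob_cone_closed D.cpt (D.geob_cen.continuousOn.prodMk (continuousOn_snd.smul
    ((WithLp.prod_continuous_toLp 2 _ _).comp_continuousOn (D.geob_cvel.prodMk c2))))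
    (N := fun z => m * ‖z.2.fst‖) (by fun_prop) fun c hc r hr => D.geob_le (hm c hc).1 hr

theorem W_of_mem {y : AM n × AM n} (h : y ∈ D.F) : D.W y = D.WF y := by
  rw [W, D.hat_of_mem h]

theorem Ws_tan {y : AM n × AM n} (h : y ∈ D.F) {X : AM n} (hX : X ∈ D.Ws y) : Tan y.1 X := by
  obtain ⟨c, hc, rfl, r, -, rfl⟩ := (D.mem_Ws h).1 hX
  exact geob_tan_smul (D.tan c hc) r

/-- a nonzero vector of `Ws y` determines `y` -/
theorem en_gc {y : AM n × AM n} (h : y ∈ D.F) {X : AM n} (hX : X ∈ D.Ws y) (h0 : X ≠ 0) :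
    D.en (D.gc (y.1, X)) = y := by
  obtain ⟨c, hc, rfl, r, hr, rfl⟩ := (D.mem_Ws h).1 hX
  have r0 : 0 < r := hr.lt_of_ne fun e => h0 (by rw [← e, zero_smul])
  exact congrArg D.en (D.gc_eq hc r0).1

theorem Ws_disj {y y' : AM n × AM n} (h : y ∈ D.F) (h' : y' ∈ D.F) (e : y.1 = y'.1)
    (ne : y.2 ≠ y'.2) {X : AM n} (hX : X ∈ D.Ws y) (hX' : X ∈ D.Ws y') : X = 0 := by
  by_contra h0
  have k1 := D.en_gc h hX h0
  rw [e, D.en_gc h' hX' h0] at k1
  exact ne (congrArg Prod.snd k1).symm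

theorem Vs_fst {y : AM n × AM n} (h : y ∈ D.F) {X : AA n} (hX : X ∈ D.Vs y) :
    X.fst ∈ D.Ws y ∧ (X.fst = 0 → X = 0) := by
  obtain ⟨c, hc, e, r, hr, rfl⟩ := (D.mem_Vs h).1 hX
  refine ⟨(D.mem_Ws h).2 ⟨c, hc, e, r, hr, rfl⟩, fun k => ?_⟩
  have e2 : r • D.vel c = 0 := k
  rw [(smul_eq_zero.1 e2).resolve_right (D.vne c hc), zero_smul]

theorem Vs_snd {y : AM n × AM n} (h : y ∈ D.F) {X : AA n} (hX : X ∈ D.Vs y) :
    X.snd ∈ D.Ws y.swap ∧ (X.snd = 0 → X = 0) := by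
  obtain ⟨c, hc, rfl, r, hr, rfl⟩ := (D.mem_Vs h).1 hX
  have hc' := D.inv (cs (π / 2)) c hc
  refine ⟨(D.mem_Ws (D.swap_F h)).2 ⟨_, hc', ?_, r, hr, rfl⟩, fun k => ?_⟩
  · rw [en, sh_apply, sh_apply, mul_one, ← cs_add, add_halves, cs_pi]
    rfl
  · have e2 : r • D.vel (sh (cs (π / 2)) c) = 0 := k
    rw [(smul_eq_zero.1 e2).resolve_right (D.vne _ hc'), zero_smul]

theorem Th_eq {c : LM n} (hc : c ∈ D.S) {r : ℝ} (hr : 0 ≤ r) :
    D.Th (D.en c, r • D.vel c) = (c 1, c (cs (π / 2 / (1 + r)))) := by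
  unfold Th
  rcases hr.eq_or_lt with rfl | hr
  · rw [if_pos (zero_smul _ _), add_zero, div_one]
    rfl
  · rw [if_neg (smul_ne_zero hr.ne' (D.vne c hc))]
    show (c 1, D.gc (c 1, r • D.vel c) (cs (π / 2 / (1 + D.gr (c 1, r • D.vel c))))) = _
    rw [(D.gc_eq hc hr).1, (D.gc_eq hc hr).2]

theorem cont_Th : ContinuousOn D.Th (totR D.WF D.F) := by
  obtain ⟨m, M, hm⟩ := D.geob_vel
  have hG : ContinuousOn (fun z : LM n × ℝ => (z.1 1, z.1 (cs (π / 2 / (1 + z.2)))))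
      (D.S ×ˢ Ici 0) := by
    refine ContinuousOn.prodMk (by fun_prop) (continuousOn_fst.eval
      (continuous_cs.comp_continuousOn (continuousOn_const.div (by fun_prop) fun z hz => ?_)))
    have : (0 : ℝ) ≤ z.2 := hz.2
    positivity
  rw [D.geob_tot_eq]
  exact geob_cone_cont D.cpt D.geob_cW (N := fun z => m * ‖z.2‖) (by fun_prop)
    (fun c hc r hr => D.geob_le (hm c hc).1 hr) hG fun c hc r hr => D.Th_eq hc hr

theorem Th_mem : MapsTo D.Th (totR D.WF D.F) (Od n) := by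
  intro z hz
  obtain ⟨c, hc, r, hr, rfl⟩ := D.geob_tot.1 hz
  rw [D.Th_eq hc hr]
  exact ⟨⟨D.mem c hc _, D.mem c hc _⟩, fun k => D.ne c hc _ (geob_t2 hr) (Eq.symm k)⟩

theorem Th_fst (z : (AM n × AM n) × AM n) : (D.Th z).1 = z.1.1 := by
  unfold Th
  split_ifs <;> rfl

theorem Th_F {z : (AM n × AM n) × AM n} (h : z ∈ totR D.WF D.F) : D.Th z ∈ D.F ↔ z.2 = 0 := by
  refine ⟨fun k => by_contra fun h0 => ?_, fun h0 => by rw [Th, if_pos h0]; exact h.1⟩
  obtain ⟨c, hc, r, hr, rfl⟩ := D.geob_tot.1 h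
  have r0 : 0 < r := hr.lt_of_ne fun e => h0 (by rw [← e]; exact zero_smul _ _)
  have t := geob_t3 r0
  have k2 := D.not_cut hc (s := 0) (t := π / 2 / (1 + r))
    (by rw [sub_zero, abs_of_pos t.1]; exact t.2)
  rw [cs_zero] at k2
  rw [D.Th_eq hc hr] at k
  exact k2.2 k

theorem cont_Thi : ContinuousOn D.Thi (Od n) := by
  obtain ⟨m, M, hm⟩ := D.geob_vel
  have cl : ContinuousOn D.lt (Od n) := D.cont_lt.mono sdiff_subset
  have ms : ∀ y ∈ Od n \ D.F, D.lc y ∈ D.S := fun y hy => (D.lc_spec hy.1).1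
  have cc : ContinuousOn D.lc (Od n \ D.F) := D.cont_lc.mono fun y hy => ⟨⟨hy.1.1, hy.2⟩, hy.1.2⟩
  refine D.cont_hat.prodMk (geob_smul_cont D.isCompact_F.isClosed
    ((continuousOn_const.div cl fun y hy => (D.lc_spec hy).2.2.1.1.ne').sub continuousOn_const)
    (D.cvel.comp cc ms) (fun y _ hy => ?_) fun y hy => (hm _ (ms y hy)).2)
  obtain ⟨c, hc, e1, e2⟩ := hy
  have := pi_pos
  have k := D.lt_eq hc (t := π / 2) ⟨by positivity, le_rfl⟩
  rw [e1, e2] at k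
  show π / 2 / D.lt (y.1, y.2) - 1 = 0
  rw [k, div_self (by positivity), sub_self]

theorem geob_Thi {y : AM n × AM n} (h : y ∈ Od n) :
    D.Thi y = (D.en (D.lc y), (π / 2 / D.lt y - 1) • D.vel (D.lc y)) ∧ 0 ≤ π / 2 / D.lt y - 1 := by
  obtain ⟨-, e, t, -⟩ := D.lc_spec h
  refine ⟨?_, sub_nonneg.2 ((one_le_div t.1).2 t.2)⟩
  rw [Thi, hat, en, e]

theorem Thi_mem : MapsTo D.Thi (Od n) (totR D.WF D.F) := fun _ h =>
  D.geob_tot.2 ⟨_, (D.lc_spec h).1, _, (D.geob_Thi h).2, (D.geob_Thi h).1⟩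

theorem Thi_Th {z : (AM n × AM n) × AM n} (h : z ∈ totR D.WF D.F) : D.Thi (D.Th z) = z := by
  obtain ⟨c, hc, r, hr, rfl⟩ := D.geob_tot.1 h
  have t := geob_t2 hr
  have := pi_pos
  have e : π / 2 / (π / 2 / (1 + r)) - 1 = r := by
    field_simp
    ring
  rw [D.Th_eq hc hr, Thi, D.hat_eq hc t, D.lt_eq hc (Ioc_subset_Icc_self t), e]
  rcases hr.eq_or_lt with rfl | r0
  · rw [zero_smul, zero_smul]
  · rw [D.lc_eq hc (geob_t3 r0)]

theorem Th_Thi {y : AM n × AM n} (h : y ∈ Od n) : D.Th (D.Thi y) = y := by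
  obtain ⟨hc, e, t, e2⟩ := D.lc_spec h
  have := pi_pos
  have t1 := t.1
  have e3 : π / 2 / (1 + (π / 2 / D.lt y - 1)) = D.lt y := by
    rw [add_sub_cancel]
    field_simp
  rw [(D.geob_Thi h).1, D.Th_eq hc (D.geob_Thi h).2, e3, e, e2]

end TD0

end Pool.Agent.Work.MP_8c604c_gt.T
end
end

-- merged part: Pool.Agent.Work.MP_8c604c_gt.T.Quo
section
/-!
The quotient of the loop space by rotations, the space `Pq` of unit vectors of the negative bundle
over the space of geodesics, the line bundle `Lq` (owner helper87).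
-/

noncomputable section

set_option linter.unusedSectionVars false

namespace Pool.Agent.Work.MP_8c604c_gt.T

open Set Topology Matrix Pool.Agent.Work.MP_849ab0_ag.G

variable {n : ℕ}

/-- loops up to rotation -/
def LQ (n : ℕ) : Type := Quot fun c c' : LM n => ∃ θ, sh θ c = c'

instance : TopologicalSpace (LQ n) := inferInstanceAs (TopologicalSpace (Quot _))

/-- the class of a loop -/
def qL (c : LM n) : LQ n := Quot.mk _ c

/-- a representative -/
def oL (y : LQ n) : LM n := Quot.out y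

theorem isOrbQ_qL : IsOrbQ (sh (n := n)) qL where
  cont := continuous_sh
  one := sh_one
  mul := sh_mul
  quot := isQuotientMap_quot_mk
  eq_iff a b := by
    refine ⟨fun h => ?_, fun h => Quot.sound h⟩
    have := Quot.eqvGen_exact h
    clear h
    induction this with
    | rel _ _ k => exact k
    | refl x => exact ⟨1, sh_one x⟩
    | symm x y _ k =>
      obtain ⟨θ, rfl⟩ := k
      exact ⟨θ⁻¹, by rw [← sh_mul, inv_mul_cancel, sh_one]⟩
    | trans x y z _ _ k k' =>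
      obtain ⟨θ, rfl⟩ := k
      obtain ⟨η, rfl⟩ := k'
      exact ⟨η * θ, sh_mul _ _ _⟩

instance : T3Space (LQ n) := isOrbQ_qL.t3

instance : SecondCountableTopology (LQ n) := isOrbQ_qL.secondCountable

instance : Nonempty (LQ n) := ⟨qL 0⟩

theorem continuous_qL : Continuous (qL : LM n → _) := isOrbQ_qL.quot.continuous

theorem qL_eq {c c' : LM n} : qL c = qL c' ↔ ∃ θ, sh θ c = c' := isOrbQ_qL.eq_iff _ _

theorem qL_sh (θ : Circle) (c : LM n) : qL (sh θ c) = qL c := isOrbQ_qL.q_s θ c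

theorem qL_oL (y : LQ n) : qL (oL y) = y := Quot.out_eq y

theorem exists_oL (c : LM n) : ∃ θ, oL (qL c) = sh θ c :=
  (qL_eq.1 (qL_oL (qL c)).symm).imp fun _ h => h.symm

/-- the quotient map on pairs -/
def qP {A : Type} (x : LM n × A) : LQ n × A := Prod.map qL id x

theorem continuous_qP {A : Type} [TopologicalSpace A] : Continuous (qP : LM n × A → _) :=
  continuous_qL.prodMap continuous_id

namespace TD

variable (D : TD n)

/-- unparametrised geodesics -/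
def Cq : Set (LQ n) := qL '' D.S

/-- the negative bundle on `Cq` -/
def Kq (y : LQ n) : RN D.N →L[ℝ] RN D.N := D.K (oL y)

/-- an orientation of `Kq` -/
def oq : LQ n → RN D.N [⋀^Fin 3]→L[ℝ] ℝ := Classical.epsilon (Ori D.Kq 3 D.Cq)

/-- unit vectors over `S` -/
def Pt : Set (LM n × RN D.N) := sph D.K D.S

/-- unit vectors over `Cq` -/
def Pq : Set (LQ n × RN D.N) := sph D.Kq D.Cq

/-- the normalised equivariant map -/
def Φ1 (c : LM n) : Fin (4 * n) → ℂ := ‖D.Φ c‖⁻¹ • D.Φ c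

/-- the line bundle of the circle action -/
def Lq (y : LQ n × RN D.N) : Matrix (Fin (4 * n)) (Fin (4 * n)) ℂ := lin (D.Φ (oL y.1))

/-- its Euler class -/
def ee : H D.Pq univ := eu D.Lq 1 D.Pq

theorem Pt_eq : D.Pt = unitK D.S D.K := rfl

theorem cq_qL : CQ qL D.S D.Cq := .of_compact D.cpt continuous_qL.continuousOn rfl

theorem isCompact_Cq : IsCompact D.Cq := D.cpt.image continuous_qL

variable {D} {c : LM n} {x : LM n × RN D.N}

theorem oL_mem {y : LQ n} (hy : y ∈ D.Cq) : oL y ∈ D.S := by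
  obtain ⟨c, hc, rfl⟩ := hy
  obtain ⟨θ, e⟩ := exists_oL c
  exact e ▸ D.inv θ c hc

theorem Kq_qL (hc : c ∈ D.S) : D.Kq (qL c) = D.K c := by
  obtain ⟨θ, e⟩ := exists_oL c
  rw [Kq, e, D.invK θ c hc]

theorem sh_mem (θ : Circle) (hx : x ∈ D.Pt) : (sh θ x.1, x.2) ∈ D.Pt :=
  ⟨D.inv θ _ hx.1, by rw [D.invK θ _ hx.1]; exact hx.2.1, hx.2.2⟩

theorem qP_mem (hx : x ∈ D.Pt) : qP x ∈ D.Pq :=
  ⟨⟨_, hx.1, rfl⟩, by
    change D.Kq (qL x.1) x.2 = x.2
    rw [Kq_qL hx.1]; exact hx.2.1, hx.2.2⟩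

theorem oL_memP {y : LQ n × RN D.N} (hy : y ∈ D.Pq) : (oL y.1, y.2) ∈ D.Pt :=
  ⟨oL_mem hy.1, hy.2⟩

theorem norm_Φ_sh (θ : Circle) (hc : c ∈ D.S) : ‖D.Φ (sh θ c)‖ = ‖D.Φ c‖ := by
  rw [D.eqΦ θ c hc, norm_smul, Circle.norm_coe, one_mul]

theorem Φ1_sh (θ : Circle) (hc : c ∈ D.S) : D.Φ1 (sh θ c) = (θ : ℂ) • D.Φ1 c := by
  rw [Φ1, norm_Φ_sh θ hc, D.eqΦ θ c hc, Φ1, smul_comm]

theorem norm_Φ1 (hc : c ∈ D.S) : ‖D.Φ1 c‖ = 1 := by
  rw [Φ1, norm_smul, norm_inv, norm_norm, inv_mul_cancel₀ (norm_ne_zero_iff.2 (D.neΦ c hc))]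

theorem Lq_qP (hx : x.1 ∈ D.S) : D.Lq (qP x) = lin (D.Φ x.1) := by
  obtain ⟨θ, e⟩ := exists_oL x.1
  change lin (D.Φ (oL (qL x.1))) = _
  rw [e, D.eqΦ θ _ hx, sph_lin_smul _ (Circle.coe_ne_zero θ)]

variable (D)

theorem cont_Φ1 : ContinuousOn D.Φ1 D.S :=
  (D.cΦ.norm.inv₀ fun c hc => norm_ne_zero_iff.2 (D.neΦ c hc)).smul D.cΦ

theorem Pq_eq : qP '' D.Pt = D.Pq :=
  Set.ext fun y => ⟨fun ⟨_, hx, e⟩ => e ▸ qP_mem hx, fun hy =>
    ⟨_, oL_memP hy, Prod.ext (qL_oL _) rfl⟩⟩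

theorem rb_Kq : RB D.Kq 3 D.Cq where
  lc := D.isCompact_Cq.isClosed.isLocallyClosed
  cont := D.cq_qL.contOn' subset_rfl (D.cK.mono inter_subset_left) fun _ hc _ => Kq_qL hc
  idem := fun _ hy => D.idK _ (oL_mem hy)
  rank := fun _ hy => D.rkK _ (oL_mem hy)

theorem sgnTriv_Cq (hn : 1 ≤ n) : SgnTriv D.Cq := by
  have : CompactSpace D.S := isCompact_iff_compactSpace.1 D.cpt
  have hc : Continuous (D.cq_qL.maps.restrict qL D.S D.Cq) :=
    D.cq_qL.cont.mapsToRestrict _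
  refine .of_subtype ((D.toTD0.sgnTriv_S hn).to_subtype.desc (hc.isClosedMap.isQuotientMap hc ?_) ?_)
  · rintro ⟨_, c, h, rfl⟩
    exact ⟨⟨c, h⟩, rfl⟩
  · rintro ⟨_, c, h, rfl⟩
    rw [← IsInducing.subtypeVal.isPreconnected_image]
    convert isPreconnected_range
      (continuous_sh.comp (continuous_id.prodMk (continuous_const (y := c)))) using 1
    ext c'
    refine ⟨?_, ?_⟩
    · rintro ⟨⟨c', h'⟩, e, rfl⟩
      exact qL_eq.1 (congrArg Subtype.val e).symm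
    · rintro ⟨θ, rfl⟩
      exact ⟨⟨_, D.inv θ c h⟩, Subtype.ext (qL_sh θ c), rfl⟩

theorem sb_q (hn : 1 ≤ n) : SB D.Kq D.oq D.Cq :=
  ⟨D.rb_Kq, fun _ hy => D.syK _ (oL_mem hy),
    Classical.epsilon_spec (D.rb_Kq.exists_ori (D.sgnTriv_Cq hn))⟩

theorem sb_t (hn : 1 ≤ n) : SB D.K (D.oq ∘ qL) D.S :=
  (D.sb_q hn).comp D.cpt.isClosed.isLocallyClosed continuous_qL.continuousOn D.cq_qL.maps
    fun _ hc => (Kq_qL hc).symm

theorem isCompact_Pt : IsCompact D.Pt := by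
  have : D.Pt = D.S ×ˢ Metric.sphere 0 1 ∩ (fun y => D.K y.1 y.2 - y.2) ⁻¹' {0} := by
    ext y; simp [Pt, sph, sub_eq_zero]; tauto
  have k := D.cpt.prod (isCompact_sphere (0 : RN D.N) 1)
  rw [this]
  exact k.of_isClosed_subset (ContinuousOn.preimage_isClosed_of_isClosed
    (((D.cK.comp continuousOn_fst fun _ h => h.1).clm_apply continuousOn_snd).sub continuousOn_snd)
    k.isClosed isClosed_singleton) inter_subset_left

theorem isCompact_Pq : IsCompact D.Pq := D.Pq_eq ▸ D.isCompact_Pt.image continuous_qP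

theorem lc_Pt : IsLocallyClosed D.Pt := D.isCompact_Pt.isClosed.isLocallyClosed

theorem lc_Pq : IsLocallyClosed D.Pq := D.isCompact_Pq.isClosed.isLocallyClosed

theorem cq_qP : CQ qP D.Pt D.Pq := .of_compact D.isCompact_Pt continuous_qP.continuousOn D.Pq_eq

theorem ok_qP : Ok qP D.Pt univ D.Pq univ :=
  .of_mem (.of_continuous continuous_qP _) D.cq_qP.maps fun _ _ _ => trivial

theorem cb_Lq : CB D.Lq 1 D.Pq where
  lc := D.lc_Pq
  cont := D.cq_qP.contOn' subset_rfl (sph_lin_cont (D.cΦ.comp continuousOn_fst fun _ h => h.1.1)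
    fun _ h => D.neΦ _ h.1.1) fun _ hx _ => Lq_qP hx.1
  idem := fun _ hy => sph_lin_idem (D.neΦ _ (oL_mem hy.1))
  rank := fun _ hy => sph_lin_rank (D.neΦ _ (oL_mem hy.1))

theorem isDeg_ee : IsDeg 2 D.ee := D.cb_Lq.isDeg_eu

end TD

end Pool.Agent.Work.MP_8c604c_gt.T
end
end
end

-- merged part: Pool.Agent.Work.MP_8c604c_gt.OG.ZG
section
-- merged part: Pool.Agent.Work.MP_8c604c_gt.T.Tube
section
/-! The Thom class of the set `F` of pairs of cut points in `Od n`, and the retraction of `Nb`. -/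

noncomputable section

set_option linter.unusedSectionVars false

namespace Pool.Agent.Work.MP_8c604c_gt.T

open Set Topology Filter Pool.Agent.Work.MP_849ab0_ag.G

section Gen

variable {X X' Y : Type} [TopologicalSpace X] [TopologicalSpace X'] [TopologicalSpace Y]
  {π : X → Y} {E Z : Set X} {U : Set Y} {τ : H E Z} {d : ℤ} {e : H U univ}

theorem GysD.homeo (h : GysD π E Z U τ d e) {f : X' → X} {g : X → X'} {E' Z' : Set X'}
    (hf : Ok f E' Z' E Z) (hg : Ok g E Z E' Z') (e1 : ∀ x ∈ E', g (f x) = x)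
    (e2 : ∀ x ∈ E, f (g x) = x) {π' : X' → Y} (e3 : ∀ x ∈ E', π (f x) = π' x) :
    GysD π' E' Z' U (pull f E' Z' τ) d e := by
  have p : ∀ a : H U univ, pull f E' univ (pull π E univ a) = pull π' E' univ a :=
    pull_pull' (Ok.top hf) h.ok e3
  refine ⟨((h.ok.comp (Ok.top hf))).congr e3, h.deg.pull _ _ _, ?_, ?_, ?_⟩
  · convert (pull_bij_of_inv hf hg e1 e2).comp h.thom using 1
    funext a
    rw [Function.comp_apply, pull_cm hf, p]
  · convert (pull_bij_of_inv (Ok.top hf) (Ok.top hg) e1 e2).comp h.base using 1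
    funext a
    rw [Function.comp_apply, p]
  · rw [← p, h.eul, pull_res (Ok.top hf) subset_rfl fun _ _ _ => trivial,
      T.res_pull hf subset_rfl fun _ _ _ => mem_univ _]

theorem GysD.smul (h : GysD π E Z U τ d e) {c : ℂ} (hc : c ≠ 0) :
    GysD π E Z U (c • τ) d (c • e) :=
  ⟨h.ok, h.deg.smul c, by
    convert (MulAction.bijective (Units.mk0 _ hc)).comp h.thom using 1
    funext a
    rw [map_smul]; rfl, h.base, by rw [map_smul, map_smul, h.eul]⟩

theorem GysD.ne_zero (h : GysD π E Z U τ d e) (hU : U.Nonempty) : τ ≠ 0 := fun k => by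
  obtain ⟨x, hx⟩ := hU
  have := h.thom.1 (a₁ := cls _ _ onec) (a₂ := 0) (by simp [k])
  simpa [ev_one hx (subset_univ _)] using congrArg (ev x) this

/-- every class with support in `Z` comes from the base, with a shift of the degree -/
theorem GysD.exists_thom (h : GysD π E Z U τ d e) {p : ℤ} {c : H E Z} (hc : IsDeg (p + d) c) :
    ∃ a : H U univ, IsDeg p a ∧ c = cup E Z (pull π E univ a) τ := by
  obtain ⟨a, rfl⟩ := h.thom.2 c
  refine ⟨a, isDeg_iff.2 (h.thom.1 ?_), rfl⟩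
  change cup E Z (pull π E univ (prj {p} _)) τ = cup E Z (pull π E univ _) τ
  rw [pull_prj, cup_prj_left (t := {p + d}) (by simp) _ h.deg, isDeg_iff.1 hc]

theorem deg0_const (hU : IsPreconnected U) {a : H U univ} (ha : IsDeg 0 a) :
    ∃ c : ℂ, a = c • 1 := by
  rcases U.eq_empty_or_nonempty with rfl | ⟨x, hx⟩
  · exact ⟨0, (subsingleton_H (by simp)).elim _ _⟩
  refine ⟨ev x a, sub_eq_zero.1 ((ha.sub (isDeg_oneH.smul _)).eq_zero_of_ev fun y hy => ?_)⟩
  have c : ContinuousOn (fun y => (if ev y a = ev x a then 1 else 0 : SignType)) U := fun z hz =>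
    tendsto_const_nhds.congr' ((ev_eventually a hz).mono fun w k => by simp only [k])
  have := hU.constant c hx hy
  rw [map_sub, map_smul, oneH, ev_one hy (subset_univ _), smul_eq_mul, mul_one, sub_eq_zero]
  by_contra k
  simp [k] at this

theorem fgt_inj (h : Function.Surjective (pull id (E \ Z) univ : H E univ → _)) :
    Function.Injective (pull id E univ : H E Z → _) :=
  (injective_iff_map_eq_zero _).2 fun c k => by
    obtain ⟨b, rfl⟩ := (exact_dlt_supp rfl GysD.aux c).1 k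
    obtain ⟨a, rfl⟩ := h b
    exact (exact_res_dlt rfl GysD.aux _).2 ⟨a, rfl⟩

theorem exists_lift_deg {p : ℤ} {a : H E univ} (ha : IsDeg p a) (h : pull id (E \ Z) univ a = 0) :
    ∃ c : H E Z, IsDeg p c ∧ pull id E univ c = a := by
  obtain ⟨c, rfl⟩ := (exact_supp_res rfl GysD.aux a).1 h
  exact ⟨_, isDeg_prj p c, by rw [pull_prj, isDeg_iff.1 ha]⟩

theorem acy_res_surj (h : Acy (E \ Z)) :
    Function.Surjective (pull id (E \ Z) univ : H E univ → _) := fun b => by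
  obtain ⟨t, rfl⟩ := h.2 b
  exact ⟨t • 1, by rw [map_smul, pull_oneH (ok_fgt sdiff_subset)]; rfl⟩

theorem acy_deg (h : Acy E) {p : ℤ} (hp : p ≠ 0) {a : H E univ} (ha : IsDeg p a) : a = 0 := by
  obtain ⟨t, rfl⟩ := h.2 a
  exact ha.eq_zero_of_ne (isDeg_one.smul t) hp

end Gen

variable {n k : ℕ}

theorem Od_eq : Od n = OH n := Set.ext fun _ => and_assoc

theorem Od_sub : Od n ⊆ MM n := sdiff_subset

namespace TD0

variable (D : TD0 n k)

theorem isClosed_F : IsClosed D.F := D.isCompact_F.isClosed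

theorem lc_F : IsLocallyClosed D.F := D.isClosed_F.isLocallyClosed

theorem F_eq : D.F = D.en '' D.S :=
  Set.ext fun _ => ⟨fun ⟨c, h, a, b⟩ => ⟨c, h, Prod.ext a b⟩, fun ⟨_, h, e⟩ => e ▸ D.en_mem h⟩

theorem continuous_j0 : Continuous D.j0 :=
  (continuous_eval_const _).prodMk (continuous_eval_const _)

theorem isConnected_F (hn : 1 ≤ n) : IsConnected D.F :=
  D.F_eq ▸ (D.isPathConnected_S hn).isConnected.image _ D.continuous_en.continuousOn

theorem sgnTriv_F (hn : 1 ≤ n) : SgnTriv D.F :=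
  SgnTriv.retract (Od_eq ▸ sgnTriv_OH hn) D.cont_hat D.hat_mem continuousOn_id D.F_sub
    fun _ => D.hat_of_mem

/-- an orientation of `WF` -/
def oF : AM n × AM n → AM n [⋀^Fin (k + 1)]→L[ℝ] ℝ := Classical.epsilon (Ori D.WF (k + 1) D.F)

theorem ori_F (hn : 1 ≤ n) : Ori D.WF (k + 1) D.F D.oF :=
  Classical.epsilon_spec (D.rb_WF.exists_ori (D.sgnTriv_F hn))

theorem ok_Th : Ok D.Th (totR D.WF D.F) (zs _ _) (Od n) D.F :=
  ok_of D.rb_WF.lc_tot D.cont_Th D.Th_mem fun _ h => (D.Th_F h).1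

theorem ok_Thi : Ok D.Thi (Od n) D.F (totR D.WF D.F) (zs _ _) :=
  ok_of lc_Od' D.cont_Thi D.Thi_mem fun _ h e =>
    D.Th_Thi h ▸ (D.Th_F (D.Thi_mem h)).2 e

theorem hat_Th {z : (AM n × AM n) × AM n} (h : z ∈ totR D.WF D.F) : D.hat (D.Th z) = z.1 :=
  congrArg Prod.fst (D.Thi_Th h)

theorem Th_zero (y : AM n × AM n) : D.Th (y, 0) = y := if_pos rfl

theorem ok_hat : Ok D.hat (Od n) univ D.F univ := ok_top lc_Od' D.cont_hat D.hat_mem

/-- the Thom class of `F` in `Od n` -/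
def thO : H (Od n) D.F := pull D.Thi (Od n) D.F (thR D.WF (k + 1) D.F D.oF)

theorem pull_Th_thO :
    pull D.Th (totR D.WF D.F) (zs _ _) D.thO = thR D.WF (k + 1) D.F D.oF := by
  rw [thO, pull_pull' (F := id) D.ok_Th D.ok_Thi fun _ => D.Thi_Th, pull_id]

theorem isDeg_thO (hn : 1 ≤ n) : IsDeg (k + 1) D.thO :=
  (thR_spec D.rb_WF (D.ori_F hn)).1.pull _ _ _

theorem res_thO : pull id D.F univ D.thO = euR D.WF (k + 1) D.oF D.F := by
  rw [thO, res_pull D.ok_Thi D.F_sub fun _ _ _ => mem_univ _]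
  refine congrArg (fun f : _ →ₗ[ℂ] _ => f _) (pull_congr fun y hy => ?_)
  have := D.Thi_Th (z := (y, 0)) ⟨hy, map_zero _⟩
  rwa [D.Th_zero] at this

/-- The part `U` of the tube over `B ⊆ F`. -/
theorem gysD_tube (hn : 1 ≤ n) {B U : Set (AM n × AM n)} (hB : IsLocallyClosed B) (hBF : B ⊆ D.F)
    (hU : ∀ y, y ∈ U ↔ y ∈ Od n ∧ D.hat y ∈ B) :
    GysD D.hat U D.F B (pull id U D.F D.thO) (k + 1) (pull id B univ D.thO) := by
  have sU : U ⊆ Od n := fun y h => ((hU y).1 h).1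
  have sT : totR D.WF B ⊆ totR D.WF D.F := fun _ h => ⟨hBF h.1, h.2⟩
  have sp := thR_spec D.rb_WF (D.ori_F hn)
  have b : BMap D.WF B D.WF D.F id fun _ => ContinuousLinearMap.id ℝ _ :=
    ⟨continuousOn_id, hBF, continuousOn_const, fun _ _ _ h => h, fun _ _ _ _ h => h⟩
  have o1 : Ok D.Thi U D.F (totR D.WF B) (zs _ _) := .of_mem (D.ok_Thi.ext.mono sU)
    (fun y h => ⟨((hU y).1 h).2, (D.Thi_mem (sU h)).2⟩) fun y h => D.ok_Thi.mem (sU h)
  have o2 : Ok D.Th (totR D.WF B) (zs _ _) U D.F := .of_mem (D.ok_Th.ext.mono sT)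
    (fun z h => (hU _).2 ⟨D.Th_mem (sT h), D.hat_Th (sT h) ▸ h.1⟩) fun z h => D.ok_Th.mem (sT h)
  have := (((sp.fibNe (D.ori_F hn)).pull b hB).gysD (D.rb_WF.mono hB hBF) (sp.1.pull _ _ _)).homeo
    o1 o2 (fun y h => D.Th_Thi (sU h)) (fun z h => D.Thi_Th (sT h)) (π' := D.hat) fun _ _ => rfl
  convert this using 1
  · rw [thO, res_pull D.ok_Thi sU fun _ _ h => h, pull_pull' (F := D.Thi) o1 (b.ok hB)
      fun _ _ => rfl]
  · push_cast; rfl
  · rw [thO, res_pull D.ok_Thi (hBF.trans D.F_sub) fun _ _ _ => mem_univ _,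
      pull_pull' (F := fun y => (y, (0 : AM n))) (ok_secR (s := fun _ => 0) hB continuousOn_const
        (fun _ _ => map_zero _) fun _ _ _ => mem_univ _) (b.ok hB) fun _ _ => rfl]
    refine congrArg (fun f : _ →ₗ[ℂ] _ => f _) (pull_congr fun y hy => ?_)
    have := D.Thi_Th (z := (y, 0)) ⟨hBF hy, map_zero _⟩
    rwa [D.Th_zero] at this

theorem gysD_Od (hn : 1 ≤ n) :
    GysD D.hat (Od n) D.F D.F D.thO (k + 1) (pull id D.F univ D.thO) := by
  have := D.gysD_tube hn D.lc_F subset_rfl (U := Od n) fun y => ⟨fun h => ⟨h, D.hat_mem h⟩, And.left⟩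
  rwa [pull_id] at this

theorem res_hat (a : H D.F univ) : pull id D.F univ (pull D.hat (Od n) univ a) = a := by
  rw [pull_pull' (F := id) (ok_fgt D.F_sub) D.ok_hat fun _ => D.hat_of_mem, pull_id]

theorem hat_bij : Function.Bijective (pull D.hat (Od n) univ : H D.F univ → _) := by
  convert (pull_bij_of_inv (Ok.top D.ok_Thi) (Ok.top D.ok_Th) (fun _ => D.Th_Thi)
    fun _ => D.Thi_Th).comp pull_fstR_bij using 1
  exact funext fun a => (pull_pull' (Ok.top D.ok_Thi) ok_fstR (fun _ _ => rfl) a).symm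

theorem hat_res (a : H (Od n) univ) : pull D.hat (Od n) univ (pull id D.F univ a) = a := by
  obtain ⟨b, rfl⟩ := D.hat_bij.2 a
  rw [D.res_hat]

theorem res_F_bij : Function.Bijective (pull id D.F univ : H (Od n) univ → _) :=
  Function.bijective_iff_has_inverse.2 ⟨pull D.hat (Od n) univ, D.hat_res, D.res_hat⟩

theorem pull_hat (a : H (Od n) univ) : pull D.hat (Od n) univ a = a := by
  rw [← pull_res D.ok_hat D.F_sub fun _ _ h => h, D.hat_res]

theorem hat_pull (a : H (MM n) univ) :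
    pull D.hat (Od n) univ (pull id D.F univ a) = pull id (Od n) univ a := by
  rw [← D.hat_res (pull id (Od n) univ a), res_pull (ok_fgt Od_sub) D.F_sub fun _ _ h => h]

/-- excision of the diagonal -/
theorem exc_Dg (E : Set (AM n × AM n)) :
    Function.Bijective (pull id (E \ Dg n) D.F : H E D.F → _) :=
  res_excision_open isClosed_Dg'.isOpen_compl (.of_isClosed D.isClosed_F _)
    fun _ _ h => (D.F_sub h).2

/-- a slice of the tube -/
theorem ok_slice {y : AM n × AM n} (hy : y ∈ D.F) {B : Type} [NormedAddCommGroup B]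
    [NormedSpace ℝ B] [FiniteDimensional ℝ B] {T : B →ₗ[ℝ] AM n} (hT : Function.Injective T)
    (m : ∀ v, T v ∈ D.Ws y) : Ok (fun v => D.Th (y, T v)) univ {0} (Od n) D.F :=
  D.ok_Th.comp (ok_fibR hy hT fun v => D.WF_eq.2 (m v))

theorem thO_slice (hn : 1 ≤ n) {y : AM n × AM n} (hy : y ∈ D.F) {B : Type} [NormedAddCommGroup B]
    [NormedSpace ℝ B] [FiniteDimensional ℝ B] (hB : Module.finrank ℝ B = k + 1)
    {T : B →ₗ[ℝ] AM n} (hT : Function.Injective T) (m : ∀ v, T v ∈ D.Ws y) :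
    pull (fun v => D.Th (y, T v)) univ {0} D.thO ≠ 0 := fun h => by
  let e := (Module.finBasisOfFinrankEq ℝ B hB).equivFun.symm
  have i : Function.Injective (T ∘ₗ e.toLinearMap) := hT.comp e.injective
  have m' : ∀ v, D.WF y ((T ∘ₗ e.toLinearMap) v) = _ := fun v => D.WF_eq.2 (m _)
  refine (thR_spec D.rb_WF (D.ori_F hn)).fibNe (D.ori_F hn) y hy _ i m' ?_
  rw [← D.pull_Th_thO, pull_pull (ok_fibR hy i m') D.ok_Th,
    ← pull_pull' (F := D.Th ∘ fun v => (y, (T ∘ₗ e.toLinearMap) v)) (ok_lin (T := e.toLinearMap)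
      e.injective) (D.ok_slice hy hT m) fun _ _ => rfl, h, map_zero]

/-- `Nb` retracts onto the diagonal. -/
theorem Nb_htpy {A : Set (AM n)} {U : Set (AM n × AM n)} (hU : IsLocallyClosed U)
    (h : ∀ y, y ∈ U ↔ y ∈ D.Nb ∧ y.1 ∈ A) (a : H U univ) :
    pull (fun y => (y.1, y.1)) U univ a = a := by
  have sU : U ⊆ D.Nb := fun y e => ((h y).1 e).1
  have mT : ∀ y ∈ U, ∀ t : ℝ, (y.1, t • (D.Gi y).2) ∈ Tt n := fun y e t => by
    have := D.Gi_mem (sU e)
    rw [Tt_eq] at this ⊢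
    exact ⟨this.1, by
      change tanP (D.Gi y).1 _ = _
      rw [map_smul, this.2]⟩
  rw [pull_htpy' (g := id) (Z := univ) (U' := U) (Z' := univ)
    (F := fun z => D.G (z.1.1, z.2 • (D.Gi z.1).2)) (ext_htpy hU (D.cont_G.comp
      (continuousOn_fst.fst.prodMk (continuousOn_snd.smul
        (D.cont_Gi.comp continuousOn_fst fun _ e => sU e.1).snd)) fun z e => mT _ e.1 _))
    (fun y e t _ => (h _).2 ⟨D.G_mem (mT y e t), by rw [D.G_fst]; exact ((h y).1 e).2⟩)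
    (fun _ _ _ _ _ => trivial) (fun y _ => by simp [G])
    (fun y e => by rw [one_smul]; exact D.G_Gi (sU e)), pull_id]

theorem ok_fst_Nb : Ok Prod.fst D.Nb univ (MH n) univ :=
  .of_mem (.of_continuous continuous_fst _) (fun _ h => h.1.1) fun _ _ _ => trivial

theorem ok_snd_Nb : Ok Prod.snd D.Nb univ (MH n) univ :=
  .of_mem (.of_continuous continuous_snd _) (fun _ h => h.1.2) fun _ _ _ => trivial

theorem ok_diag_Nb : Ok (fun p => (p, p)) (MH n) univ D.Nb univ :=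
  .of_mem (.of_continuous (by fun_prop) _) (fun _ h => D.Dg_sub ⟨h, h⟩ rfl) fun _ _ _ => trivial

theorem fst_diag_Nb (a : H D.Nb univ) :
    pull Prod.fst D.Nb univ (pull (fun p => (p, p)) (MH n) univ a) = a := by
  rw [pull_pull D.ok_fst_Nb D.ok_diag_Nb]
  exact D.Nb_htpy (A := univ) D.lc_Nb (by simp) a

theorem Nb_fst_bij : Function.Bijective (pull Prod.fst D.Nb univ : H (MH n) univ → _) :=
  Function.bijective_iff_has_inverse.2 ⟨pull (fun p => (p, p)) (MH n) univ, fun a => by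
    rw [pull_pull' (F := id) D.ok_diag_Nb D.ok_fst_Nb fun _ _ => rfl, pull_id], D.fst_diag_Nb⟩

theorem Nb_fst_snd (a : H (MH n) univ) :
    pull Prod.fst D.Nb univ a = pull Prod.snd D.Nb univ a := by
  rw [← D.fst_diag_Nb (pull Prod.snd D.Nb univ a),
    pull_pull' (F := id) D.ok_diag_Nb D.ok_snd_Nb fun _ _ => rfl, pull_id]

/-- the points that are not cut points of `p` -/
theorem acy_slice {p : AM n} (hp : p ∈ MH n) : Acy (({p} ×ˢ MH n) \ D.F) := by
  have m : (p, p) ∈ ({p} ×ˢ MH n) \ D.F := ⟨⟨rfl, hp⟩, (D.Dg_sub ⟨hp, hp⟩ rfl).2⟩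
  have o1 : Ok (fun _ => (p, p)) (({p} ×ˢ MH n) \ D.F) univ {(p, p)} univ :=
    .of_mem (.of_continuous continuous_const _) (fun _ _ => rfl) fun _ _ _ => trivial
  refine (acy_singleton _).of_surj ⟨_, m⟩ o1 fun a => ⟨pull id _ univ a, ?_⟩
  rw [pull_res o1 (singleton_subset_iff.2 m) fun _ _ h => h, pull_congr
    (g := fun y => (y.1, y.1)) fun y h => by simp only [show y.1 = p from h.1.1]]
  exact D.Nb_htpy (A := {p}) ((isClosed_singleton.prod isCompact_MH.isClosed).isLocallyClosed.inter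
    D.isClosed_F.isOpen_compl.isLocallyClosed) (fun y => ⟨fun h => ⟨⟨⟨h.1.1 ▸ hp, h.1.2⟩, h.2⟩,
      h.1.1⟩, fun h => ⟨⟨h.2, h.1.1.2⟩, h.1.2⟩⟩) a

/-- forgetting the support is injective -/
theorem F_fgt_inj : Function.Injective (pull id (MM n) univ : H (MM n) D.F → _) :=
  fgt_inj fun b => by
    obtain ⟨a, rfl⟩ := D.Nb_fst_bij.2 b
    exact ⟨pull Prod.fst (MM n) univ a, res_pull (.of_mem (.of_continuous continuous_fst _)
      (fun _ h => h.1) fun _ _ _ => trivial) sdiff_subset (fun _ _ h => h) a⟩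

end TD0

end Pool.Agent.Work.MP_8c604c_gt.T
end
end

-- merged part: Pool.Agent.Work.MP_8c604c_gt.T.S2
section
/-!
The cohomology of the two-sphere (owner helper87).

PLAN.  `S2 ∩ {0 < p.2}` is homeomorphic to the unit disc by `p ↦ p.1` (inverse
`v ↦ (v 0, √(1 - ‖v 0‖ ^ 2))`), so by `res_excision_open`, `pull_bij_of_inv` the group `H S2 {nP}` is
`H univ {0}` of `Fin 1 → ℂ`, which is spanned by `orient (Fin 1) ≠ 0` (`fib_orient`, `Fib.gen` of
`T/GThom`).  `S2 \ {nP}` is acyclic (`Acy`): contract to `-nP` along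
`p ↦ normalise ((1 - s) • p - s • nP)` (`pull_htpy'`, `acy_singleton`, or `res_bij_of_retract`).
Long exact sequence `exact_supp_res`, `exact_dlt_supp` (`Z₁ = {nP}`, `Z = univ`): a class restricts to
`t • 1` on `S2 \ {nP}`, so it is `t • 1 + s • xS`; `xS = 0` would give `gN = dlt y` with `y = t • 1`
the restriction of a class of `S2`, so `gN = 0`.  Independence by degrees (`1 ≠ 0` by `ev_one`).
`xS_south`: the rotation `ρ p = (conj p.1, -p.2)` is homotopic to the identity of `S2` through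
`(re + i (cos t im - sin t α), sin t im + cos t α)`, `t ∈ [0, π]`, and `g = pull ρ gN` by excision.
-/

noncomputable section

set_option linter.unusedSectionVars false

namespace Pool.Agent.Work.MP_8c604c_gt.T

open Set Topology Matrix Pool.Agent.Work.MP_849ab0_ag.G

/-- the north pole -/
def nP : ℂ × ℝ := (0, 1)

/-- the local orientation class at the north pole -/
def IsLoc (g : H S2 {nP}) : Prop :=
  pull id (S2 ∩ {p | 0 < p.2}) {nP} g =
    pull (fun p (_ : Fin 1) => p.1) (S2 ∩ {p | 0 < p.2}) {nP} (orient (Fin 1))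

/-- the local orientation class at the north pole -/
def gN : H S2 {nP} := Classical.epsilon IsLoc

/-- the generator of `H ^ 2 (S ^ 2)` -/
def xS : H S2 univ := pull id S2 univ gN

theorem s2_mem {p : ℂ × ℝ} : p ∈ S2 ↔ ‖p.1‖ ^ 2 + p.2 ^ 2 = 1 := Iff.rfl

theorem s2_mem' {p : ℂ × ℝ} : p ∈ S2 ↔ p.1.re ^ 2 + p.1.im ^ 2 + p.2 ^ 2 = 1 := by
  rw [s2_mem, Complex.sq_norm, Complex.normSq_apply, sq p.1.re, sq p.1.im]

theorem s2_closed : IsClosed S2 := isClosed_eq (by fun_prop) continuous_const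

theorem isCompact_S2 : IsCompact S2 := by
  refine Metric.isCompact_of_isClosed_isBounded s2_closed ?_
  refine (Metric.isBounded_closedBall (x := (0 : ℂ × ℝ)) (r := 1)).subset fun p hp => ?_
  rw [s2_mem] at hp
  rw [mem_closedBall_zero_iff, Prod.norm_def, max_le_iff, Real.norm_eq_abs]
  exact ⟨by nlinarith [norm_nonneg p.1, sq_nonneg p.2],
    abs_le.2 ⟨by nlinarith [sq_nonneg ‖p.1‖], by nlinarith [sq_nonneg ‖p.1‖]⟩⟩

theorem s2_res_bij : Function.Bijective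
    (pull id (S2 ∩ {p | 0 < p.2}) {nP} : H S2 {nP} → H (S2 ∩ {p | 0 < p.2}) {nP}) :=
  res_excision_open (isOpen_lt continuous_const continuous_snd)
    (Cl.of_isClosed isClosed_singleton _) fun x _ hx => by
      rw [mem_singleton_iff.1 hx]; simp [nP]

theorem s2_res_bij' : Function.Bijective
    (pull id (S2 ∩ {p | p.2 < 0}) {-nP} : H S2 {-nP} → H (S2 ∩ {p | p.2 < 0}) {-nP}) :=
  res_excision_open (isOpen_lt continuous_snd continuous_const)
    (Cl.of_isClosed isClosed_singleton _) fun x _ hx => by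
      rw [mem_singleton_iff.1 hx]; simp [nP]

theorem s2_up {p : ℂ × ℝ} (hp : p ∈ S2 ∩ {p | 0 < p.2}) : √(1 - ‖p.1‖ ^ 2) = p.2 := by
  have h : 1 - ‖p.1‖ ^ 2 = p.2 ^ 2 := by linarith [s2_mem.1 hp.1]
  rw [h, Real.sqrt_sq (le_of_lt hp.2)]

theorem s2_ok (V : Set (Fin 1 → ℂ)) (hV : ∀ v : Fin 1 → ℂ, ‖v 0‖ < 1 → v ∈ V) :
    Ok (fun (p : ℂ × ℝ) (_ : Fin 1) => p.1) (S2 ∩ {p | 0 < p.2}) {nP} V {0} := by
  refine .of_mem (.of_continuous (by fun_prop) _) (fun p hp => hV _ ?_) fun p hp h => ?_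
  · have h1 := s2_mem.1 hp.1
    have h2 : 0 < p.2 := hp.2
    show ‖p.1‖ < 1
    nlinarith [norm_nonneg p.1]
  · have h0 : p.1 = 0 := congrFun h 0
    have h1 := s2_up hp
    rw [h0] at h1
    exact Prod.ext h0 (by simpa [nP] using h1.symm)

theorem s2_chart_bij : Function.Bijective
    (pull (fun (p : ℂ × ℝ) (_ : Fin 1) => p.1) (S2 ∩ {p | 0 < p.2}) {nP} :
      H (univ : Set (Fin 1 → ℂ)) {0} → H (S2 ∩ {p | 0 < p.2}) {nP}) := by
  have o1 := s2_ok (univ ∩ {v | ‖v 0‖ < 1}) fun v hv => ⟨trivial, hv⟩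
  have o2 : Ok (fun v : Fin 1 → ℂ => ((v 0, √(1 - ‖v 0‖ ^ 2)) : ℂ × ℝ)) (univ ∩ {v | ‖v 0‖ < 1})
      {0} (S2 ∩ {p | 0 < p.2}) {nP} := by
    refine .of_mem (.of_continuous (by fun_prop) _) (fun v hv => ?_) fun v hv h => ?_
    · have h1 : ‖v 0‖ < 1 := hv.2
      have h2 : 0 < 1 - ‖v 0‖ ^ 2 := by nlinarith [norm_nonneg (v 0)]
      refine ⟨s2_mem.2 ?_, Real.sqrt_pos.2 h2⟩
      show ‖v 0‖ ^ 2 + √(1 - ‖v 0‖ ^ 2) ^ 2 = 1
      rw [Real.sq_sqrt h2.le]; ring
    · have h0 : v 0 = 0 := congrArg Prod.fst h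
      exact funext fun i => by rw [Subsingleton.elim i 0]; exact h0
  have b1 := pull_bij_of_inv o1 o2 (fun p hp => Prod.ext rfl (s2_up hp))
    fun v _ => funext fun i => by rw [Subsingleton.elim i 0]
  have b2 : Function.Bijective (pull id (univ ∩ {v : Fin 1 → ℂ | ‖v 0‖ < 1}) {0} :
      H (univ : Set (Fin 1 → ℂ)) {0} → H (univ ∩ {v : Fin 1 → ℂ | ‖v 0‖ < 1}) {0}) :=
    res_excision_open (isOpen_lt (f := fun v : Fin 1 → ℂ => ‖v 0‖) (by fun_prop) continuous_const)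
      (Cl.of_isClosed isClosed_singleton _) fun x _ hx => by
        rw [mem_singleton_iff.1 hx]; simp
  have e := b1.comp b2
  convert e using 1
  exact funext fun a => (pull_res o1 inter_subset_left (fun _ _ k => k) a).symm

theorem gN_spec : IsLoc gN := by
  exact Classical.epsilon_spec (p := IsLoc) (s2_res_bij.2 _)

theorem IsLoc.eq {g : H S2 {nP}} (h : IsLoc g) : g = gN := by
  exact s2_res_bij.1 (Eq.trans h gN_spec.symm)

theorem isDeg_gN : IsDeg 2 gN := by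
  refine isDeg_iff.2 (IsLoc.eq ?_)
  have h : IsDeg 2 (orient (Fin 1)) := by simpa using isDeg_orient (J := Fin 1)
  have e := gN_spec
  rw [IsLoc] at e ⊢
  rw [pull_prj, e, isDeg_iff.1 (h.pull _ _ _)]

theorem isDeg_xS : IsDeg 2 xS := isDeg_gN.pull _ _ _

theorem s2_gN_ne : gN ≠ 0 := fun h => by
  have e := gN_spec
  rw [IsLoc, h, map_zero] at e
  exact (fib_orient (Fin 1)).ne_zero (s2_chart_bij.1 (e.symm.trans (map_zero _).symm))

theorem s2_gN_gen (a : H S2 {nP}) : ∃ t : ℂ, a = t • gN := by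
  obtain ⟨b, hb⟩ := s2_chart_bij.2 (pull id (S2 ∩ {p | 0 < p.2}) {nP} a)
  obtain ⟨t, rfl⟩ := (fib_orient (Fin 1)).gen b
  refine ⟨t, s2_res_bij.1 ?_⟩
  have e := gN_spec
  rw [IsLoc] at e
  rw [← hb, map_smul, map_smul, e]

/-- the inverse of the stereographic projection -/
def s2_tau (z : ℂ) : ℂ × ℝ :=
  (((2 / (‖z‖ ^ 2 + 1) : ℝ) : ℂ) * z, (‖z‖ ^ 2 - 1) / (‖z‖ ^ 2 + 1))

theorem s2_tau_cont : Continuous s2_tau := by
  unfold s2_tau
  have h : ∀ z : ℂ, ‖z‖ ^ 2 + 1 ≠ 0 := fun z => by positivity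
  fun_prop (disch := exact h)

theorem s2_tau_mem (z : ℂ) : s2_tau z ∈ S2 \ {nP} := by
  have h : 0 < ‖z‖ ^ 2 + 1 := by positivity
  refine ⟨s2_mem.2 ?_, fun k => ?_⟩
  · simp only [s2_tau, norm_mul, Complex.norm_real, Real.norm_eq_abs, mul_pow, sq_abs]
    field_simp
    ring
  · have k2 : (‖z‖ ^ 2 - 1) / (‖z‖ ^ 2 + 1) = 1 := congrArg Prod.snd k
    rw [div_eq_one_iff_eq h.ne'] at k2
    linarith

theorem s2_ne_one {p : ℂ × ℝ} (hp : p ∈ S2 \ {nP}) : 1 - p.2 ≠ 0 := fun h => by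
  have h1 := s2_mem.1 hp.1
  have h2 : p.2 = 1 := by linarith
  have h3 : ‖p.1‖ ^ 2 = 0 := by rw [h2] at h1; linarith
  exact hp.2 (Prod.ext (by simpa [nP] using h3) h2)

theorem s2_tau_sig {p : ℂ × ℝ} (hp : p ∈ S2 \ {nP}) :
    s2_tau ((((1 - p.2)⁻¹ : ℝ) : ℂ) * p.1) = p := by
  have h0 := s2_ne_one hp
  have h1 := s2_mem.1 hp.1
  have h2 : ‖(((1 - p.2)⁻¹ : ℝ) : ℂ) * p.1‖ ^ 2 = (1 + p.2) / (1 - p.2) := by
    rw [norm_mul, Complex.norm_real, Real.norm_eq_abs, mul_pow, sq_abs,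
      show ‖p.1‖ ^ 2 = (1 - p.2) * (1 + p.2) by linarith]
    field_simp
  have h3 : (1 + p.2) / (1 - p.2) + 1 = 2 / (1 - p.2) := by field_simp; ring
  refine Prod.ext ?_ ?_
  · simp only [s2_tau, h2, h3]
    rw [← mul_assoc, ← Complex.ofReal_mul, show 2 / (2 / (1 - p.2)) * (1 - p.2)⁻¹ = 1 by
      field_simp, Complex.ofReal_one, one_mul]
  · simp only [s2_tau, h2, h3]
    field_simp
    ring

theorem s2_acy : Acy (S2 \ {nP}) := by
  have hm : s2_tau 0 ∈ S2 \ {nP} := s2_tau_mem 0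
  have o1 : Ok (fun _ : ℂ × ℝ => s2_tau 0) (S2 \ {nP}) univ {s2_tau 0} univ :=
    .of_mem (.of_continuous continuous_const _) (fun _ _ => rfl) fun _ _ _ => trivial
  have o2 : Ok id {s2_tau 0} univ (S2 \ {nP}) univ :=
    .id (singleton_subset_iff.2 hm) fun _ _ _ => trivial
  refine (acy_singleton (s2_tau 0)).of_surj ⟨_, hm⟩ o1 (pull_bij_of_section o1 o2
    (fun y hy => hy.symm)
    (F := fun q : (ℂ × ℝ) × ℝ => s2_tau ((q.2 : ℂ) * ((((1 - q.1.2)⁻¹ : ℝ) : ℂ) * q.1.1)))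
    (.of_continuousAt fun q hq => ?_) (fun _ _ _ _ => s2_tau_mem _) (fun _ _ _ _ _ => trivial)
    (fun x _ => by simp) fun x hx => ?_).2
  · have h := s2_ne_one hq.1
    refine s2_tau_cont.continuousAt.comp ?_
    fun_prop (disch := exact h)
  · simp only [Complex.ofReal_one, one_mul]
    exact s2_tau_sig hx

theorem s2_h2 : (S2 \ {nP}) \ univ = S2 \ univ := by simp

theorem s2_res_surj (y : H (S2 \ {nP}) univ) :
    ∃ t : ℂ, pull id (S2 \ {nP}) univ (t • (1 : H S2 univ)) = y := by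
  obtain ⟨t, rfl⟩ := s2_acy.2 y
  have o : Ok id (S2 \ {nP}) univ S2 univ := .id sdiff_subset fun _ _ _ => trivial
  exact ⟨t, by rw [map_smul, oneH, pull_one o (subset_univ _)]⟩

theorem xS_ne : xS ≠ 0 := by
  intro h
  obtain ⟨y, hy⟩ := (exact_dlt_supp (U := S2) (Z := univ) (Z₁ := {nP}) (Z₂ := univ) rfl
    s2_h2 gN).1 h
  obtain ⟨c, rfl⟩ := s2_res_surj y
  exact s2_gN_ne (hy.symm.trans
    ((exact_res_dlt (U := S2) (Z := univ) (Z₁ := {nP}) (Z₂ := univ) rfl s2_h2 _).2 ⟨_, rfl⟩))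

theorem S2_basis : Function.Bijective fun a : Fin 2 → ℂ =>
    ∑ i, a i • (![1, xS] : Fin 2 → H S2 univ) i := by
  constructor
  · intro a b h
    simp only [Fin.sum_univ_two, cons_val_zero, cons_val_one] at h
    have h0 := congrArg (prj {0}) h
    have h2 := congrArg (prj {2}) h
    have e1 : prj {0} (1 : H S2 univ) = 1 := isDeg_iff.1 isDeg_oneH
    have e2 : prj {2} (1 : H S2 univ) = 0 := isDeg_oneH.prj_eq_zero (by simp)
    have e3 : prj {0} xS = 0 := isDeg_xS.prj_eq_zero (by simp)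
    have e4 : prj {2} xS = xS := isDeg_iff.1 isDeg_xS
    simp only [map_add, map_smul, e1, e2, e3, e4, smul_zero, add_zero, zero_add] at h0 h2
    have k0 : a 0 = b 0 := by
      have hN : nP ∈ S2 := by simp [s2_mem, nP]
      have := congrArg (ev nP) h0
      rwa [map_smul, map_smul, oneH, ev_one hN (subset_univ _), smul_eq_mul, smul_eq_mul, mul_one,
        mul_one] at this
    have k1 : a 1 = b 1 := smul_left_injective ℂ xS_ne h2
    funext i
    fin_cases i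
    exacts [k0, k1]
  · intro c
    obtain ⟨t, ht⟩ := s2_res_surj (pull id (S2 \ {nP}) univ c)
    have h0 : pull id (S2 \ {nP}) univ (c - t • (1 : H S2 univ)) = 0 := by
      rw [map_sub, ht, sub_self]
    obtain ⟨g, hg⟩ := (exact_supp_res (U := S2) (Z := univ) (Z₁ := {nP}) (Z₂ := univ) rfl
      s2_h2 _).1 h0
    obtain ⟨s, rfl⟩ := s2_gN_gen g
    refine ⟨![t, s], ?_⟩
    rw [map_smul] at hg
    simp only [Fin.sum_univ_two, cons_val_zero, cons_val_one]
    rw [xS, hg, add_sub_cancel]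

theorem s2_rot : (pull id S2 univ : H S2 univ →ₗ[ℂ] H S2 univ) =
    pull (fun p : ℂ × ℝ => ((star p.1, -p.2) : ℂ × ℝ)) S2 univ := by
  refine pull_htpy' (F := fun q : (ℂ × ℝ) × ℝ => (((q.1.1.re : ℂ) + ((Real.cos (Real.pi * q.2) *
    q.1.1.im - Real.sin (Real.pi * q.2) * q.1.2 : ℝ) : ℂ) * Complex.I,
    Real.sin (Real.pi * q.2) * q.1.1.im + Real.cos (Real.pi * q.2) * q.1.2) : ℂ × ℝ))
    (.of_continuous (by fun_prop) _) (fun p hp t _ => ?_) (fun _ _ _ _ _ => trivial)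
    (fun p _ => ?_) fun p _ => ?_
  · rw [s2_mem'] at hp ⊢
    have h := Real.sin_sq_add_cos_sq (Real.pi * t)
    simp only [Complex.add_re, Complex.ofReal_re, Complex.mul_re, Complex.I_re, Complex.ofReal_im,
      Complex.I_im, Complex.add_im, Complex.mul_im]
    linear_combination hp + (p.1.im ^ 2 + p.2 ^ 2) * h
  · simp
  · refine Prod.ext (Complex.ext ?_ ?_) ?_ <;> simp

theorem xS_south {g : H S2 {-nP}} (h : pull id (S2 ∩ {p | p.2 < 0}) {-nP} g =
    pull (fun p (_ : Fin 1) => star p.1) (S2 ∩ {p | p.2 < 0}) {-nP} (orient (Fin 1))) :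
    pull id S2 univ g = xS := by
  have hc : Continuous fun p : ℂ × ℝ => ((star p.1, -p.2) : ℂ × ℝ) := by fun_prop
  have hm : ∀ p ∈ S2, ((star p.1, -p.2) : ℂ × ℝ) ∈ S2 := fun p hp => by
    rw [s2_mem] at hp ⊢
    simpa using hp
  have hz : ∀ p : ℂ × ℝ, ((star p.1, -p.2) : ℂ × ℝ) ∈ ({nP} : Set (ℂ × ℝ)) →
      p ∈ ({-nP} : Set (ℂ × ℝ)) := fun p hp => by
    have h1 : star p.1 = 0 := congrArg Prod.fst hp
    have h2 : -p.2 = 1 := congrArg Prod.snd hp
    refine Prod.ext ?_ ?_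
    · simpa [nP] using h1
    · simp only [nP, Prod.neg_mk]; linarith
  have o1 : Ok (fun p : ℂ × ℝ => ((star p.1, -p.2) : ℂ × ℝ)) S2 {-nP} S2 {nP} :=
    .of_mem (.of_continuous hc _) hm fun p _ => hz p
  have o2 : Ok (fun p : ℂ × ℝ => ((star p.1, -p.2) : ℂ × ℝ)) (S2 ∩ {p | p.2 < 0}) {-nP}
      (S2 ∩ {p | 0 < p.2}) {nP} :=
    .of_mem (.of_continuous hc _) (fun p hp => ⟨hm p hp.1, (neg_pos.2 hp.2 : 0 < -p.2)⟩) fun p _ => hz p
  have e : g = pull (fun p : ℂ × ℝ => ((star p.1, -p.2) : ℂ × ℝ)) S2 {-nP} gN := by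
    refine s2_res_bij'.1 (h.trans ?_)
    have k := gN_spec
    rw [IsLoc] at k
    rw [res_pull o1 inter_subset_left (fun _ _ k => k),
      ← pull_res o2 inter_subset_left (fun _ _ k => k), k]
    exact (pull_pull' o2 (s2_ok univ fun _ _ => trivial) (fun _ _ => rfl) _).symm
  rw [e, res_pull (W₁ := univ) o1 subset_rfl (fun _ _ _ => trivial),
    ← pull_res (Ok.top o1) subset_rfl (fun _ _ _ => trivial), ← s2_rot, pull_id]
  rfl

end Pool.Agent.Work.MP_8c604c_gt.T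
end
end

-- merged part: Pool.Agent.Work.MP_8c604c_gt.T.ZE
section
/-!
Homotopy equivalences between sphere bundles and bundles of nonzero vectors, for all coefficient
rings; the integral generator of the two-sphere (owner helper45).
-/

noncomputable section

set_option linter.unusedSectionVars false

namespace Pool.Agent.Work.MP_8c604c_gt.T

open Set Topology Matrix Pool.Agent.Work.MP_849ab0_ag.G

variable {X T A : Type} [TopologicalSpace X] [TopologicalSpace T] [T3Space X]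
  [SecondCountableTopology X] [RegularSpace T] [SecondCountableTopology T] [NormedAddCommGroup A]
  [NormedSpace ℝ A] [FiniteDimensional ℝ A]

/-- a compact set that meets every ray of a cone once -/
theorem zb_cone {E : Set (X × A)} (lc : IsLocallyClosed E) (nz : ∀ z ∈ E, z.2 ≠ 0)
    (cone : ∀ z ∈ E, ∀ t : ℝ, 0 < t → (z.1, t • z.2) ∈ E) {C : Set T} (hC : IsCompact C)
    (hl : IsLocallyClosed C) {q : T → X} {σ : T → A} (hq : ContinuousOn q C)
    (hσ : ContinuousOn σ C) (mem : ∀ y ∈ C, (q y, σ y) ∈ E)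
    (surj : ∀ z ∈ E, ∃ y ∈ C, ∃ c : ℝ, 0 < c ∧ q y = z.1 ∧ z.2 = c • σ y)
    (inj : ∀ y ∈ C, ∀ y' ∈ C, ∀ c : ℝ, 0 < c → q y' = q y → σ y' = c • σ y → y' = y) :
    ZB (fun y => (q y, σ y)) C univ E univ := by
  have cj : ContinuousOn (fun y => (q y, σ y)) C := hq.prodMk hσ
  have o2 : Ok (fun y => (q y, σ y)) C univ E univ := ok_top hl cj mem
  rcases C.eq_empty_or_nonempty with rfl | ⟨y₀, -⟩
  · refine ⟨o2, fun R _ => ?_⟩
    have := TZ.subsingleton_H (R := R) (empty_disjoint (univ : Set T))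
    have := TZ.subsingleton_H (R := R) (U := E) (Z := univ)
      (disjoint_left.2 fun z hz _ => (surj z hz).elim fun _ k => k.1)
    exact ⟨fun _ _ _ => Subsingleton.elim _ _, fun _ => ⟨0, Subsingleton.elim _ _⟩⟩
  have : Nonempty T := ⟨y₀⟩
  choose! ρ m c hc e1 e2 using surj
  have nz' : ∀ z ∈ E, ‖z.2‖ ≠ 0 := fun z hz => norm_ne_zero_iff.2 (nz z hz)
  have sc : ∀ y ∈ C, ∀ t : ℝ, 0 < t → (q y, t • σ y) ∈ E ∧ ρ (q y, t • σ y) = y := by
    intro y hy t ht
    have k : (q y, t • σ y) ∈ E := cone _ (mem y hy) t ht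
    refine ⟨k, inj y hy _ (m _ k) ((c (q y, t • σ y))⁻¹ * t) (mul_pos (inv_pos.2 (hc _ k)) ht)
      (e1 _ k) ?_⟩
    rw [mul_smul]
    exact (eq_inv_smul_iff₀ (hc _ k).ne').2 (e2 _ k).symm
  let n : X × A → X × A := fun z => (z.1, ‖z.2‖⁻¹ • z.2)
  have cn : ContinuousOn n E :=
    continuousOn_fst.prodMk ((continuousOn_snd.norm.inv₀ nz').smul continuousOn_snd)
  have en : ∀ y ∈ C, ρ (n (q y, σ y)) = y := fun y hy =>
    (sc y hy _ (inv_pos.2 ((norm_nonneg _).lt_of_ne' (nz' _ (mem y hy))))).2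
  have en' : ∀ z ∈ E, n (q (ρ z), σ (ρ z)) = n z := fun z hz => by
    refine Prod.ext (e1 z hz) ?_
    change ‖σ (ρ z)‖⁻¹ • σ (ρ z) = ‖z.2‖⁻¹ • z.2
    rw [e2 z hz, norm_smul, Real.norm_of_nonneg (hc z hz).le, smul_smul, mul_inv, mul_right_comm,
      inv_mul_cancel₀ (hc z hz).ne', one_mul]
  have cρ : ContinuousOn ρ E :=
    ((contOn_of_compact hC (cn.comp cj mem) subset_rfl
      (continuousOn_id.congr fun y hy => en y hy.1)).comp cn
      fun z hz => ⟨_, m z hz, en' z hz⟩).congr fun z hz => by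
        rw [Function.comp_apply, ← en' z hz, en _ (m z hz)]
  have o1 : Ok ρ E univ C univ := ok_top lc cρ m
  have e3 : ∀ y ∈ C, ρ (q y, σ y) = y := fun y hy => by simpa using (sc y hy 1 one_pos).2
  refine ZB.of_comp_right o2 (ZB.of_section o1 o2 e3
    (F := fun w => (w.1.1, w.2 • w.1.2 + (1 - w.2) • σ (ρ w.1)))
    (ext_htpy lc (continuousOn_fst.fst.prodMk ((continuousOn_snd.smul continuousOn_fst.snd).add
      ((continuousOn_const.sub continuousOn_snd).smul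
        ((hσ.comp cρ m).comp continuousOn_fst fun _ k => k.1)))))
    (fun z hz t ht => ?_) (fun _ _ _ _ _ => trivial) (fun z hz => by simp [e1 z hz])
    fun z hz => by simp) ZB.refl e3
  have k := (sc _ (m z hz) (t * c z + (1 - t)) (by
    have := hc z hz
    rcases ht.2.eq_or_lt with rfl | k
    exacts [by simpa, by nlinarith [ht.1]])).1
  rwa [add_smul, mul_smul, ← e2 z hz, e1 z hz] at k

theorem RB.lc_nz {V : X → A →L[ℝ] A} {r : ℕ} {U : Set X} (h : RB V r U) :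
    IsLocallyClosed (totR V U \ zs X A) :=
  h.lc_tot.inter isClosed_zsR.isOpen_compl.isLocallyClosed

theorem cone_nz {V : X → A →L[ℝ] A} {U : Set X} {z : X × A} (hz : z ∈ totR V U \ zs X A) {t : ℝ}
    (ht : t ≠ 0) : (z.1, t • z.2) ∈ totR V U \ zs X A :=
  ⟨⟨hz.1.1, (map_smul _ _ _).trans (congrArg _ hz.1.2)⟩, smul_ne_zero ht hz.2⟩

variable {n k : ℕ}

/-- geodesics and nonzero tangent vectors -/
theorem TD0.zb_S (D : TD0 n k) : ZB (fun c : LM n => (c 1, D.vel c)) D.S univ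
    (totR tanP (MH n) \ zs (AM n) (AM n)) univ :=
  zb_cone rb_tanP.lc_nz (fun _ h => h.2) (fun _ h _ ht => cone_nz h ht.ne') D.cpt
    D.cpt.isClosed.isLocallyClosed (continuous_eval_const 1).continuousOn D.cvel
    (fun c hc => ⟨⟨D.mem c hc 1, (tanP_eq_iff (D.mem c hc 1)).2 (D.tan c hc)⟩, D.vne c hc⟩)
    (fun z hz => by
      obtain ⟨c, hc, e, r, hr, e'⟩ := D.ex z.1 z.2 ((tanP_eq_iff hz.1.1).1 hz.1.2) hz.2
      exact ⟨c, hc, r, hr, e, e'⟩)
    fun c hc c' hc' r hr e e' => D.uniq c hc c' hc' e r hr e'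

/-- unit vectors and nonzero vectors -/
theorem zb_sph {N r : ℕ} {V : X → RN N →L[ℝ] RN N} {U : Set X} (h : RB V r U) :
    ZB id (sph V U) univ (totR V U \ zs X (RN N)) univ := by
  have p : ∀ z ∈ totR V U \ zs X (RN N), 0 < ‖z.2‖ := fun z hz => norm_pos_iff.2 hz.2
  have s : sph V U ⊆ totR V U \ zs X (RN N) := fun y k =>
    ⟨⟨k.1, k.2.1⟩, norm_ne_zero_iff.1 (k.2.2.trans_ne one_ne_zero)⟩
  refine .retract s (fun _ _ => Iff.rfl)
    (F := fun w => (w.1.1, (1 - w.2 + w.2 * ‖w.1.2‖⁻¹) • w.1.2))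
    (ext_htpy h.lc_nz (continuousOn_fst.fst.prodMk (((continuousOn_const.sub continuousOn_snd).add
      (continuousOn_snd.mul (continuousOn_fst.snd.norm.inv₀ fun w k => (p _ k.1).ne'))).smul
        continuousOn_fst.snd)))
    (fun z hz t ht => cone_nz hz (ne_of_gt ?_)) (fun z hz t ht => by simpa [hz.2.2] using hz)
    (fun _ _ _ _ _ => trivial) (fun _ _ => by simp) fun z hz => ?_
  · have := inv_pos.2 (p z hz)
    rcases ht.2.eq_or_lt with rfl | k
    exacts [by simpa, by nlinarith [ht.1]]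
  · have k := cone_nz hz (inv_pos.2 (p z hz)).ne'
    simp only [sub_self, one_mul, zero_add]
    exact ⟨k.1.1, k.1.2, norm_smul_inv_norm hz.2⟩

/-- the circle bundle `Pt → Pq` and the line bundle `Lq` -/
theorem TD.zb_Pt (D : TD n) :
    ZB (fun x => (qP x, D.Φ x.1)) D.Pt univ (sp D.Lq D.Pq) univ := by
  refine zb_cone D.cb_Lq.lc_sp (fun _ h => (mem_sp.1 h).2.2) (fun z hz t ht => ?_) D.isCompact_Pt
    D.lc_Pt continuous_qP.continuousOn (D.cΦ.comp continuousOn_fst fun _ h => h.1)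
    (fun x hx => mem_sp.2 ⟨TD.qP_mem hx, ?_, D.neΦ _ hx.1⟩) (fun z hz => ?_)
    fun x hx x' hx' c hc e e' => ?_
  · obtain ⟨k1, k2, k3⟩ := mem_sp.1 hz
    exact mem_sp.2 ⟨k1, (mulVec_smul _ _ _).trans (congrArg _ k2), smul_ne_zero ht.ne' k3⟩
  · change D.Lq (qP x) *ᵥ _ = _
    rw [TD.Lq_qP hx.1]
    exact (sph_lin_fix (D.neΦ _ hx.1)).2 ⟨1, (one_smul _ _).symm⟩
  · obtain ⟨k1, k2, k3⟩ := mem_sp.1 hz
    have m := TD.oL_memP k1
    obtain ⟨t, ht⟩ := (sph_lin_fix (D.neΦ _ m.1)).1 k2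
    have t0 : t ≠ 0 := fun e => k3 (by rw [ht, e, zero_smul])
    refine ⟨_, TD.sh_mem (phs t) m, ‖t‖, norm_pos_iff.2 t0, Prod.ext ((qL_sh _ _).trans (qL_oL _)) rfl,
      ?_⟩
    rw [D.eqΦ _ _ m.1, ← Complex.coe_smul, smul_smul, norm_mul_phs]
    exact ht
  · obtain ⟨e1, e2⟩ := Prod.mk.inj e
    obtain ⟨θ, k⟩ := qL_eq.1 e1.symm
    have k1 : (θ : ℂ) = c := smul_left_injective ℂ (D.neΦ _ hx.1) (by
      change (θ : ℂ) • D.Φ x.1 = (c : ℂ) • D.Φ x.1
      rw [← D.eqΦ θ _ hx.1, k, e', Complex.coe_smul])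
    have k2 : c = 1 := by
      have := θ.norm_coe
      rwa [k1, Complex.norm_real, Real.norm_of_nonneg hc.le] at this
    have k3 : θ = 1 := Circle.ext (by rw [k1, k2]; rfl)
    exact Prod.ext (by rw [← k, k3, sh_one]) e2

/-- the two-sphere and the nonzero vectors of `ℝ ^ 3` -/
theorem zb_S2 : ZB (fun p : ℂ × ℝ => ![p.2, p.1.re, p.1.im]) S2 univ
    ({0}ᶜ : Set (Fin 3 → ℝ)) univ := by
  have lc : IsLocallyClosed ((univ : Set Unit) ×ˢ ({0}ᶜ : Set (Fin 3 → ℝ))) :=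
    (isOpen_univ.prod isOpen_compl_singleton).isLocallyClosed
  refine (zb_cone (q := fun _ => ()) lc (fun _ h => h.2)
    (fun z hz t ht => ⟨trivial, smul_ne_zero ht.ne' hz.2⟩) isCompact_S2 s2_closed.isLocallyClosed
    continuousOn_const (σ := fun p : ℂ × ℝ => ![p.2, p.1.re, p.1.im]) (by fun_prop)
    (fun p hp => ⟨trivial, fun e => ?_⟩) (fun z hz => ?_) fun p hp p' hp' c hc _ e => ?_).comp
    (.of_inv (f := Prod.snd) (s := fun v => ((), v))
      (.of_mem (.of_continuous continuous_snd _) (fun _ k => k.2) fun _ _ _ => trivial)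
      (.of_mem (.of_continuous (by fun_prop) _) (fun _ k => ⟨trivial, k⟩) fun _ _ _ => trivial)
      (fun _ _ => rfl) fun _ _ => rfl) fun _ _ => rfl
  · have h := s2_mem'.1 hp
    have e0 : p.2 = 0 := congrFun e 0
    have e1 : p.1.re = 0 := congrFun e 1
    have e2 : p.1.im = 0 := congrFun e 2
    rw [e0, e1, e2] at h
    norm_num at h
  · have p : 0 < z.2 1 ^ 2 + z.2 2 ^ 2 + z.2 0 ^ 2 := by
      by_contra k
      refine hz.2 (funext fun i => ?_)
      fin_cases i <;> refine pow_eq_zero_iff two_ne_zero |>.1 (le_antisymm ?_ (sq_nonneg _)) <;>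
        simp only [Fin.zero_eta, Fin.mk_one, Fin.reduceFinMk] <;>
        nlinarith [sq_nonneg (z.2 0), sq_nonneg (z.2 1), sq_nonneg (z.2 2)]
    have q := Real.sqrt_pos.2 p
    have q2 := Real.sq_sqrt p.le
    set s := √(z.2 1 ^ 2 + z.2 2 ^ 2 + z.2 0 ^ 2)
    refine ⟨(⟨z.2 1 / s, z.2 2 / s⟩, z.2 0 / s), s2_mem'.2 ?_, s, q, rfl, funext fun i => ?_⟩
    · field_simp
      exact q2.symm
    · fin_cases i <;> simp <;> field_simp
  · have h := s2_mem'.1 hp
    have h' := s2_mem'.1 hp'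
    have e0 : p'.2 = c * p.2 := congrFun e 0
    have e1 : p'.1.re = c * p.1.re := congrFun e 1
    have e2 : p'.1.im = c * p.1.im := congrFun e 2
    have k : c = 1 := by
      rw [e0, e1, e2, mul_pow, mul_pow, mul_pow, ← mul_add, ← mul_add, h, mul_one] at h'
      exact (pow_eq_one_iff_of_nonneg hc.le two_ne_zero).1 h'
    rw [k, one_mul] at e0 e1 e2
    exact Prod.ext (Complex.ext e1 e2) e0

theorem zb_chart : ZB (fun (p : ℂ × ℝ) (_ : Fin 1) => p.1) (S2 ∩ {p | 0 < p.2}) {nP}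
    (univ : Set (Fin 1 → ℂ)) {0} := by
  have o1 := s2_ok (univ ∩ {v | ‖v 0‖ < 1}) fun v hv => ⟨trivial, hv⟩
  have o2 : Ok (fun v : Fin 1 → ℂ => ((v 0, √(1 - ‖v 0‖ ^ 2)) : ℂ × ℝ)) (univ ∩ {v | ‖v 0‖ < 1})
      {0} (S2 ∩ {p | 0 < p.2}) {nP} := by
    refine .of_mem (.of_continuous (by fun_prop) _) (fun v hv => ?_) fun v hv h => ?_
    · have h1 : ‖v 0‖ < 1 := hv.2
      have h2 : 0 < 1 - ‖v 0‖ ^ 2 := by nlinarith [norm_nonneg (v 0)]
      refine ⟨s2_mem.2 ?_, Real.sqrt_pos.2 h2⟩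
      show ‖v 0‖ ^ 2 + √(1 - ‖v 0‖ ^ 2) ^ 2 = 1
      rw [Real.sq_sqrt h2.le]; ring
    · have h0 : v 0 = 0 := congrArg Prod.fst h
      exact funext fun i => by rw [Subsingleton.elim i 0]; exact h0
  exact (ZB.of_inv o1 o2 (fun p hp => Prod.ext rfl (s2_up hp))
    fun v _ => funext fun i => by rw [Subsingleton.elim i 0]).comp
    (.excision_open (isOpen_lt (f := fun v : Fin 1 → ℂ => ‖v 0‖) (by fun_prop) continuous_const)
      (Cl.of_isClosed isClosed_singleton _) fun x _ hx => by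
        rw [mem_singleton_iff.1 hx]; simp) fun _ _ => rfl

theorem gen_gN : Gen 2 gN := by
  have h : Gen 2 (orient (Fin 1)) := by simpa using gen_orient (Fin 1)
  have k := h.pul zb_chart
  rw [← show _ = _ from gN_spec] at k
  exact k.of_pul (.excision_open (isOpen_lt continuous_const continuous_snd)
    (Cl.of_isClosed isClosed_singleton _) fun x _ hx => by rw [mem_singleton_iff.1 hx]; simp [nP])

theorem van_S2 {d : ℤ} (hd : d ≠ 0) : Van d (S2 \ {nP}) univ := by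
  refine van_contr
    (F := fun q : (ℂ × ℝ) × ℝ => s2_tau ((q.2 : ℂ) * ((((1 - q.1.2)⁻¹ : ℝ) : ℂ) * q.1.1)))
    (.of_continuousAt fun q hq => ?_) (fun _ _ _ _ => s2_tau_mem _) (s2_tau_mem 0)
    (fun x _ => by simp) (fun x hx => ?_) hd
  · have h := s2_ne_one hq.1
    refine s2_tau_cont.continuousAt.comp ?_
    fun_prop (disch := exact h)
  · simp only [Complex.ofReal_one, one_mul]
    exact s2_tau_sig hx

/-- the integral generator -/
theorem gen_xS : Gen 2 xS := gen_gN.supp rfl s2_h2 (van_S2 two_ne_zero) xS_ne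

end Pool.Agent.Work.MP_8c604c_gt.T
end
end

-- merged part: Pool.Agent.Work.MP_8c604c_gt.OG.ZG
section
/-!
General lemmas on integral Thom classes (owner helper4).
Hints.  Model: T/ZTh.lean (all proofs there go through `h.thom R` and the TZ lemmas with the same names as in
849ab0/G: TZ.exact_supp_res, TZ.exact_res_dlt, TZ.exact_dlt_supp, TZ.pull_cup, ...).
`ThZ.pul`: pull the class `t` of `h.thom R` back along `f` (`okZ`, `cc_pull`, `ZB.all`).
`ThZ.van_nil`: fix `R`, `t` from `h.thom R`, `e` with `pull π e = pull id E univ t` (`h.base.all R`).  For `a` of degree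
`q + (j - 1) d` with `cup a e = 0` the class `cup (pull π a) t` has image zero without supports, so it is `dlt c` with `c` of
degree `q + j d - 1`, hence zero, hence `a = 0`.  The restriction of `e` to `U ∩ O i` is the pull-back of `t` along the
section `s i`, which misses `Z` (factor through `(E \ Z, Z)`, `TZ.subsingleton_H`).  By induction on `j` the class `a e ^ j`
restricts to zero on `U ∩ (O 0 ∪ ... ∪ O (j - 1))` (copy the proof of `ls_mul` in T/LSa.lean for TZ).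
-/

noncomputable section

set_option linter.unusedSectionVars false

namespace Pool.Agent.Work.MP_8c604c_gt.OT

open Set Topology Pool.Agent.Work.MP_849ab0_ag.G T

variable {X X' Y : Type} [TopologicalSpace X] [TopologicalSpace X'] [TopologicalSpace Y]

section LES

variable {U Z Z₁ U₂ Z₂ : Set X} {d : ℤ} (h1 : U \ Z₁ = U₂) (h2 : U₂ \ Z₂ = U \ Z)
include h1 h2

/-- a generator with small support maps to a generator -/
theorem gen_supp_sign {ω : H U Z} {c : H U Z₁} (h : Gen d ω) (hc : Gen d c) (v : Van d U₂ Z₂) :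
    pull id U Z c = ω ∨ pull id U Z c = -ω := by
  obtain ⟨c', c1, c2, e⟩ := v.lift h1 h2 h.isZ h.deg
  obtain ⟨m, rfl⟩ := hc.int c' c1 c2
  exact h.eq_or (hc.supp h1 h2 v fun k => h.ne (by rw [← e, map_smul, k, smul_zero]))

theorem tf_mid {d : ℤ} (a : Tf d U Z₁) (b : Tf d U₂ Z₂)
    (c : ∀ x : H U Z₁, IsDeg d x → pull id U Z x = 0 → x = 0) : Tf d U Z := by
  intro x hx e
  obtain ⟨y, rfl⟩ := (TZ.exact_supp_res h1 h2 x).1 (b _ (hx.pull _ _ _) (by rw [cc_pull, e, map_zero]))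
  rw [← TZ.isDeg_iff.1 hx, ← TZ.pull_prj] at e ⊢
  rw [a _ (TZ.isDeg_prj d y) (c _ (cc_deg (TZ.isDeg_prj d y)) (by rw [← cc_pull, e])), map_zero]

/-- the connecting map sends a generator to a generator -/
theorem gen_dlt {ζ : H U₂ Z₂} (h : Gen d ζ) (v : Van d U Z) (v' : Van (d + 1) U Z) :
    Gen (d + 1) (dlt U Z₁ ζ) := by
  refine ⟨h.isZ.dl _ _, h.deg.dlt _ _, fun e => h.ne (dlt_inj' h1 h2 v h.deg e), fun a ha hd => ?_,
    fun a hd => ?_⟩
  · obtain ⟨c, c1, c2, rfl⟩ := v'.exists_dlt h1 h2 ha hd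
    obtain ⟨m, rfl⟩ := h.int c c1 c2
    exact ⟨m, map_smul _ _ _⟩
  · obtain ⟨y, rfl⟩ := (exact_dlt_supp h1 h2 a).1 (v'.eq_zero (hd.pull _ _ _))
    obtain ⟨m, e⟩ := h.span _ (isDeg_prj d y)
    exact ⟨m, by rw [← isDeg_iff.1 hd, ← dlt_prj (s := {d}) (by simp), e, map_smul]⟩

/-- the restriction sends a generator to a generator -/
theorem gen_res {ω : H U Z} (h : Gen d ω) (v : Van d U Z₁) (v' : Van (d + 1) U Z₁) :
    Gen d (pull id U₂ Z₂ ω) := by
  refine ⟨h.isZ.pul _ _ _, h.deg.pull _ _ _, fun e => h.ne ?_, fun a ha hd => ?_, fun a hd => ?_⟩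
  · obtain ⟨y, k⟩ := (exact_supp_res h1 h2 ω).1 e
    rw [← isDeg_iff.1 h.deg, ← k, ← pull_prj, v.eq_zero (isDeg_prj d y), map_zero]
  · obtain ⟨c, c1, c2, rfl⟩ := v'.extend h1 h2 ha hd
    obtain ⟨m, rfl⟩ := h.int c c1 c2
    exact ⟨m, map_smul _ _ _⟩
  · obtain ⟨y, rfl⟩ := (exact_res_dlt h1 h2 a).1 (v'.eq_zero (hd.dlt _ _))
    obtain ⟨m, e⟩ := h.span _ (isDeg_prj d y)
    exact ⟨m, by rw [← isDeg_iff.1 hd, ← pull_prj, e, map_smul]⟩

end LES

variable [RegularSpace X] [SecondCountableTopology X] [RegularSpace X'] [SecondCountableTopology X']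
  [RegularSpace Y] [SecondCountableTopology Y] {π : X → Y} {E Z : Set X} {U : Set Y} {τ : H E Z}
  {d q : ℤ}

theorem thZ_gysD (h : ThZ π E Z U d τ) {e : H U univ} (he : pull π E univ e = pull id E univ τ) :
    GysD π E Z U τ d e := ⟨h.base.ok, h.deg, h.bij, h.base.bij, he⟩

theorem thZ_neg (h : ThZ π E Z U d τ) : ThZ π E Z U d (-τ) := by
  refine ⟨h.base, fun R _ => ?_⟩
  obtain ⟨t, k1, k2, k3⟩ := h.thom R
  refine ⟨-t, k1.neg, ?_, by intro _ _; rw [map_neg, k3]⟩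
  simp only [map_neg]
  exact (Equiv.neg _).bijective.comp k2

theorem thZ_sign (h : ThZ π E Z U d τ) {τ' : H E Z} (e : τ' = τ ∨ τ' = -τ) : ThZ π E Z U d τ' := by
  rcases e with rfl | rfl
  exacts [h, thZ_neg h]

theorem thZ_pul (h : ThZ π E Z U d τ) {f : X' → X} {E' Z' : Set X'} (hf : ZB f E' Z' E Z)
    (hf' : ZB f E' univ E univ) {π' : X' → Y} (e : ∀ x ∈ E', π (f x) = π' x) :
    ThZ π' E' Z' U d (pull f E' Z' τ) := by
  refine ⟨hf'.comp h.base e, fun R _ => ?_⟩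
  obtain ⟨t, k1, k2, k3⟩ := h.thom R
  refine ⟨TZ.pull f E' Z' t, k1.pull _ _ _, ?_, by intro _ _; rw [cc_pull, k3]⟩
  have := (hf.all R).comp k2
  simp only [Function.comp_def, TZ.pull_cup' (okZ hf.ok) (okZ hf'.ok) (okZ hf.ok) (fun _ _ _ k => k)
    (.of_subset subset_rfl subset_rfl fun _ _ _ k => k),
    TZ.pull_pull' (okZ hf'.ok) (okZ h.base.ok) e] at this
  exact this

/-- change of the base along a bijection in cohomology -/
theorem thZ_base (h : ThZ π E Z U d τ) {Y' : Type} [TopologicalSpace Y'] {g : Y → Y'} {U' : Set Y'}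
    (hg : ZB g U univ U' univ) {π' : X → Y'} (e : ∀ x ∈ E, g (π x) = π' x) : ThZ π' E Z U' d τ := by
  refine ⟨h.base.comp hg e, fun R _ => ?_⟩
  obtain ⟨t, k1, k2, k3⟩ := h.thom R
  refine ⟨t, k1, ?_, k3⟩
  have := k2.comp (hg.all R)
  simp only [Function.comp_def, TZ.pull_pull' (okZ h.base.ok) (okZ hg.ok) e] at this
  exact this

theorem thZ_gen_mul (h : ThZ π E Z U d τ) {a : H U univ} (ha : Gen q a) :
    Gen (q + d) (cup E Z (pull π E univ a) τ) := by
  refine ⟨(ha.isZ.pul _ _ _).cp h.isZ _ _, (ha.deg.pull _ _ _).cup h.deg _ _,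
    fun k => ha.ne (h.bij.1 (by simp [k])), fun c hc hd => ?_, fun c hd => ?_⟩
  · obtain ⟨b, a1, a2, rfl⟩ := h.ex hc hd
    obtain ⟨m, rfl⟩ := ha.int b a1 (by rwa [add_sub_cancel_right] at a2)
    exact ⟨m, by rw [map_smul, map_smul, LinearMap.smul_apply]⟩
  · obtain ⟨b, rfl⟩ := h.bij.2 c
    obtain ⟨m, rfl⟩ := ha.span b (isDeg_of_cup h.deg h.bij.1 hd)
    exact ⟨m, by simp only [map_smul, LinearMap.smul_apply]⟩

theorem thZ_gen_of_mul (h : ThZ π E Z U d τ) {a : H U univ}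
    (ha : Gen (q + d) (cup E Z (pull π E univ a) τ)) : Gen q a := by
  obtain ⟨b, b1, -, e⟩ := h.ex ha.isZ ha.deg
  refine ⟨h.bij.1 e ▸ b1, isDeg_of_cup h.deg h.bij.1 ha.deg, fun k => ha.ne (by simp [k]),
    fun c hc hd => ?_, fun c hd => ?_⟩
  · exact (ha.int _ ((hc.pul π E univ).cp h.isZ _ _) ((hd.pull _ _ _).cup h.deg _ _)).imp
      fun m k => h.bij.1 (by simp only [k, map_smul, LinearMap.smul_apply])
  · exact (ha.span _ ((hd.pull π E univ).cup h.deg _ _)).imp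
      fun m k => h.bij.1 (by simp only [k, map_smul, LinearMap.smul_apply])

/-- the integral over the fibre of an integral class is integral -/
theorem thZ_isZ_gys (h : ThZ π E Z U d τ) {e : H U univ} (g : GysD π E Z U τ d e)
    {c : H (E \ Z) univ} (hc : IsZ c) : IsZ (g.gys c) := by
  obtain ⟨t, -, k2, k3⟩ := h.thom ℤ
  obtain ⟨b, hb⟩ := isZ_iff.1 (hc.dl E Z)
  obtain ⟨a, rfl⟩ := k2.2 b
  rw [cc_cup, cc_pull, k3] at hb
  exact g.gys_eq.2 hb.symm ▸ isZ_cc a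

theorem thZ_gen_gys (h : ThZ π E Z U d τ) {e : H U univ} (g : GysD π E Z U τ d e)
    {c : H (E \ Z) univ} (hc : Gen (q + d - 1) c) (v : Van (q + d - 1) U univ)
    (v' : Van (q + d) U univ) : Gen q (g.gys c) := by
  have k := gen_dlt rfl GysD.aux hc (v.pul h.base) (by rw [sub_add_cancel]; exact v'.pul h.base)
  rw [sub_add_cancel, ← g.gys_spec] at k
  exact thZ_gen_of_mul h k

/-- a class with prescribed integral over the fibre -/
theorem thZ_exists_gys (h : ThZ π E Z U d τ) {e : H U univ} (g : GysD π E Z U τ d e)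
    (v : Van (q + d) U univ) {a : H U univ} (ha : IsZ a) (hd : IsDeg q a) :
    ∃ c : H (E \ Z) univ, IsZ c ∧ IsDeg (q + d - 1) c ∧ g.gys c = a := by
  obtain ⟨c, c1, c2, e⟩ := Van.exists_dlt (d := q + d - 1) rfl GysD.aux
    (by rw [sub_add_cancel]; exact v.pul h.base) ((ha.pul π E univ).cp h.isZ E Z)
    (by rw [sub_add_cancel]; exact (hd.pull _ _ _).cup h.deg _ _)
  exact ⟨c, c1, c2, g.gys_eq.2 e⟩

/-- integral classes with integral over the fibre zero come from integral classes of the base -/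
theorem thZ_desc (h : ThZ π E Z U d τ) {e : H U univ} (g : GysD π E Z U τ d e)
    (v : Tf (q + 1 - d) U univ) {c : H (E \ Z) univ} (hc : IsZ c) (hd : IsDeg q c)
    (k : g.gys c = 0) : ∃ a : H U univ, IsZ a ∧ IsDeg q a ∧ pull π (E \ Z) univ a = c := by
  obtain ⟨b, hb, rfl⟩ := hc.exists_deg hd
  obtain ⟨y, rfl⟩ := (TZ.exact_res_dlt rfl GysD.aux b).1 (h.tf v _ (hb.dlt E Z) (by
    rw [cc_dlt, g.gys_eq.1 k, map_zero, map_zero, LinearMap.zero_apply]))
  obtain ⟨a, rfl⟩ := (h.base.all ℤ).2 y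
  refine ⟨_, isZ_cc _, cc_deg (TZ.isDeg_prj q a), ?_⟩
  rw [← g.res_pull, ← cc_pull, ← cc_pull, TZ.pull_prj, TZ.pull_prj, TZ.isDeg_iff.1 hb]

/-- pull-back to the sphere bundle in degrees where the Thom classes do not contribute -/
theorem thZ_gen_sp (h : ThZ π E Z U d τ) {a : H U univ} (ha : Gen q a) (v : Van (q - d) U univ)
    (v' : Van (q + 1 - d) U univ) : Gen q (pull π (E \ Z) univ a) := by
  have k := gen_res rfl GysD.aux (ha.pul h.base) (h.van v) (h.van v')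
  rwa [pull_pull' (F := π) (ok_fgt sdiff_subset) h.base.ok fun _ _ => rfl] at k

theorem ZG_fgt {A B C : Set X} (h : A ⊆ B) : TZ.Ok id A univ B C := .id h fun _ _ _ => trivial

theorem ZG_cup {A : Set X} : TZ.CupOK A univ A univ A univ :=
  .of_subset subset_rfl subset_rfl fun _ _ _ k => k

theorem ZG_mul {R : Type} [CommRing R] {V A B : Set X} (hA : A ⊆ V) (hB : B ⊆ V)
    {a b : TZ.H R V univ} (ha : TZ.pull id A univ a = 0) (hb : TZ.pull id B univ b = 0) :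
    TZ.pull id (A ∪ B) univ (TZ.cup V univ a b) = 0 := by
  have s : A ∪ B ⊆ V := union_subset hA hB
  have key : ∀ {C : Set X} {c : TZ.H R V univ}, C ⊆ A ∪ B → TZ.pull id C univ c = 0 →
      ∃ x : TZ.H R (A ∪ B) Cᶜ, TZ.pull id (A ∪ B) univ x = TZ.pull id (A ∪ B) univ c :=
    fun {C c} h e => (TZ.exact_supp_res (U := A ∪ B) (Z := univ) (Z₁ := Cᶜ) (U₂ := C) (Z₂ := univ)
      (by rw [sdiff_compl]; exact inter_eq_right.2 h) (by simp) _).1
      (by rw [TZ.pull_pull' (F := id) (ZG_fgt h) (ZG_fgt s) fun _ _ => rfl, e])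
  obtain ⟨x, hx⟩ := key subset_union_left ha
  obtain ⟨y, hy⟩ := key subset_union_right hb
  rw [TZ.res_cup (ZG_fgt s) (ZG_fgt s) (ZG_fgt s) ZG_cup ZG_cup, ← hx, ← hy,
    ← TZ.res_cup (U := A ∪ B) (Z := ∅) (ZG_fgt subset_rfl) (ZG_fgt subset_rfl) (ZG_fgt subset_rfl)
      ZG_cup (.of_subset subset_rfl subset_rfl fun _ h h1 h2 => h.elim h1 h2),
    (TZ.subsingleton_H (disjoint_empty _)).elim (TZ.cup _ _ x y) 0, map_zero]

/-- vanishing by nilpotence of the Euler class -/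
theorem thZ_van_nil (h : ThZ π E Z U d τ) (hU : IsLocallyClosed U) {n : ℕ} {O : Fin n → Set Y}
    (hO : ∀ i, IsOpen (O i)) (cov : ∀ y ∈ U, ∃ i, y ∈ O i) {s : Fin n → Y → X}
    (hs : ∀ i, ContinuousOn (s i) (U ∩ O i)) (m : ∀ i, MapsTo (s i) (U ∩ O i) (E \ Z))
    (e : ∀ i, ∀ y ∈ U ∩ O i, π (s i y) = y)
    (v : ∀ j : ℕ, 1 ≤ j → j ≤ n → Van (q + j * d - 1) (E \ Z) univ) : Van q U univ := by
  intro R _ a ha
  obtain ⟨t, k1, k2, -⟩ := h.thom R
  have o := okZ h.base.ok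
  obtain ⟨ε, hε⟩ := (h.base.all R).2 (TZ.pull id E univ t)
  have dε : TZ.IsDeg d ε := TZ.isDeg_iff.2 ((h.base.all R).1 (by
    rw [TZ.pull_prj, hε, TZ.isDeg_iff.1 (k1.pull _ _ _)]))
  have inj : ∀ (p : ℤ) (b : TZ.H R U univ), TZ.IsDeg p b → Van (p + d - 1) (E \ Z) univ →
      TZ.cup U univ b ε = 0 → b = 0 := fun p b hb w k => by
    obtain ⟨c, hc⟩ := (TZ.exact_dlt_supp rfl GysD.aux (TZ.cup E Z (TZ.pull π E univ b) t)).1 (by
      rw [TZ.res_cup_out (ZG_fgt subset_rfl) (.of_subset subset_rfl subset_rfl fun _ _ _ k => k),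
        ← TZ.cup_res_right (ZG_fgt subset_rfl) ZG_cup, hε.symm,
        ← TZ.pull_cup' o o o (fun _ _ _ k => k) ZG_cup, k, map_zero])
    refine k2.1 ?_
    simp only [map_zero, LinearMap.zero_apply]
    rw [← TZ.isDeg_iff.1 ((hb.pull π E univ).cup k1 E Z), ← hc, ← TZ.dlt_prj (s := {p + d - 1})
      (fun _ => by simp only [mem_singleton_iff]; omega), w R _ (TZ.isDeg_prj _ c), map_zero]
  have loc : ∀ i, TZ.pull id (U ∩ O i) univ ε = 0 := fun i => by
    have x : TZ.Ext (s i) (U ∩ O i) := .of_continuousOn (hU.inter (hO i).isLocallyClosed) (hs i)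
    have o1 : TZ.Ok (s i) (U ∩ O i) univ E univ :=
      .of_mem x (fun y k => (m i k).1) fun _ _ _ => trivial
    have o2 : TZ.Ok (s i) (U ∩ O i) ∅ E Z := .of_mem x (fun y k => (m i k).1) fun y k => (m i k).2
    rw [← TZ.pull_pull' (F := id) o1 o (e i), hε, TZ.pull_pull' (F := s i) o1 (ZG_fgt subset_rfl) fun _ _ => rfl,
      ← TZ.pull_pull' (F := s i) (ZG_fgt subset_rfl) o2 fun _ _ => rfl,
      (TZ.subsingleton_H (disjoint_empty _)).elim (TZ.pull (s i) (U ∩ O i) ∅ t) 0, map_zero]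
  obtain ⟨A, A0, A1⟩ : ∃ A : ℕ → TZ.H R U univ, A 0 = a ∧ ∀ j, A (j + 1) = TZ.cup U univ (A j) ε :=
    ⟨fun j => Nat.rec a (fun _ b => TZ.cup U univ b ε) j, rfl, fun _ => rfl⟩
  have dA : ∀ j : ℕ, TZ.IsDeg (q + j * d) (A j) := fun j => by
    induction j with
    | zero => rwa [A0, Nat.cast_zero, zero_mul, add_zero]
    | succ j ih => rw [A1, Nat.cast_succ, add_mul, one_mul, ← add_assoc]; exact ih.cup dε _ _
  have down : ∀ j, j ≤ n → A j = 0 → a = 0 := fun j => by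
    induction j with
    | zero => exact fun _ k => A0 ▸ k
    | succ j ih =>
      refine fun hj k => ih (by omega) (inj _ _ (dA j) ?_ (A1 j ▸ k))
      have := v (j + 1) (by omega) hj
      rwa [Nat.cast_succ, add_mul, one_mul, ← add_assoc] at this
  have up : ∀ j, j ≤ n →
      TZ.pull id {y | y ∈ U ∧ ∃ i : Fin n, (i : ℕ) < j ∧ y ∈ O i} univ (A j) = 0 := fun j => by
    induction j with
    | zero =>
      exact fun _ => (TZ.subsingleton_H (disjoint_left.2 fun y k _ =>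
        k.2.elim fun i k => k.1.not_ge (Nat.zero_le _))).elim _ _
    | succ j ih =>
      intro hj
      have e1 : {y | y ∈ U ∧ ∃ i : Fin n, (i : ℕ) < j + 1 ∧ y ∈ O i} =
          {y | y ∈ U ∧ ∃ i : Fin n, (i : ℕ) < j ∧ y ∈ O i} ∪ U ∩ O ⟨j, hj⟩ := by
        refine Subset.antisymm (fun y ⟨k, i, k1, k2⟩ => ?_) (union_subset
          (fun y ⟨k, i, k1, k2⟩ => ⟨k, i, by omega, k2⟩) fun y k => ⟨k.1, _, Nat.lt_succ_self j, k.2⟩)
        rcases Nat.lt_succ_iff_lt_or_eq.1 k1 with k3 | rfl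
        exacts [.inl ⟨k, i, k3, k2⟩, .inr ⟨k, k2⟩]
      rw [e1, A1]
      exact ZG_mul (fun _ k => k.1) inter_subset_left (ih (by omega)) (loc _)
  have e2 : {y | y ∈ U ∧ ∃ i : Fin n, (i : ℕ) < n ∧ y ∈ O i} = U :=
    Subset.antisymm (fun _ k => k.1) fun y k => ⟨k, (cov y k).imp fun i k => ⟨i.2, k⟩⟩
  have := up n le_rfl
  rw [e2, TZ.pull_id] at this
  exact down n le_rfl this

end Pool.Agent.Work.MP_8c604c_gt.OT
end
end
end
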