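import Pool.Agent.Work.MP_8c604c_gt.T.Deg
import Pool.Agent.Work.MP_8c604c_gt.T.Orient
import Pool.Agent.Work.MP_8c604c_gt.OG.GeoA
import Pool.Agent.Work.MP_8c604c_gt.OG.ZG
import Pool.Agent.Work.MP_8c604c_gt.OT.Cut
import Pool.Agent.Work.MP_8c604c_gt.T.ThF

-- merged part: Pool.Agent.Work.MP_8c604c_gt.OG.Sgn
section
/-!
Sign cocycles are trivial on a compact set with vanishing first cohomology (owner helper4).
Hints.  Use `v (ZMod 2)`.  By compactness there are finitely many compact `C a ⊆ B ∩ U (j a)` covering `B`; choose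
`i x` among the `a` with `x ∈ C a`; `r` from `TZ.exists_retr`.  Let `s t : ZMod 2` be `0` for `0 < t` and `1` otherwise.
The cochain `φ [x, y] = s (d (j (i (r x))) (j (i (r y))) (r y))`, zero on other lists, is in `TZ.Zc (ZMod 2) B univ`: near
`b ∈ B` only indices `a` with `b ∈ C a` occur, and the finitely many `d (j a) (j a')` have constant sign near `b` in `B`.
Its class has degree one, so `TZ.cls_eq_zero` gives `ψ` with `φ [x, y] = ψ [y] - ψ [x]` for `x y` near `b`.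
Take `σ k x = (-1) ^ (ψ [x]) * sign (d k (j (i x)) x)`; it is locally constant on `B ∩ U k`.
-/

noncomputable section

namespace Pool.Agent.Work.MP_8c604c_gt.OT

open Set Topology Pool.Agent.Work.MP_849ab0_ag.G T

/-- the sign as an element of `ZMod 2` -/
def Sgn_s (t : ℝ) : ZMod 2 := if 0 < t then 0 else 1

theorem Sgn_coc {a b c : ℝ} (h : 0 < a * b * c) : Sgn_s a + Sgn_s b + Sgn_s c = 0 := by
  have ha : a ≠ 0 := fun e => by simp [e] at h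
  have hb : b ≠ 0 := fun e => by simp [e] at h
  have hc : c ≠ 0 := fun e => by simp [e] at h
  unfold Sgn_s
  rcases lt_or_gt_of_ne ha with h1 | h1 <;> rcases lt_or_gt_of_ne hb with h2 | h2 <;>
    rcases lt_or_gt_of_ne hc with h3 | h3 <;>
    simp only [h1, h2, h3, h1.not_gt, h2.not_gt, h3.not_gt, if_true, if_false] <;>
    first
      | decide
      | exact absurd h (not_lt.2 (mul_neg_of_pos_of_neg (mul_pos_of_neg_of_neg h1 h2) h3).le)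
      | exact absurd h (not_lt.2 (mul_neg_of_neg_of_pos (mul_neg_of_neg_of_pos h1 h2) h3).le)
      | exact absurd h (not_lt.2 (mul_neg_of_neg_of_pos (mul_neg_of_pos_of_neg h1 h2) h3).le)
      | exact absurd h (not_lt.2 (mul_neg_of_pos_of_neg (mul_pos h1 h2) h3).le)

theorem Sgn_fin {u v : ZMod 2} {t : ℝ} (ht : t ≠ 0) (h : u + v + Sgn_s t = 0) :
    0 < (if u = 0 then (1 : ℝ) else -1) * (if v = 0 then (1 : ℝ) else -1) * t := by
  unfold Sgn_s at h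
  rcases lt_or_gt_of_ne ht with h1 | h1
  · rw [if_neg h1.not_gt] at h
    have : (u = 0 ∧ v ≠ 0) ∨ (u ≠ 0 ∧ v = 0) := by
      revert u v
      decide
    rcases this with ⟨e, e'⟩ | ⟨e, e'⟩ <;> simp [e, e', h1]
  · rw [if_pos h1] at h
    have : (u = 0 ∧ v = 0) ∨ (u ≠ 0 ∧ v ≠ 0) := by
      revert u v
      decide
    rcases this with ⟨e, e'⟩ | ⟨e, e'⟩ <;> simp [e, e', h1]

theorem Sgn_loc {X : Type} [TopologicalSpace X] {B U U' : Set X} {f : X → ℝ} (hU : IsOpen U)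
    (hU' : IsOpen U') (hf : ContinuousOn f (B ∩ U ∩ U')) {b : X} (hb : b ∈ B) (h1 : b ∈ U)
    (h2 : b ∈ U') (h0 : f b ≠ 0) : ∀ᶠ x in 𝓝[B] b, Sgn_s (f x) = Sgn_s (f b) := by
  have h3 : ContinuousWithinAt f B b :=
    (hf b ⟨⟨hb, h1⟩, h2⟩).mono_of_mem_nhdsWithin (Filter.inter_mem
      (inter_mem_nhdsWithin B (hU.mem_nhds h1)) (mem_nhdsWithin_of_mem_nhds (hU'.mem_nhds h2)))
  unfold Sgn_s
  rcases lt_or_gt_of_ne h0 with h | h
  · filter_upwards [h3.eventually (gt_mem_nhds h)] with x hx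
    rw [if_neg h.not_gt, if_neg hx.not_gt]
  · filter_upwards [h3.eventually (lt_mem_nhds h)] with x hx
    rw [if_pos h, if_pos hx]

theorem Sgn_idx {X : Type} [TopologicalSpace X] [RegularSpace X] {B : Set X} (hB : IsCompact B)
    {r : X → X} (r1 : ∀ x, r x ∈ B) (r2 : ∀ x ∈ B, r x = x) (r3 : ∀ x ∈ B, ContinuousAt r x)
    {ι : Type} {U : ι → Set X} (hU : ∀ i, IsOpen (U i)) (cov : ∀ x ∈ B, ∃ i, x ∈ U i) :
    ∃ i : X → ι, (range i).Finite ∧ (∀ x, r x ∈ U (i x)) ∧ ∀ b ∈ B, ∀ᶠ x in 𝓝 b, b ∈ U (i x) := by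
  have h1 : ∀ x ∈ B, ∃ (j : ι) (C : Set X), C ∈ 𝓝 x ∧ IsClosed C ∧ C ⊆ U j := fun x hx => by
    obtain ⟨j, hj⟩ := cov x hx
    exact ⟨j, exists_mem_nhds_isClosed_subset ((hU j).mem_nhds hj)⟩
  choose j C hC1 hC2 hC3 using h1
  obtain ⟨t, ht⟩ := hB.elim_nhds_subcover' C hC1
  have h2 : ∀ x, ∃ a ∈ t, r x ∈ C a.1 a.2 := fun x => by
    simpa only [mem_iUnion, exists_prop] using ht (r1 x)
  choose a ha1 ha2 using h2
  refine ⟨fun x => j (a x).1 (a x).2, ?_, fun x => hC3 _ _ (ha2 x), fun b hb => ?_⟩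
  · refine (t.finite_toSet.image fun a : B => j a.1 a.2).subset ?_
    rintro _ ⟨x, rfl⟩
    exact ⟨a x, ha1 x, rfl⟩
  · have h3 : ∀ᶠ x in 𝓝 b, ∀ c ∈ t, r x ∈ C c.1 c.2 → b ∈ C c.1 c.2 := by
      refine (Filter.eventually_all_finset t).2 fun c _ => ?_
      by_cases h : b ∈ C c.1 c.2
      · exact Filter.Eventually.of_forall fun _ _ => h
      · have h4 : (C c.1 c.2)ᶜ ∈ 𝓝 (r b) := by
          rw [r2 b hb]
          exact (hC2 _ _).isOpen_compl.mem_nhds h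
        filter_upwards [(r3 b hb).eventually h4] with x hx k using absurd k hx
    filter_upwards [h3] with x hx using hC3 _ _ (hx _ (ha1 x) (ha2 x))

/-- a cochain of degree one -/
def Sgn_two {X : Type} (f : X → X → ZMod 2) : List X → ZMod 2
  | [x, y] => f x y
  | _ => 0

theorem Sgn_two_zero {X : Type} (f : X → X → ZMod 2) {l : List X} (h : l.length ≠ 2) :
    Sgn_two f l = 0 := by
  match l, h with
  | [], _ => rfl
  | [_], _ => rfl
  | [_, _], h => exact absurd rfl h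
  | _ :: _ :: _ :: _, _ => rfl

theorem Sgn_dl2 {X : Type} (ψ : List X → ZMod 2) (x y : X) : TZ.dl ψ [x, y] = ψ [y] - ψ [x] := by
  simp [TZ.dl_apply, Finset.sum_range_succ, sub_eq_add_neg]

theorem Sgn_dl3 {X : Type} (ψ : List X → ZMod 2) (x y z : X) :
    TZ.dl ψ [x, y, z] = ψ [y, z] - ψ [x, z] + ψ [x, y] := by
  simp [TZ.dl_apply, Finset.sum_range_succ, sub_eq_add_neg]

theorem sgnTriv_of_van {X : Type} [TopologicalSpace X] [T2Space X] [RegularSpace X]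
    [SecondCountableTopology X] {B : Set X} (hB : IsCompact B) (v : Van 1 B univ) : SgnTriv B := by
  intro ι U d hU cov hc hm
  rcases B.eq_empty_or_nonempty with rfl | hne
  · exact ⟨fun _ _ => 1, fun _ => continuousOn_const, fun _ _ => Or.inl rfl, fun _ _ _ h => h.elim⟩
  obtain ⟨r, r1, r2, r3⟩ := TZ.exists_retr hB.isClosed.isLocallyClosed hne
  obtain ⟨i, hF, hi, hb⟩ := Sgn_idx hB r1 r2 r3 hU cov
  have ne : ∀ k k', ∀ x ∈ B, x ∈ U k → x ∈ U k' → d k k' x ≠ 0 := fun k k' x hx h1 h2 e => by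
    have := hm k k' k' x hx h1 h2 h2
    rw [e] at this
    simp at this
  have hi' : ∀ x ∈ B, x ∈ U (i x) := fun x hx => by simpa only [r2 x hx] using hi x
  have hL : ∀ b ∈ B, ∀ᶠ y in 𝓝 b, b ∈ U (i y) ∧ ∀ k ∈ range i, ∀ k' ∈ range i, b ∈ U k → b ∈ U k' →
      Sgn_s (d k k' (r y)) = Sgn_s (d k k' b) := fun b hbB => by
    refine (hb b hbB).and ((Filter.eventually_all_finite hF).2 fun k _ =>
      (Filter.eventually_all_finite hF).2 fun k' _ => ?_)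
    by_cases h1 : b ∈ U k
    · by_cases h2 : b ∈ U k'
      · have h3 : Filter.Tendsto r (𝓝 b) (𝓝[B] b) :=
          tendsto_nhdsWithin_iff.2 ⟨by simpa only [ContinuousAt, r2 b hbB] using r3 b hbB,
            Filter.Eventually.of_forall r1⟩
        filter_upwards [h3.eventually (Sgn_loc (hU k) (hU k') (hc k k') hbB h1 h2 (ne k k' b hbB h1 h2))]
          with y hy _ _ using hy
      · exact Filter.Eventually.of_forall fun _ _ k => absurd k h2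
    · exact Filter.Eventually.of_forall fun _ k => absurd k h1
  obtain ⟨φ, hφ⟩ : ∃ φ, φ = Sgn_two fun x y => Sgn_s (d (i x) (i y) (r y)) := ⟨_, rfl⟩
  have h0 : ∀ l : List X, l.length ≠ 2 → φ l = 0 := fun l hl => hφ ▸ Sgn_two_zero _ hl
  have h2 : ∀ x y, φ [x, y] = Sgn_s (d (i x) (i y) (r y)) := fun x y => hφ ▸ rfl
  have hz : φ ∈ TZ.Zc (ZMod 2) B univ := by
    refine TZ.mem_Zc.2 ⟨⟨h0 _ (by simp), 2, fun l hl => h0 l hl.ne'⟩, fun b hbB => ⟨_, hL b hbB, fun l hl => ?_⟩,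
      fun x hx => absurd trivial hx.2⟩
    by_cases h3 : l.length = 3
    · obtain ⟨x, y, z, rfl⟩ := List.length_eq_three.1 h3
      have hx := hl x (by simp)
      have hy := hl y (by simp)
      have hz := hl z (by simp)
      rw [Sgn_dl3, h2, h2, h2, hz.2 _ ⟨y, rfl⟩ _ ⟨z, rfl⟩ hy.1 hz.1, hz.2 _ ⟨x, rfl⟩ _ ⟨z, rfl⟩ hx.1 hz.1,
        hy.2 _ ⟨x, rfl⟩ _ ⟨y, rfl⟩ hx.1 hy.1]
      have := Sgn_coc (hm _ _ _ b hbB hx.1 hy.1 hz.1)
      revert this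
      generalize Sgn_s (d (i x) (i y) b) = p
      generalize Sgn_s (d (i y) (i z) b) = q
      generalize Sgn_s (d (i x) (i z) b) = w
      revert p q w
      decide
    · exact (TZ.dl_congr (ψ := 0) fun m e _ => h0 m (by omega)).trans (by simp)
  obtain ⟨ψ, -, -, hψ⟩ := (TZ.cls_eq_zero hz).1
    (v (ZMod 2) _ ⟨φ, hz, rfl, fun l hl => h0 l (by omega)⟩)
  refine ⟨fun k x => if ψ [x] + Sgn_s (d k (i x) x) = 0 then 1 else -1, fun k b hbk => ?_,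
    fun k x => ?_, fun k k' x hx h1 h1' => Sgn_fin (ne k k' x hx h1 h1') ?_⟩
  · obtain ⟨V, hV, hV'⟩ := hψ b hbk.1
    refine ContinuousWithinAt.congr_of_eventuallyEq continuousWithinAt_const ?_ rfl
    filter_upwards [self_mem_nhdsWithin, mem_nhdsWithin_of_mem_nhds hV,
      mem_nhdsWithin_of_mem_nhds ((hU _).mem_nhds (hi' b hbk.1)),
      nhdsWithin_mono b inter_subset_left (Sgn_loc (hU k) (hU (i b)) (hc _ _) hbk.1 hbk.2 (hi' b hbk.1)
        (ne _ _ b hbk.1 hbk.2 (hi' b hbk.1)))] with x hx hxV hxb e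
    have h3 := hV' [b, x] (by simp [hxV, mem_of_mem_nhds hV])
    rw [Pi.sub_apply, Sgn_dl2, h2, r2 x hx.1] at h3
    have h4 := Sgn_coc (hm _ _ _ x hx.1 hx.2 hxb (hi' x hx.1))
    have h5 : ψ [x] + Sgn_s (d k (i x) x) = ψ [b] + Sgn_s (d k (i b) b) := by
      rw [← show Sgn_s (d k (i b) x) = Sgn_s (d k (i b) b) from e]
      revert h3 h4
      generalize Sgn_s (d k (i b) x) = p
      generalize Sgn_s (d (i b) (i x) x) = q
      generalize Sgn_s (d k (i x) x) = w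
      generalize ψ [x] = u
      generalize ψ [b] = u'
      revert p q w u u'
      decide
    simp only [h5]
  · by_cases h : ψ [x] + Sgn_s (d k (i x) x) = 0 <;> simp [h]
  · have h4 := Sgn_coc (hm _ _ _ x hx h1 h1' (hi' x hx))
    revert h4
    generalize Sgn_s (d k k' x) = p
    generalize Sgn_s (d k' (i x) x) = q
    generalize Sgn_s (d k (i x) x) = w
    generalize ψ [x] = u
    revert p q w u
    decide

end Pool.Agent.Work.MP_8c604c_gt.OT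
end
end

-- merged part: Pool.Agent.Work.MP_8c604c_gt.OG.MB
section
-- merged part: Pool.Agent.Work.MP_8c604c_gt.OG.GeoB
section
/-!
Point set geometry, part B: the homeomorphisms `G : 𝕄.Tt → Nb` and `Th : totR WF F → 𝕄.Od`, and
the bundles `WF`, `W`, `VV`.
-/

set_option linter.unusedSectionVars false

noncomputable section

namespace Pool.Agent.Work.MP_8c604c_gt.OT

open Set Real T

variable {V : Type} [NormedAddCommGroup V] [InnerProductSpace ℝ V] [FiniteDimensional ℝ V]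
  {𝕄 : Mf V} {k : ℕ}

/-- a closed family of subspaces of constant dimension is a bundle -/
theorem rb_of_closed {X A : Type} [TopologicalSpace X] [NormedAddCommGroup A]
    [InnerProductSpace ℝ A] [FiniteDimensional ℝ A] {U : Set X} (hU : IsClosed U)
    {V : X → Submodule ℝ A} {r : ℕ} (hr : ∀ x ∈ U, Module.finrank ℝ (V x) = r)
    (hc : IsClosed {z : X × A | z.1 ∈ U ∧ z.2 ∈ V z.1}) :
    RB (fun x => (V x).starProjection) r U := by
  refine ⟨hU.isLocallyClosed, geob_proj_cont hr hc, fun x _ a =>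
    Submodule.starProjection_eq_self_iff.2 ((V x).starProjection_apply_mem a), fun x hx => ?_⟩
  rw [Submodule.range_starProjection]
  exact hr x hx

theorem geob_tan_smul {p X : V} (h : 𝕄.Tan p X) (s : ℝ) : 𝕄.Tan p (s • X) := h.rsmul s

theorem geob_tan_zero {p : V} (h : p ∈ 𝕄.M) : 𝕄.Tan p 0 := ⟨h, map_zero _⟩

theorem geob_t1 {r : ℝ} (hr : 0 < r) : π / 2 * (r / (1 + r)) ∈ Ioo 0 (π / 2) := by
  have := pi_pos
  refine ⟨by positivity, mul_lt_of_lt_one_right (by positivity) ?_⟩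
  rw [div_lt_one (by positivity)]
  linarith

theorem geob_t2 {r : ℝ} (hr : 0 ≤ r) : π / 2 / (1 + r) ∈ Ioc 0 (π / 2) := by
  have := pi_pos
  exact ⟨by positivity, div_le_self (by positivity) (by linarith)⟩

theorem geob_t3 {r : ℝ} (hr : 0 < r) : π / 2 / (1 + r) ∈ Ioo 0 (π / 2) := by
  have := pi_pos
  exact ⟨by positivity, div_lt_self (by positivity) (by linarith)⟩

namespace TD0

variable (D : TD0 𝕄 k)

/-- the velocity is bounded above and below -/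
theorem geob_vel : ∃ m M : ℝ, ∀ c ∈ D.S, 1 ≤ m * ‖D.vel c‖ ∧ ‖D.vel c‖ ≤ M := by
  obtain ⟨M, hM⟩ := D.cpt.exists_bound_of_continuousOn D.cvel
  obtain ⟨m, hm⟩ := D.cpt.exists_bound_of_continuousOn
    (D.cvel.norm.inv₀ fun c hc => norm_ne_zero_iff.2 (D.vne c hc))
  refine ⟨m, M, fun c hc => ⟨?_, hM c hc⟩⟩
  have k : ‖D.vel c‖⁻¹ ≤ m := (le_abs_self _).trans (hm c hc)
  have n0 := norm_pos_iff.2 (D.vne c hc)
  rwa [inv_le_iff_one_le_mul₀ n0] at k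

theorem geob_le {m : ℝ} {c : LM V} (h : 1 ≤ m * ‖D.vel c‖) {r : ℝ} (hr : 0 ≤ r) :
    r ≤ m * ‖r • D.vel c‖ := by
  rw [norm_smul, Real.norm_of_nonneg hr]
  nlinarith

theorem geob_cvel : ContinuousOn (fun z : LM V × ℝ => D.vel z.1) (D.S ×ˢ Ici 0) :=
  D.cvel.comp continuousOn_fst fun _ h => h.1

theorem geob_cen : Continuous fun z : LM V × ℝ => D.en z.1 := by
  unfold en
  fun_prop

theorem geob_G0 {y : V × V} (h : y.2 = 0) : D.G y = (y.1, y.1) := if_pos h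

theorem geob_G_eq {c : LM V} (hc : c ∈ D.S) {r : ℝ} (hr : 0 ≤ r) :
    D.G (c 1, r • D.vel c) = (c 1, c (cs (π / 2 * (r / (1 + r))))) := by
  rcases hr.eq_or_lt with rfl | hr
  · rw [D.geob_G0 (zero_smul _ _), zero_div, mul_zero, cs_zero]
  · unfold G
    rw [if_neg (smul_ne_zero hr.ne' (D.vne c hc)), pt, (D.gc_eq hc hr).1, (D.gc_eq hc hr).2]

/-- nonzero tangent vectors -/
theorem geob_Tt {y : V × V} (h : y ∈ 𝕄.Tt) (h0 : y.2 ≠ 0) :
    ∃ c ∈ D.S, ∃ r : ℝ, 0 < r ∧ y = (c 1, r • D.vel c) := by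
  obtain ⟨c, hc, e, r, hr, k⟩ := D.ex y.1 y.2 h h0
  exact ⟨c, hc, r, hr, Prod.ext e.symm k⟩

/-- pairs of distinct points -/
theorem geob_Od {y : V × V} (h : y ∈ 𝕄.Od) :
    y = (D.lc y 1, D.lc y (cs (D.lt y))) := by
  obtain ⟨-, e, -, k⟩ := D.lc_spec h
  exact Prod.ext e.symm k.symm

theorem geob_lt0 {y : V × V} (h : y ∈ Dg V) : D.lt y = 0 := by
  unfold lt lct
  rw [if_pos (show y.1 = y.2 from h)]

theorem cont_G : ContinuousOn D.G 𝕄.Tt := by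
  obtain ⟨m, M, hm⟩ := D.geob_vel
  have hπ : ContinuousOn (fun z : LM V × ℝ => (z.1 1, z.2 • D.vel z.1)) (D.S ×ˢ Ici 0) :=
    ContinuousOn.prodMk (by fun_prop) (continuousOn_snd.smul D.geob_cvel)
  have hN : Continuous fun y : V × V => m * ‖y.2‖ := by fun_prop
  have hb : ∀ c ∈ D.S, ∀ r : ℝ, 0 ≤ r → r ≤ m * ‖r • D.vel c‖ :=
    fun c hc r hr => D.geob_le (hm c hc).1 hr
  have hG : ContinuousOn (fun z : LM V × ℝ => (z.1 1, z.1 (cs (π / 2 * (z.2 / (1 + z.2))))))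
      (D.S ×ˢ Ici 0) := by
    refine ContinuousOn.prodMk (by fun_prop) (continuousOn_fst.eval
      (continuous_cs.comp_continuousOn (continuousOn_const.mul
        (continuousOn_snd.div (by fun_prop) fun z hz => ?_))))
    have : (0 : ℝ) ≤ z.2 := hz.2
    positivity
  have c1 := geob_cone_cont D.cpt hπ hN hb (f := D.G) hG fun c hc r hr => D.geob_G_eq hc hr
  have c2 : ContinuousOn D.G {y | y.2 = 0} :=
    (continuous_fst.prodMk continuous_fst).continuousOn.congr fun y hy => D.geob_G0 hy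
  refine (c1.union_of_isClosed c2 (geob_cone_closed D.cpt hπ hN hb)
    (isClosed_eq continuous_snd continuous_const)).mono fun y hy => ?_
  by_cases h0 : y.2 = 0
  · exact Or.inr h0
  · obtain ⟨c, hc, r, hr, e⟩ := D.geob_Tt hy h0
    exact Or.inl ⟨(c, r), ⟨hc, hr.le⟩, e.symm⟩

theorem G_mem : MapsTo D.G 𝕄.Tt D.Nb := by
  intro y hy
  by_cases h0 : y.2 = 0
  · rw [D.geob_G0 h0]
    exact D.Dg_sub ⟨hy.1, hy.1⟩ rfl
  · obtain ⟨c, hc, r, hr, rfl⟩ := D.geob_Tt hy h0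
    have t := geob_t1 hr
    have k := D.not_cut hc (s := 0) (t := π / 2 * (r / (1 + r)))
      (by rw [sub_zero, abs_of_pos t.1]; exact t.2)
    rw [cs_zero] at k
    rw [D.geob_G_eq hc hr.le]
    exact k

theorem G_fst (y : V × V) : (D.G y).1 = y.1 := by
  unfold G
  split_ifs <;> rfl

theorem G_dg {y : V × V} (h : y ∈ 𝕄.Tt) : D.G y ∈ Dg V ↔ y.2 = 0 := by
  refine ⟨fun k => by_contra fun h0 => ?_, fun h0 => by rw [D.geob_G0 h0]; rfl⟩
  obtain ⟨c, hc, r, hr, rfl⟩ := D.geob_Tt h h0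
  rw [D.geob_G_eq hc hr.le] at k
  exact D.ne c hc _ (Ioo_subset_Ioc_self (geob_t1 hr)) (Eq.symm k)

theorem G_vel {c : LM V} (hc : c ∈ D.S) : D.G (c 1, D.vel c) = D.j0 c := by
  have k := D.geob_G_eq hc zero_le_one
  rw [one_smul, show π / 2 * (1 / (1 + 1)) = π / 4 by ring] at k
  exact k

theorem cont_Gi : ContinuousOn D.Gi D.Nb := by
  obtain ⟨m, M, hm⟩ := D.geob_vel
  have cl : ContinuousOn D.lt D.Nb := D.cont_lt.mono sdiff_subset
  have ms : ∀ y ∈ D.Nb \ Dg V, D.lc y ∈ D.S := fun y hy => (D.lc_spec ⟨hy.1.1, hy.2⟩).1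
  refine continuousOn_fst.prodMk (geob_smul_cont isClosed_Dg'
    (cl.div (continuousOn_const.sub cl) fun y hy => (sub_pos.2 (D.lt_lt hy).2).ne')
    (D.cvel.comp D.cont_lc ms) (fun y _ hy => ?_) fun y hy => (hm _ (ms y hy)).2)
  show D.lt y / _ = 0
  rw [D.geob_lt0 hy, zero_div]

theorem geob_Gi0 {y : V × V} (h : y ∈ Dg V) : D.Gi y = (y.1, 0) := by
  unfold Gi
  rw [D.geob_lt0 h, zero_div, zero_smul]

theorem Gi_mem : MapsTo D.Gi D.Nb 𝕄.Tt := by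
  intro y hy
  by_cases h0 : y ∈ Dg V
  · rw [D.geob_Gi0 h0]
    exact geob_tan_zero hy.1.1
  · obtain ⟨hc, e, -, -⟩ := D.lc_spec ⟨hy.1, h0⟩
    have k := D.tan _ hc
    rw [e] at k
    exact geob_tan_smul k _

theorem Gi_G {y : V × V} (h : y ∈ 𝕄.Tt) : D.Gi (D.G y) = y := by
  by_cases h0 : y.2 = 0
  · rw [D.geob_G0 h0, D.geob_Gi0 rfl]
    exact Prod.ext rfl h0.symm
  · obtain ⟨c, hc, r, hr, rfl⟩ := D.geob_Tt h h0
    have t := geob_t1 hr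
    have := pi_pos
    rw [D.geob_G_eq hc hr.le, Gi, D.lt_eq hc (Ioo_subset_Icc_self t), D.lc_eq hc t]
    have e : π / 2 * (r / (1 + r)) / (π / 2 - π / 2 * (r / (1 + r))) = r := by
      rw [div_eq_iff (sub_pos.2 t.2).ne']
      field_simp
      ring
    rw [e]

theorem G_Gi {y : V × V} (h : y ∈ D.Nb) : D.G (D.Gi y) = y := by
  by_cases h0 : y ∈ Dg V
  · rw [D.geob_Gi0 h0, D.geob_G0 rfl]
    exact Prod.ext rfl h0
  · obtain ⟨hc, e, t, e2⟩ := D.lc_spec ⟨h.1, h0⟩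
    have t2 := sub_pos.2 (D.lt_lt h).2
    have := pi_pos
    have k := D.geob_G_eq hc (div_pos t.1 t2).le
    have e3 : π / 2 * (D.lt y / (π / 2 - D.lt y) / (1 + D.lt y / (π / 2 - D.lt y))) = D.lt y := by
      rw [one_add_div t2.ne', sub_add_cancel, div_div_div_cancel_right₀ t2.ne']
      field_simp
    rw [e3, e, e2] at k
    exact k

/-- the linking space of a pair of cut points -/
theorem geob_link {y : V × V} (h : y ∈ D.F) :
    ∃ W : Submodule ℝ (V × V), Module.finrank ℝ W = k + 1 ∧ ∀ Y, Y ∈ W ↔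
      ∃ c ∈ D.S, D.en c = y ∧ ∃ r : ℝ, 0 ≤ r ∧
        Y = r • (D.vel c, D.vel (sh (cs (π / 2)) c)) := by
  obtain ⟨c, hc, e1, e2⟩ := h
  obtain ⟨W, hV, H⟩ := D.link c hc
  refine ⟨W, hV, fun Y => (H Y).trans (exists_congr fun c' => and_congr_right fun _ =>
    and_congr_left fun _ => ?_)⟩
  rw [Lk, e1, e2, en, Prod.ext_iff]

theorem geob_Ws {y : V × V} {W : Submodule ℝ (V × V)} (H : ∀ Y, Y ∈ W ↔
      ∃ c ∈ D.S, D.en c = y ∧ ∃ r : ℝ, 0 ≤ r ∧ Y = r • (D.vel c, D.vel (sh (cs (π / 2)) c))) :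
    D.Ws y = W.map (LinearMap.fst ℝ _ _) := by
  refine le_antisymm (Submodule.span_le.2 ?_) ?_
  · rintro _ ⟨c, hc, e1, e2, rfl⟩
    exact ⟨_, (H _).2 ⟨c, hc, Prod.ext e1 e2, 1, zero_le_one, (one_smul _ _).symm⟩, rfl⟩
  · rintro _ ⟨Y, hY, rfl⟩
    obtain ⟨c, hc, e, r, -, rfl⟩ := (H Y).1 hY
    exact Submodule.smul_mem _ r (Submodule.subset_span
      ⟨c, hc, congrArg Prod.fst e, congrArg Prod.snd e, rfl⟩)

theorem geob_Vs {y : V × V} {W : Submodule ℝ (V × V)} (H : ∀ Y, Y ∈ W ↔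
      ∃ c ∈ D.S, D.en c = y ∧ ∃ r : ℝ, 0 ≤ r ∧ Y = r • (D.vel c, D.vel (sh (cs (π / 2)) c))) :
    D.Vs y = W.map (WithLp.linearEquiv 2 ℝ (V × V)).symm.toLinearMap := by
  refine le_antisymm (Submodule.span_le.2 ?_) ?_
  · rintro _ ⟨c, hc, e1, e2, rfl⟩
    exact ⟨_, (H _).2 ⟨c, hc, Prod.ext e1 e2, 1, zero_le_one, (one_smul _ _).symm⟩, rfl⟩
  · rintro _ ⟨Y, hY, rfl⟩
    obtain ⟨c, hc, e, r, -, rfl⟩ := (H Y).1 hY
    rw [map_smul]
    exact Submodule.smul_mem _ r (Submodule.subset_span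
      ⟨c, hc, congrArg Prod.fst e, congrArg Prod.snd e, rfl⟩)

theorem mem_Ws {y : V × V} (h : y ∈ D.F) {X : V} : X ∈ D.Ws y ↔
    ∃ c ∈ D.S, D.en c = y ∧ ∃ r : ℝ, 0 ≤ r ∧ X = r • D.vel c := by
  obtain ⟨W, -, H⟩ := D.geob_link h
  rw [D.geob_Ws H]
  constructor
  · rintro ⟨Y, hY, rfl⟩
    obtain ⟨c, hc, e, r, hr, rfl⟩ := (H Y).1 hY
    exact ⟨c, hc, e, r, hr, rfl⟩
  · rintro ⟨c, hc, e, r, hr, rfl⟩
    exact ⟨_, (H _).2 ⟨c, hc, e, r, hr, rfl⟩, rfl⟩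

theorem mem_Vs {y : V × V} (h : y ∈ D.F) {X : AA V} : X ∈ D.Vs y ↔
    ∃ c ∈ D.S, D.en c = y ∧ ∃ r : ℝ, 0 ≤ r ∧
      X = r • WithLp.toLp 2 (D.vel c, D.vel (sh (cs (π / 2)) c)) := by
  obtain ⟨W, -, H⟩ := D.geob_link h
  rw [D.geob_Vs H]
  constructor
  · rintro ⟨Y, hY, rfl⟩
    obtain ⟨c, hc, e, r, hr, rfl⟩ := (H Y).1 hY
    exact ⟨c, hc, e, r, hr, rfl⟩
  · rintro ⟨c, hc, e, r, hr, rfl⟩
    exact ⟨_, (H _).2 ⟨c, hc, e, r, hr, rfl⟩, rfl⟩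

theorem WF_eq {y : V × V} {X : V} : D.WF y X = X ↔ X ∈ D.Ws y :=
  Submodule.starProjection_eq_self_iff

theorem VV_eq {y : V × V} {X : AA V} : D.VV y X = X ↔ X ∈ D.Vs y :=
  Submodule.starProjection_eq_self_iff

theorem geob_rkW {y : V × V} (h : y ∈ D.F) : Module.finrank ℝ (D.Ws y) = k + 1 := by
  obtain ⟨W, hV, H⟩ := D.geob_link h
  rw [D.geob_Ws H, ← LinearMap.range_domRestrict, LinearMap.finrank_range_of_inj, hV]
  rw [injective_iff_map_eq_zero]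
  rintro ⟨Y, hY⟩ e
  obtain ⟨c, hc, -, r, -, rfl⟩ := (H Y).1 hY
  have e2 : r • D.vel c = 0 := e
  have e3 : r = 0 := (smul_eq_zero.1 e2).resolve_right (D.vne c hc)
  subst e3
  exact Subtype.ext (zero_smul _ _)

theorem geob_rkV {y : V × V} (h : y ∈ D.F) : Module.finrank ℝ (D.Vs y) = k + 1 := by
  obtain ⟨W, hV, H⟩ := D.geob_link h
  rw [D.geob_Vs H, LinearEquiv.finrank_map_eq, hV]

theorem geob_cW :
    ContinuousOn (fun z : LM V × ℝ => (D.en z.1, z.2 • D.vel z.1)) (D.S ×ˢ Ici 0) :=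
  D.geob_cen.continuousOn.prodMk (continuousOn_snd.smul D.geob_cvel)

theorem geob_tot {z : (V × V) × V} : z ∈ totR D.WF D.F ↔
    ∃ c ∈ D.S, ∃ r : ℝ, 0 ≤ r ∧ z = (D.en c, r • D.vel c) := by
  constructor
  · rintro ⟨h1, h2⟩
    obtain ⟨c, hc, e, r, hr, e2⟩ := (D.mem_Ws h1).1 (D.WF_eq.1 h2)
    exact ⟨c, hc, r, hr, Prod.ext e.symm e2⟩
  · rintro ⟨c, hc, r, hr, rfl⟩
    exact ⟨D.en_mem hc, D.WF_eq.2 ((D.mem_Ws (D.en_mem hc)).2 ⟨c, hc, rfl, r, hr, rfl⟩)⟩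

theorem geob_tot_eq : totR D.WF D.F =
    (fun z : LM V × ℝ => (D.en z.1, z.2 • D.vel z.1)) '' (D.S ×ˢ Ici 0) := by
  ext z
  rw [D.geob_tot]
  exact ⟨fun ⟨c, hc, r, hr, e⟩ => ⟨(c, r), ⟨hc, hr⟩, e.symm⟩,
    fun ⟨y, hy, e⟩ => ⟨y.1, hy.1, y.2, hy.2, e.symm⟩⟩

theorem rb_WF : RB D.WF (k + 1) D.F := by
  obtain ⟨m, M, hm⟩ := D.geob_vel
  refine rb_of_closed D.isCompact_F.isClosed (fun y hy => D.geob_rkW hy) ?_
  have e : {z : (V × V) × V | z.1 ∈ D.F ∧ z.2 ∈ D.Ws z.1} = totR D.WF D.F :=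
    Set.ext fun z => and_congr_right fun _ => D.WF_eq.symm
  rw [e, D.geob_tot_eq]
  exact geob_cone_closed D.cpt D.geob_cW (N := fun z => m * ‖z.2‖) (by fun_prop)
    fun c hc r hr => D.geob_le (hm c hc).1 hr

theorem rb_W : RB D.W (k + 1) 𝕄.Od :=
  ⟨lc_Od', D.rb_WF.cont.comp D.cont_hat D.hat_mem, fun _ e => D.rb_WF.idem _ (D.hat_mem e),
    fun _ e => D.rb_WF.rank _ (D.hat_mem e)⟩

theorem rb_VV : RB D.VV (k + 1) D.F := by
  obtain ⟨m, M, hm⟩ := D.geob_vel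
  refine rb_of_closed D.isCompact_F.isClosed (fun y hy => D.geob_rkV hy) ?_
  have e : {z : (V × V) × AA V | z.1 ∈ D.F ∧ z.2 ∈ D.Vs z.1} =
      (fun z : LM V × ℝ => (D.en z.1,
        z.2 • WithLp.toLp 2 (D.vel z.1, D.vel (sh (cs (π / 2)) z.1)))) '' (D.S ×ˢ Ici 0) := by
    ext z
    constructor
    · rintro ⟨h1, h2⟩
      obtain ⟨c, hc, e, r, hr, e2⟩ := (D.mem_Vs h1).1 h2
      exact ⟨(c, r), ⟨hc, hr⟩, Prod.ext e e2.symm⟩
    · rintro ⟨y, hy, rfl⟩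
      exact ⟨D.en_mem hy.1, (D.mem_Vs (D.en_mem hy.1)).2 ⟨y.1, hy.1, rfl, y.2, hy.2, rfl⟩⟩
  rw [e]
  have c2 : ContinuousOn (fun z : LM V × ℝ => D.vel (sh (cs (π / 2)) z.1)) (D.S ×ˢ Ici 0) :=
    D.cvel.comp (continuous_sh.comp (continuous_const.prodMk continuous_fst)).continuousOn
      fun z h => D.inv _ _ h.1
  exact geob_cone_closed D.cpt (D.geob_cen.continuousOn.prodMk (continuousOn_snd.smul
    ((WithLp.prod_continuous_toLp 2 _ _).comp_continuousOn (D.geob_cvel.prodMk c2))))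
    (N := fun z => m * ‖z.2.fst‖) (by fun_prop) fun c hc r hr => D.geob_le (hm c hc).1 hr

theorem W_of_mem {y : V × V} (h : y ∈ D.F) : D.W y = D.WF y := by
  rw [W, D.hat_of_mem h]

theorem Ws_tan {y : V × V} (h : y ∈ D.F) {X : V} (hX : X ∈ D.Ws y) : 𝕄.Tan y.1 X := by
  obtain ⟨c, hc, rfl, r, -, rfl⟩ := (D.mem_Ws h).1 hX
  exact geob_tan_smul (D.tan c hc) r

/-- a nonzero vector of `Ws y` determines `y` -/
theorem en_gc {y : V × V} (h : y ∈ D.F) {X : V} (hX : X ∈ D.Ws y) (h0 : X ≠ 0) :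
    D.en (D.gc (y.1, X)) = y := by
  obtain ⟨c, hc, rfl, r, hr, rfl⟩ := (D.mem_Ws h).1 hX
  have r0 : 0 < r := hr.lt_of_ne fun e => h0 (by rw [← e, zero_smul])
  exact congrArg D.en (D.gc_eq hc r0).1

theorem Ws_disj {y y' : V × V} (h : y ∈ D.F) (h' : y' ∈ D.F) (e : y.1 = y'.1)
    (ne : y.2 ≠ y'.2) {X : V} (hX : X ∈ D.Ws y) (hX' : X ∈ D.Ws y') : X = 0 := by
  by_contra h0
  have k1 := D.en_gc h hX h0
  rw [e, D.en_gc h' hX' h0] at k1
  exact ne (congrArg Prod.snd k1).symm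

theorem Vs_fst {y : V × V} (h : y ∈ D.F) {X : AA V} (hX : X ∈ D.Vs y) :
    X.fst ∈ D.Ws y ∧ (X.fst = 0 → X = 0) := by
  obtain ⟨c, hc, e, r, hr, rfl⟩ := (D.mem_Vs h).1 hX
  refine ⟨(D.mem_Ws h).2 ⟨c, hc, e, r, hr, rfl⟩, fun k => ?_⟩
  have e2 : r • D.vel c = 0 := k
  rw [(smul_eq_zero.1 e2).resolve_right (D.vne c hc), zero_smul]

theorem Vs_snd {y : V × V} (h : y ∈ D.F) {X : AA V} (hX : X ∈ D.Vs y) :
    X.snd ∈ D.Ws y.swap ∧ (X.snd = 0 → X = 0) := by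
  obtain ⟨c, hc, rfl, r, hr, rfl⟩ := (D.mem_Vs h).1 hX
  have hc' := D.inv (cs (π / 2)) c hc
  refine ⟨(D.mem_Ws (D.swap_F h)).2 ⟨_, hc', ?_, r, hr, rfl⟩, fun k => ?_⟩
  · rw [en, sh_apply, sh_apply, mul_one, ← cs_add, add_halves, cs_pi]
    rfl
  · have e2 : r • D.vel (sh (cs (π / 2)) c) = 0 := k
    rw [(smul_eq_zero.1 e2).resolve_right (D.vne _ hc'), zero_smul]

theorem Th_eq {c : LM V} (hc : c ∈ D.S) {r : ℝ} (hr : 0 ≤ r) :
    D.Th (D.en c, r • D.vel c) = (c 1, c (cs (π / 2 / (1 + r)))) := by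
  unfold Th
  rcases hr.eq_or_lt with rfl | hr
  · rw [if_pos (zero_smul _ _), add_zero, div_one]
    rfl
  · rw [if_neg (smul_ne_zero hr.ne' (D.vne c hc))]
    show (c 1, D.gc (c 1, r • D.vel c) (cs (π / 2 / (1 + D.gr (c 1, r • D.vel c))))) = _
    rw [(D.gc_eq hc hr).1, (D.gc_eq hc hr).2]

theorem cont_Th : ContinuousOn D.Th (totR D.WF D.F) := by
  obtain ⟨m, M, hm⟩ := D.geob_vel
  have hG : ContinuousOn (fun z : LM V × ℝ => (z.1 1, z.1 (cs (π / 2 / (1 + z.2)))))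
      (D.S ×ˢ Ici 0) := by
    refine ContinuousOn.prodMk (by fun_prop) (continuousOn_fst.eval
      (continuous_cs.comp_continuousOn (continuousOn_const.div (by fun_prop) fun z hz => ?_)))
    have : (0 : ℝ) ≤ z.2 := hz.2
    positivity
  rw [D.geob_tot_eq]
  exact geob_cone_cont D.cpt D.geob_cW (N := fun z => m * ‖z.2‖) (by fun_prop)
    (fun c hc r hr => D.geob_le (hm c hc).1 hr) hG fun c hc r hr => D.Th_eq hc hr

theorem Th_mem : MapsTo D.Th (totR D.WF D.F) 𝕄.Od := by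
  intro z hz
  obtain ⟨c, hc, r, hr, rfl⟩ := D.geob_tot.1 hz
  rw [D.Th_eq hc hr]
  exact ⟨⟨D.mem c hc _, D.mem c hc _⟩, fun k => D.ne c hc _ (geob_t2 hr) (Eq.symm k)⟩

theorem Th_fst (z : (V × V) × V) : (D.Th z).1 = z.1.1 := by
  unfold Th
  split_ifs <;> rfl

theorem Th_F {z : (V × V) × V} (h : z ∈ totR D.WF D.F) : D.Th z ∈ D.F ↔ z.2 = 0 := by
  refine ⟨fun k => by_contra fun h0 => ?_, fun h0 => by rw [Th, if_pos h0]; exact h.1⟩
  obtain ⟨c, hc, r, hr, rfl⟩ := D.geob_tot.1 h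
  have r0 : 0 < r := hr.lt_of_ne fun e => h0 (by rw [← e]; exact zero_smul _ _)
  have t := geob_t3 r0
  have k2 := D.not_cut hc (s := 0) (t := π / 2 / (1 + r))
    (by rw [sub_zero, abs_of_pos t.1]; exact t.2)
  rw [cs_zero] at k2
  rw [D.Th_eq hc hr] at k
  exact k2.2 k

theorem cont_Thi : ContinuousOn D.Thi 𝕄.Od := by
  obtain ⟨m, M, hm⟩ := D.geob_vel
  have cl : ContinuousOn D.lt 𝕄.Od := D.cont_lt.mono sdiff_subset
  have ms : ∀ y ∈ 𝕄.Od \ D.F, D.lc y ∈ D.S := fun y hy => (D.lc_spec hy.1).1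
  have cc : ContinuousOn D.lc (𝕄.Od \ D.F) := D.cont_lc.mono fun y hy => ⟨⟨hy.1.1, hy.2⟩, hy.1.2⟩
  refine D.cont_hat.prodMk (geob_smul_cont D.isCompact_F.isClosed
    ((continuousOn_const.div cl fun y hy => (D.lc_spec hy).2.2.1.1.ne').sub continuousOn_const)
    (D.cvel.comp cc ms) (fun y _ hy => ?_) fun y hy => (hm _ (ms y hy)).2)
  obtain ⟨c, hc, e1, e2⟩ := hy
  have := pi_pos
  have k := D.lt_eq hc (t := π / 2) ⟨by positivity, le_rfl⟩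
  rw [e1, e2] at k
  show π / 2 / D.lt (y.1, y.2) - 1 = 0
  rw [k, div_self (by positivity), sub_self]

theorem geob_Thi {y : V × V} (h : y ∈ 𝕄.Od) :
    D.Thi y = (D.en (D.lc y), (π / 2 / D.lt y - 1) • D.vel (D.lc y)) ∧ 0 ≤ π / 2 / D.lt y - 1 := by
  obtain ⟨-, e, t, -⟩ := D.lc_spec h
  refine ⟨?_, sub_nonneg.2 ((one_le_div t.1).2 t.2)⟩
  rw [Thi, hat, en, e]

theorem Thi_mem : MapsTo D.Thi 𝕄.Od (totR D.WF D.F) := fun _ h =>
  D.geob_tot.2 ⟨_, (D.lc_spec h).1, _, (D.geob_Thi h).2, (D.geob_Thi h).1⟩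

theorem Thi_Th {z : (V × V) × V} (h : z ∈ totR D.WF D.F) : D.Thi (D.Th z) = z := by
  obtain ⟨c, hc, r, hr, rfl⟩ := D.geob_tot.1 h
  have t := geob_t2 hr
  have := pi_pos
  have e : π / 2 / (π / 2 / (1 + r)) - 1 = r := by
    field_simp
    ring
  rw [D.Th_eq hc hr, Thi, D.hat_eq hc t, D.lt_eq hc (Ioc_subset_Icc_self t), e]
  rcases hr.eq_or_lt with rfl | r0
  · rw [zero_smul, zero_smul]
  · rw [D.lc_eq hc (geob_t3 r0)]

theorem Th_Thi {y : V × V} (h : y ∈ 𝕄.Od) : D.Th (D.Thi y) = y := by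
  obtain ⟨hc, e, t, e2⟩ := D.lc_spec h
  have := pi_pos
  have t1 := t.1
  have e3 : π / 2 / (1 + (π / 2 / D.lt y - 1)) = D.lt y := by
    rw [add_sub_cancel]
    field_simp
  rw [(D.geob_Thi h).1, D.Th_eq hc (D.geob_Thi h).2, e3, e, e2]

end TD0

end Pool.Agent.Work.MP_8c604c_gt.OT
end
end

-- merged part: Pool.Agent.Work.MP_8c604c_gt.OG.MB
section
/-!
The cohomology rings of `M` and `M x M`, the Thom class of the tangent bundle.
-/

noncomputable section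

set_option linter.unusedSectionVars false
set_option linter.unusedVariables false

namespace Pool.Agent.Work.MP_8c604c_gt.OT

open Set Topology Pool.Agent.Work.MP_849ab0_ag.G T

variable {V : Type} [NormedAddCommGroup V] [InnerProductSpace ℝ V] [FiniteDimensional ℝ V]
  {𝕄 : Mf V}

theorem isCompact_MM : IsCompact 𝕄.MM := isCompact_MM'

theorem isClosed_Dg : IsClosed (Dg V) := isClosed_Dg'

theorem lc_Od : IsLocallyClosed 𝕄.Od := lc_Od'

theorem lc_M : IsLocallyClosed 𝕄.M := 𝕄.cpt.isClosed.isLocallyClosed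

theorem lc_MM : IsLocallyClosed 𝕄.MM := isCompact_MM.isClosed.isLocallyClosed

theorem lc_Tt : IsLocallyClosed 𝕄.Tt := isClosed_Tt.isLocallyClosed

theorem ok_MM1 : Ok Prod.fst 𝕄.MM univ 𝕄.M univ := ok_fst' _ _

theorem ok_MM2 : Ok Prod.snd 𝕄.MM univ 𝕄.M univ := ok_snd' _ _

theorem Od_sub : 𝕄.Od ⊆ 𝕄.MM := sdiff_subset

theorem ok_Tt : Ok Prod.fst 𝕄.Tt univ 𝕄.M univ := ok_fstR (V := 𝕄.tp)

/-- an orientation of the tangent bundle -/
def Mf.oT (𝕄 : Mf V) : V → V [⋀^Fin 16]→L[ℝ] ℝ := Classical.epsilon (Ori 𝕄.tp 16 𝕄.M)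

/-- the Thom class of the tangent bundle -/
def Mf.tT (𝕄 : Mf V) : H 𝕄.Tt (zs V V) := thR 𝕄.tp 16 𝕄.M 𝕄.oT

/-- the Euler class of the tangent bundle -/
def Mf.eT (𝕄 : Mf V) : H 𝕄.M univ := euR 𝕄.tp 16 𝕄.oT 𝕄.M

namespace MT

variable (Q : MT 𝕄)

theorem isDeg_y : IsDeg 8 Q.y := Q.g8.deg

theorem isZ_y : IsZ Q.y := Q.g8.isZ

include Q in
theorem deg_zero {p : ℤ} {a : H 𝕄.M univ} (ha : IsDeg p a) (hp : ¬ 8 ∣ p ∨ 16 < p) : a = 0 :=
  (Q.van p (by omega) (by omega) (by omega)).eq_zero ha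

theorem y_pow : Q.y ^ (2 + 1) = 0 := Q.deg_zero (IsDeg.powH Q.isDeg_y 3) (.inr (by norm_num))

theorem y_pow_ne {i : ℕ} (hi : i ≤ 2) : Q.y ^ i ≠ 0 := fun h =>
  Q.g16.ne (pow_eq_zero_of_le hi h)

theorem y_ne : Q.y ≠ 0 := Q.g8.ne

theorem deg {j : ℕ} {a : H 𝕄.M univ} (ha : IsDeg (8 * j) a) : ∃ c : ℂ, a = c • Q.y ^ j := by
  rcases j with _ | _ | _ | j
  · exact (gen_one Q.conn).span a (by simpa using ha)
  · simpa using Q.g8.span a (by simpa using ha)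
  · exact Q.g16.span a (by simpa using ha)
  · exact ⟨0, by rw [zero_smul]; exact Q.deg_zero ha (.inr (by push_cast; omega))⟩

theorem basis : Function.Bijective fun a : Fin (2 + 1) → ℂ => ∑ i, a i • Q.y ^ (i : ℕ) := by
  have d : ∀ i : ℕ, IsDeg (8 * i) (Q.y ^ i) := fun i => by
    rw [mul_comm]; exact IsDeg.powH Q.isDeg_y i
  have key : ∀ (a : Fin (2 + 1) → ℂ) (j : Fin (2 + 1)),
      prj {8 * ((j : ℕ) : ℤ)} (∑ i, a i • Q.y ^ (i : ℕ)) = a j • Q.y ^ (j : ℕ) := fun a j => by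
    rw [map_sum, Finset.sum_eq_single j (fun i _ h => by
      rw [map_smul, (d i).prj_eq_zero fun e => h (Fin.ext (by
        rw [mem_singleton_iff] at e; omega)), smul_zero]) (by simp), map_smul,
      isDeg_iff.1 (d j)]
  refine ⟨fun a b e => funext fun j => ?_, fun x => ?_⟩
  · have := congrArg (prj {8 * ((j : ℕ) : ℤ)}) e
    simp only [key] at this
    exact smul_left_injective ℂ (Q.y_pow_ne (Nat.lt_succ_iff.1 j.2)) this
  · choose c hc using fun j : Fin (2 + 1) => Q.deg (j := j) (isDeg_prj _ x)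
    refine ⟨c, (sub_eq_zero.1 (eq_zero_of_prj fun p => ?_)).symm⟩
    by_cases h : ¬ 8 ∣ (p : ℤ) ∨ 16 < (p : ℤ)
    · exact Q.deg_zero (isDeg_prj _ _) h
    · have e : (p : ℤ) = 8 * ((⟨p / 8, by omega⟩ : Fin (2 + 1)) : ℕ) := by simp only; omega
      rw [map_sub, e, key, hc, sub_self]

theorem const {p : V} (hp : p ∈ 𝕄.M) {X : Type} [TopologicalSpace X] {U : Set X} :
    pull (fun _ => p) U univ Q.y = 0 := pull_const hp (by norm_num) Q.isDeg_y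

include Q in
theorem sgnTriv_M : SgnTriv 𝕄.M := sgnTriv_of_van 𝕄.cpt (Q.van 1 (by omega) (by omega) (by omega))

include Q in
theorem ori_T : Ori 𝕄.tp 16 𝕄.M 𝕄.oT := Classical.epsilon_spec (𝕄.rb.exists_ori Q.sgnTriv_M)

include Q in
theorem thZ_T : ThZ Prod.fst 𝕄.Tt (zs V V) 𝕄.M 16 𝕄.tT := 𝕄.rb.thZ Q.ori_T (by norm_num)

include Q in
theorem gysD_T : GysD Prod.fst 𝕄.Tt (zs V V) 𝕄.M 𝕄.tT 16 𝕄.eT := gysD_thR 𝕄.rb Q.ori_T

/-- the top class of the tangent bundle -/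
def wT : H 𝕄.Tt (zs V V) := cup 𝕄.Tt (zs V V) (pull Prod.fst 𝕄.Tt univ (Q.y ^ 2)) 𝕄.tT

theorem gen_wT : Gen 32 Q.wT := thZ_gen_mul Q.thZ_T Q.g16

/-- the class `y` of the first factor -/
def uu : H 𝕄.MM univ := pull Prod.fst 𝕄.MM univ Q.y

/-- the class `y` of the second factor -/
def vv : H 𝕄.MM univ := pull Prod.snd 𝕄.MM univ Q.y

/-- the complete symmetric polynomial of degree `2` in `uu`, `vv` -/
def hh : H 𝕄.MM univ := ∑ i ∈ Finset.range (2 + 1), Q.uu ^ i * Q.vv ^ (2 - i)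

theorem isDeg_uu : IsDeg 8 Q.uu := Q.isDeg_y.pull _ _ _

theorem isDeg_vv : IsDeg 8 Q.vv := Q.isDeg_y.pull _ _ _

theorem isZ_uu : IsZ Q.uu := Q.isZ_y.pul _ _ _

theorem isZ_vv : IsZ Q.vv := Q.isZ_y.pul _ _ _

theorem uu_pow : Q.uu ^ (2 + 1) = 0 := by rw [uu, ← pull_pow ok_MM1, y_pow, map_zero]

theorem vv_pow : Q.vv ^ (2 + 1) = 0 := by rw [vv, ← pull_pow ok_MM2, y_pow, map_zero]

theorem uv_deg (i j : ℕ) : IsDeg (8 * (i + j)) (Q.uu ^ i * Q.vv ^ j) := by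
  rw [mul_add, mul_comm (8 : ℤ), mul_comm (8 : ℤ)]
  exact IsDeg.mulH (IsDeg.powH Q.isDeg_uu i) (IsDeg.powH Q.isDeg_vv j)

theorem uv_comm : Commute Q.uu Q.vv := (IsDeg.evn Q.isDeg_vv ⟨4, rfl⟩).commH _

theorem hh_eq : Q.hh = Q.uu ^ 2 + Q.uu * Q.vv + Q.vv ^ 2 := by
  simp only [hh, Finset.sum_range_succ, Finset.sum_range_zero]
  norm_num
  abel

theorem isDeg_hh : IsDeg 16 Q.hh := by
  refine IsDeg.sum _ fun i hi => ?_
  have h := Q.uv_deg i (2 - i)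
  rwa [Nat.cast_sub (Nat.lt_succ_iff.1 (Finset.mem_range.1 hi)), add_sub_cancel] at h

theorem MM_basis : Function.Bijective fun a : Fin (2 + 1) × Fin (2 + 1) → ℂ =>
    ∑ i, a i • (Q.uu ^ (i.1 : ℕ) * Q.vv ^ (i.2 : ℕ)) := by
  have h := basis_prod (c := fun i : Fin (2 + 1) => Q.y ^ (i : ℕ))
    (b := fun i : Fin (2 + 1) => Q.y ^ (i : ℕ)) 𝕄.cpt (fun i => IsDeg.powH Q.isDeg_y i)
    Q.basis Q.basis
  simp only [pull_pow (ok_fst' 𝕄.M 𝕄.M), pull_pow (ok_snd' 𝕄.M 𝕄.M)] at h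
  exact h

theorem uv_li : LinearIndependent ℂ fun i : Fin (2 + 1) × Fin (2 + 1) =>
    Q.uu ^ (i.1 : ℕ) * Q.vv ^ (i.2 : ℕ) :=
  Fintype.linearIndependent_iff.2 fun a h => congrFun (Q.MM_basis.1 (a₂ := 0) (by simpa using h))

theorem uv_exp {p : ℤ} {a : H 𝕄.MM univ} (ha : IsDeg p a) :
    ∃ c : Fin (2 + 1) × Fin (2 + 1) → ℂ, (∀ i, 8 * (((i.1 : ℕ) : ℤ) + (i.2 : ℕ)) ≠ p → c i = 0) ∧
      a = ∑ i, c i • (Q.uu ^ (i.1 : ℕ) * Q.vv ^ (i.2 : ℕ)) := by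
  obtain ⟨c, rfl⟩ := Q.MM_basis.2 a
  refine ⟨fun i => if 8 * (((i.1 : ℕ) : ℤ) + (i.2 : ℕ)) = p then c i else 0, fun i h => if_neg h, ?_⟩
  rw [← isDeg_iff.1 ha, map_sum]
  refine Finset.sum_congr rfl fun i _ => ?_
  rw [map_smul]
  beta_reduce
  split_ifs with h
  · rw [(Q.uv_deg _ _).prj_eq h]
  · rw [(Q.uv_deg _ _).prj_eq_zero h, smul_zero, zero_smul]

theorem uv_pow_ne : Q.uu ^ 2 * Q.vv ^ 2 ≠ 0 := Q.uv_li.ne_zero (Fin.last 2, Fin.last 2)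

include Q in
theorem MM_deg_zero {p : ℤ} {a : H 𝕄.MM univ} (ha : IsDeg p a) (hp : ¬ 8 ∣ p ∨ 32 < p) :
    a = 0 := by
  obtain ⟨c, h, rfl⟩ := Q.uv_exp ha
  refine Finset.sum_eq_zero fun i _ => ?_
  have h1 := i.1.2
  have h2 := i.2.2
  rw [h i (by omega), zero_smul]

theorem MM_deg8 {a : H 𝕄.MM univ} (ha : IsDeg 8 a) : ∃ s t : ℂ, a = s • Q.uu + t • Q.vv := by
  obtain ⟨c, h, rfl⟩ := Q.uv_exp ha
  refine ⟨c (1, 0), c (0, 1), ?_⟩
  simp [Fintype.sum_prod_type, Fin.sum_univ_succ, h (0, 0) (by simp), h (0, 2) (by simp),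
    h (1, 1) (by simp), h (1, 2) (by simp), h (2, 0) (by simp), h (2, 1) (by simp),
    h (2, 2) (by simp)]
  exact add_comm _ _

theorem MM_deg16 {a : H 𝕄.MM univ} (ha : IsDeg 16 a) :
    ∃ r s t : ℂ, a = r • Q.uu ^ 2 + s • (Q.uu * Q.vv) + t • Q.vv ^ 2 := by
  obtain ⟨c, h, rfl⟩ := Q.uv_exp ha
  refine ⟨c (2, 0), c (1, 1), c (0, 2), ?_⟩
  simp [Fintype.sum_prod_type, Fin.sum_univ_succ, h (0, 0) (by simp), h (0, 1) (by simp),
    h (1, 0) (by simp), h (1, 2) (by simp), h (2, 1) (by simp), h (2, 2) (by simp)]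
  abel

theorem indep8 {s t : ℂ} (h : s • Q.uu + t • Q.vv = 0) : s = 0 ∧ t = 0 := by
  have := Fintype.linearIndependent_iff.1 Q.uv_li
    (Pi.single (1, 0) s + Pi.single (0, 1) t) (by
      simpa [add_smul, Finset.sum_add_distrib, Pi.single_apply] using h)
  exact ⟨by simpa using this (1, 0), by simpa using this (0, 1)⟩

theorem indep16 {r s t : ℂ} (h : r • Q.uu ^ 2 + s • (Q.uu * Q.vv) + t • Q.vv ^ 2 = 0) :
    r = 0 ∧ s = 0 ∧ t = 0 := by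
  have := Fintype.linearIndependent_iff.1 Q.uv_li
    (Pi.single (2, 0) r + Pi.single (1, 1) s + Pi.single (0, 2) t) (by
      simpa [add_smul, Finset.sum_add_distrib, Pi.single_apply] using h)
  exact ⟨by simpa using this (2, 0), by simpa using this (1, 1), by simpa using this (0, 2)⟩

/-- the annihilator of `u - v` in degree `16` -/
theorem ann_hh {a : H 𝕄.MM univ} (ha : IsDeg 16 a) (e : (Q.uu - Q.vv) * a = 0) :
    ∃ c : ℂ, a = c • Q.hh := by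
  obtain ⟨r, s, t, rfl⟩ := Q.MM_deg16 ha
  have k : (Q.uu - Q.vv) * (r • Q.uu ^ 2 + s • (Q.uu * Q.vv) + t • Q.vv ^ 2) =
      (s - r) • (Q.uu ^ 2 * Q.vv ^ 1) + (t - s) • (Q.uu ^ 1 * Q.vv ^ 2) := by
    have c := Q.uv_comm
    have e1 : Q.uu * Q.uu ^ 2 = 0 := by rw [← pow_succ', uu_pow]
    have e2 : Q.vv * Q.vv ^ 2 = 0 := by rw [← pow_succ', vv_pow]
    have e3 : Q.vv * Q.uu ^ 2 = Q.uu ^ 2 * Q.vv := (c.pow_left 2).eq.symm
    have e4 : Q.vv * (Q.uu * Q.vv) = Q.uu * Q.vv ^ 2 := by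
      rw [← mul_assoc, ← c.eq, mul_assoc, sq]
    have e5 : Q.uu * (Q.uu * Q.vv) = Q.uu ^ 2 * Q.vv := by rw [← mul_assoc, sq]
    simp only [sub_mul, mul_add, mul_smul_comm, e1, e2, e3, e4, e5, pow_one, smul_sub, sub_smul,
      smul_zero]
    abel
  rw [k] at e
  have := Fintype.linearIndependent_iff.1 Q.uv_li
    (Pi.single (2, 1) (s - r) + Pi.single (1, 2) (t - s)) (by
      simpa [add_smul, Finset.sum_add_distrib, Pi.single_apply] using e)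
  have h1 : s - r = 0 := by simpa using this (2, 1)
  have h2 : t - s = 0 := by simpa using this (1, 2)
  refine ⟨r, ?_⟩
  rw [hh_eq, sub_eq_zero.1 h2, sub_eq_zero.1 h1, smul_add, smul_add]

theorem sub_mul_hh : (Q.uu - Q.vv) * Q.hh = 0 := by
  have h := Q.uv_comm.mul_geom_sum₂ (2 + 1)
  rwa [uu_pow, vv_pow, sub_zero] at h

theorem hh_top : Q.uu ^ 2 * Q.hh = Q.uu ^ 2 * Q.vv ^ 2 := by
  rw [hh, Finset.mul_sum, Finset.sum_range_succ', Finset.sum_eq_zero fun i _ => by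
    rw [← mul_assoc, ← pow_add, pow_eq_zero_of_le (by omega) Q.uu_pow, zero_mul], zero_add, pow_zero,
    one_mul, Nat.sub_zero]

theorem hh_inj {a : H 𝕄.M univ} (h : pull Prod.fst 𝕄.MM univ a * Q.hh = 0) : a = 0 := by
  obtain ⟨c, rfl⟩ := Q.basis.2 a
  have key : ∀ k : ℕ, ∀ j : Fin (2 + 1), (j : ℕ) = k → c j = 0 := fun k => by
    induction k using Nat.strong_induction_on with
    | _ k ih =>
      rintro j rfl
      have e := congrArg (Q.uu ^ (2 - (j : ℕ)) * ·) h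
      simp only [map_sum, map_smul, pull_pow ok_MM1, Finset.sum_mul, Finset.mul_sum,
        smul_mul_assoc, mul_smul_comm, mul_zero] at e
      rw [Finset.sum_eq_single j (fun i _ hi => ?_) (by simp), ← mul_assoc] at e
      · change c j • (Q.uu ^ _ * Q.uu ^ _ * _) = 0 at e
        rw [← pow_add, Nat.sub_add_cancel (Nat.lt_succ_iff.1 j.2), hh_top] at e
        exact (smul_eq_zero.1 e).resolve_right Q.uv_pow_ne
      · rcases lt_or_gt_of_ne (Fin.val_ne_of_ne hi) with l | l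
        · rw [ih i l i rfl, zero_smul]
        · change c i • (Q.uu ^ _ * (Q.uu ^ _ * _)) = 0
          rw [← mul_assoc, ← pow_add, pow_eq_zero_of_le (by have := j.2; omega) Q.uu_pow, zero_mul,
            smul_zero]
  exact Finset.sum_eq_zero fun j _ => by rw [key j j rfl, zero_smul]

/-- pull-back along a pair of maps -/
theorem pull_uu {X : Type} [TopologicalSpace X] {U : Set X} {f : X → V × V}
    (o : Ok f U univ 𝕄.MM univ) : pull f U univ Q.uu = pull (fun x => (f x).1) U univ Q.y :=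
  pull_pull' o ok_MM1 (fun _ _ => rfl) _

theorem pull_vv {X : Type} [TopologicalSpace X] {U : Set X} {f : X → V × V}
    (o : Ok f U univ 𝕄.MM univ) : pull f U univ Q.vv = pull (fun x => (f x).2) U univ Q.y :=
  pull_pull' o ok_MM2 (fun _ _ => rfl) _

theorem uu_sub_vv_ne : Q.uu - Q.vv ≠ 0 := fun h =>
  one_ne_zero (Q.indep8 (s := 1) (t := -1) (by rw [one_smul, neg_smul, one_smul, ← sub_eq_add_neg, h])).1

/-- `uu` as an even class -/
def uuE : EvR 𝕄.MM := ⟨Q.uu, IsDeg.evn Q.isDeg_uu ⟨4, rfl⟩⟩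

/-- `vv` as an even class -/
def vvE : EvR 𝕄.MM := ⟨Q.vv, IsDeg.evn Q.isDeg_vv ⟨4, rfl⟩⟩

end MT

end Pool.Agent.Work.MP_8c604c_gt.OT
end
end
end

-- merged part: Pool.Agent.Work.MP_8c604c_gt.OG.ThF
section
-- merged part: Pool.Agent.Work.MP_8c604c_gt.OG.Tube
section
/-!
The tube around the set `F` of pairs of cut points, and the retraction of `Nb`.
Hints.  `isConnected_S1`: the set is the image under `fun u => D.gc (p, u)` of the nonzero vectors of the range of `tp p`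
(`cont_gc`, `gc_spec`, `gc_eq`; dimension 16, `isConnected_compl_singleton_of_one_lt_rank` in the subspace).
`isConnected_S`: `c ↦ c 1` is a closed surjection `S → M` (as subtypes) with connected fibres,
`IsQuotientMap.preimage_connectedComponent` or `preimage_connectedComponent_connected`.
`isPreconnected_en`: the same with the nonzero vectors of `Ws y` (`mem_Ws`, `en_gc`, `geob_rkW`).
-/

noncomputable section

set_option linter.unusedSectionVars false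
set_option linter.unusedVariables false

namespace Pool.Agent.Work.MP_8c604c_gt.OT

open Set Topology Filter Pool.Agent.Work.MP_849ab0_ag.G T

variable {V : Type} [NormedAddCommGroup V] [InnerProductSpace ℝ V] [FiniteDimensional ℝ V]
  {𝕄 : Mf V} {k : ℕ}

/-- the Thom class is a generator on every fibre -/
theorem gen_thR_fib {X A : Type} [TopologicalSpace X] [RegularSpace X] [SecondCountableTopology X]
    [NormedAddCommGroup A] [NormedSpace ℝ A] [FiniteDimensional ℝ A] {W : X → A →L[ℝ] A} {r : ℕ}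
    {U : Set X} {o : X → A [⋀^Fin r]→L[ℝ] ℝ} (h : RB W r U) (ho : Ori W r U o) {x : X} (hx : x ∈ U)
    {B : Type} [NormedAddCommGroup B] [NormedSpace ℝ B] [FiniteDimensional ℝ B]
    (hB : Module.finrank ℝ B = r) {L : B →ₗ[ℝ] A} (hL : Function.Injective L)
    (m : ∀ v, W x (L v) = L v) : Gen r (pull (fun v => (x, L v)) univ {0} (thR W r U o)) := by
  let e := (Module.finBasisOfFinrankEq ℝ B hB).equivFun.symm
  have i : Function.Injective (L ∘ₗ e.toLinearMap) := hL.comp e.injective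
  have m' : ∀ v, W x ((L ∘ₗ e.toLinearMap) v) = _ := fun v => m _
  refine .of_pul ?_ (zb_lin e)
  rw [pull_pull' (F := fun v => (x, (L ∘ₗ e.toLinearMap) v)) (zb_lin e).ok (ok_fibR hx hL m)
    fun _ _ => rfl, (thR_spec h ho).2 x hx _ i m']
  rcases (ho.ne x hx _ (indep_single i) fun _ => m' _).lt_or_gt with s | s
  · rw [sign_neg s]; simpa using (gen_orR r).neg
  · rw [sign_pos s]; simpa using gen_orR r

theorem Tube_nz (W : Submodule ℝ V) (h : 1 < Module.finrank ℝ W) :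
    IsConnected {u : V | u ∈ W ∧ u ≠ 0} := by
  have h1 : IsConnected ({0}ᶜ : Set W) := isConnected_compl_singleton_of_one_lt_rank
    (by rw [← Module.finrank_eq_rank]; exact_mod_cast h) 0
  have e : {u : V | u ∈ W ∧ u ≠ 0} = Subtype.val '' ({0}ᶜ : Set W) :=
    Set.ext fun u => ⟨fun k => ⟨⟨u, k.1⟩, fun e => k.2 (congrArg Subtype.val e), rfl⟩,
      fun ⟨w, k, e⟩ => e ▸ ⟨w.2, fun e' => k (Subtype.ext e')⟩⟩
  exact e ▸ h1.image _ continuous_subtype_val.continuousOn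

theorem Tube_fib {X Y : Type} [TopologicalSpace X] [TopologicalSpace Y] [T2Space Y] {S : Set X}
    (hS : IsCompact S) {f : X → Y} (hf : Continuous f) (hM : IsPreconnected (f '' S))
    (h : ∀ x ∈ S, IsPreconnected (S ∩ {c | f c = f x})) : IsPreconnected S := by
  refine isPreconnected_closed_iff.2 fun u v hu hv c ⟨a, ha⟩ ⟨b, hb⟩ => ?_
  obtain ⟨y, -, ⟨a', ha', rfl⟩, b', hb', e⟩ := isPreconnected_closed_iff.1 hM (f '' (S ∩ u))
    (f '' (S ∩ v)) ((hS.inter_right hu).image hf).isClosed ((hS.inter_right hv).image hf).isClosed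
    (fun _ ⟨x, hx, e⟩ => (c hx).imp (fun k => ⟨x, ⟨hx, k⟩, e⟩) fun k => ⟨x, ⟨hx, k⟩, e⟩)
    ⟨f a, ⟨a, ha.1, rfl⟩, a, ha, rfl⟩ ⟨f b, ⟨b, hb.1, rfl⟩, b, hb, rfl⟩
  obtain ⟨z, hz, k⟩ := isPreconnected_closed_iff.1 (h a' ha'.1) u v hu hv (fun _ k => c k.1)
    ⟨a', ⟨ha'.1, rfl⟩, ha'.2⟩ ⟨b', ⟨hb'.1, e⟩, hb'.2⟩
  exact ⟨z, hz.1, k⟩

namespace TD0

variable (D : TD0 𝕄 k)

theorem Tube_img {p : V} {W : Submodule ℝ V} (h : 1 < Module.finrank ℝ W)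
    (hW : ∀ u ∈ W, 𝕄.Tan p u) :
    IsConnected ((fun u => D.gc (p, u)) '' {u : V | u ∈ W ∧ u ≠ 0}) :=
  (Tube_nz W h).image _ (D.cont_gc.comp (continuousOn_const.prodMk continuousOn_id)
    fun u hu => ⟨hW u hu.1, hu.2⟩)

theorem Tube_gc {c : LM V} (hc : c ∈ D.S) : D.gc (c 1, D.vel c) = c := by
  simpa using (D.gc_eq hc one_pos).1

theorem isClosed_F : IsClosed D.F := D.isCompact_F.isClosed

theorem lc_F : IsLocallyClosed D.F := D.isClosed_F.isLocallyClosed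

theorem lc_S : IsLocallyClosed D.S := D.cpt.isClosed.isLocallyClosed

theorem F_MM : D.F ⊆ 𝕄.MM := fun _ h => (D.F_sub h).1

theorem Nb_MM : D.Nb ⊆ 𝕄.MM := sdiff_subset

theorem ok_F : Ok id D.F univ 𝕄.MM univ := ok_fgt D.F_MM

theorem ok_swap : Ok Prod.swap D.F univ D.F univ :=
  .of_mem (.of_continuous continuous_swap _) (fun _ h => D.swap_F h) fun _ _ _ => trivial

theorem ok_en : Ok D.en D.S univ D.F univ :=
  .of_mem (.of_continuous D.continuous_en _) (fun _ h => D.en_mem h) fun _ _ _ => trivial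

theorem ok_ev (θ : Circle) : Ok (fun c : LM V => c θ) D.S univ 𝕄.M univ :=
  .of_mem (.of_continuous (continuous_eval_const θ) _) (fun c hc => D.mem c hc θ)
    fun _ _ _ => trivial

theorem F_eq : D.F = D.en '' D.S :=
  Set.ext fun _ => ⟨fun ⟨c, h, a, b⟩ => ⟨c, h, Prod.ext a b⟩, fun ⟨_, h, e⟩ => e ▸ D.en_mem h⟩

theorem continuous_j0 : Continuous D.j0 :=
  (continuous_eval_const _).prodMk (continuous_eval_const _)

theorem isConnected_S1 {p : V} (hp : p ∈ 𝕄.M) : IsConnected (D.S ∩ {c | c 1 = p}) := by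
  have hW : ∀ u ∈ LinearMap.range (𝕄.tp p : V →ₗ[ℝ] V), 𝕄.Tan p u := by
    rintro _ ⟨a, rfl⟩
    exact ⟨hp, 𝕄.rb.idem p hp a⟩
  have e : D.S ∩ {c | c 1 = p} = (fun u => D.gc (p, u)) ''
      {u : V | u ∈ LinearMap.range (𝕄.tp p : V →ₗ[ℝ] V) ∧ u ≠ 0} := by
    ext c
    constructor
    · rintro ⟨hc, rfl⟩
      exact ⟨D.vel c, ⟨⟨_, (D.tan c hc).2⟩, D.vne c hc⟩, D.Tube_gc hc⟩
    · rintro ⟨u, hu, rfl⟩
      have := D.gc_spec (y := (p, u)) (hW u hu.1) hu.2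
      exact ⟨this.1, this.2.1⟩
  rw [e]
  exact D.Tube_img (by rw [𝕄.rb.rank p hp]; norm_num) hW

theorem isConnected_S (h : IsConnected 𝕄.M) : IsConnected D.S := by
  have e : (fun c : LM V => c 1) '' D.S = 𝕄.M := by
    refine Subset.antisymm (fun _ ⟨c, hc, e⟩ => e ▸ D.mem c hc 1) fun p hp => ?_
    obtain ⟨c, hc⟩ := (D.isConnected_S1 hp).nonempty
    exact ⟨c, hc.1, hc.2⟩
  refine ⟨?_, Tube_fib D.cpt (continuous_eval_const 1) (e ▸ h.2)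
    fun c hc => (D.isConnected_S1 (D.mem c hc 1)).2⟩
  exact (e ▸ h.1 : ((fun c : LM V => c 1) '' D.S).Nonempty).of_image

theorem isConnected_F (h : IsConnected 𝕄.M) : IsConnected D.F :=
  D.F_eq ▸ (D.isConnected_S h).image _ D.continuous_en.continuousOn

theorem isConnected_F1 {p : V} (hp : p ∈ 𝕄.M) : IsConnected (D.F ∩ {y | y.1 = p}) := by
  convert (D.isConnected_S1 hp).image _ D.continuous_en.continuousOn using 1
  ext y
  refine ⟨fun h => ?_, fun ⟨c, h, e⟩ => e ▸ ⟨D.en_mem h.1, h.2⟩⟩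
  obtain ⟨c, hc, rfl⟩ := D.F_eq.subset h.1
  exact ⟨c, ⟨hc, h.2⟩, rfl⟩

theorem isPreconnected_en (hk : 1 ≤ k) {y : V × V} (hy : y ∈ D.F) :
    IsPreconnected (D.S ∩ D.en ⁻¹' {y}) := by
  have hW : ∀ u ∈ D.Ws y, 𝕄.Tan y.1 u := by
    intro u hu
    obtain ⟨c, hc, rfl, r, -, rfl⟩ := (D.mem_Ws hy).1 hu
    exact (D.tan c hc).rsmul r
  have e : D.S ∩ D.en ⁻¹' {y} = (fun u => D.gc (y.1, u)) '' {u : V | u ∈ D.Ws y ∧ u ≠ 0} := by
    ext c
    constructor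
    · rintro ⟨hc, e⟩
      obtain rfl : D.en c = y := e
      exact ⟨D.vel c, ⟨(D.mem_Ws hy).2 ⟨c, hc, rfl, 1, zero_le_one, (one_smul _ _).symm⟩,
        D.vne c hc⟩, D.Tube_gc hc⟩
    · rintro ⟨u, hu, rfl⟩
      exact ⟨(D.gc_spec (y := (y.1, u)) (hW u hu.1) hu.2).1, D.en_gc hy hu.1 hu.2⟩
  rw [e]
  exact (D.Tube_img (by rw [D.geob_rkW hy]; omega) hW).2

/-- closed geodesics and nonzero tangent vectors -/
theorem zb_S : ZB (fun c : LM V => (c 1, D.vel c)) D.S univ (𝕄.Tt \ zs V V) univ :=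
  zb_cone 𝕄.rb.lc_nz (fun _ h => h.2) (fun _ h _ ht => cone_nz (V := 𝕄.tp) h ht.ne') D.cpt
    D.lc_S (continuous_eval_const 1).continuousOn D.cvel
    (fun c hc => ⟨D.tan c hc, D.vne c hc⟩)
    (fun z hz => by
      obtain ⟨c, hc, e, r, hr, e'⟩ := D.ex z.1 z.2 hz.1 hz.2
      exact ⟨c, hc, r, hr, e, e'⟩)
    fun c hc c' hc' r hr e e' => D.uniq c hc c' hc' e r hr e'

/-- closed geodesics and nonzero vectors of `WF` -/
theorem zb_SW : ZB (fun c : LM V => (D.en c, D.vel c)) D.S univ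
    (totR D.WF D.F \ zs (V × V) V) univ :=
  zb_cone D.rb_WF.lc_nz (fun _ h => h.2) (fun _ h _ ht => cone_nz h ht.ne') D.cpt
    D.lc_S D.continuous_en.continuousOn D.cvel
    (fun c hc => ⟨D.geob_tot.2 ⟨c, hc, 1, zero_le_one, by rw [one_smul]⟩, D.vne c hc⟩)
    (fun z hz => by
      obtain ⟨c, hc, r, hr, rfl⟩ := D.geob_tot.1 hz.1
      exact ⟨c, hc, r, hr.lt_of_ne fun e => hz.2 (by rw [← e]; exact zero_smul _ _), rfl, rfl⟩)
    fun c hc c' hc' r hr e e' => D.uniq c hc c' hc' (congrArg Prod.fst e) r hr e'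

theorem ok_Th : Ok D.Th (totR D.WF D.F) (zs _ _) 𝕄.Od D.F :=
  ok_of D.rb_WF.lc_tot D.cont_Th D.Th_mem fun _ h => (D.Th_F h).1

theorem ok_Thi : Ok D.Thi 𝕄.Od D.F (totR D.WF D.F) (zs _ _) :=
  ok_of lc_Od' D.cont_Thi D.Thi_mem fun _ h e =>
    D.Th_Thi h ▸ (D.Th_F (D.Thi_mem h)).2 e

theorem hat_Th {z : (V × V) × V} (h : z ∈ totR D.WF D.F) : D.hat (D.Th z) = z.1 :=
  congrArg Prod.fst (D.Thi_Th h)

theorem Th_zero (y : V × V) : D.Th (y, 0) = y := if_pos rfl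

theorem Thi_of_mem {y : V × V} (hy : y ∈ D.F) : D.Thi y = (y, 0) := by
  have := D.Thi_Th (z := (y, 0)) ⟨hy, map_zero _⟩
  rwa [D.Th_zero] at this

theorem ok_hat : Ok D.hat 𝕄.Od univ D.F univ := ok_top lc_Od' D.cont_hat D.hat_mem

section Part

variable {B U : Set (V × V)} (hBF : B ⊆ D.F) (hU : ∀ y, y ∈ U ↔ y ∈ 𝕄.Od ∧ D.hat y ∈ B)
include hBF hU

theorem ok_Thi' : Ok D.Thi U D.F (totR D.WF B) (zs _ _) :=
  .of_mem (D.ok_Thi.ext.mono fun y h => ((hU y).1 h).1)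
    (fun y h => ⟨((hU y).1 h).2, (D.Thi_mem ((hU y).1 h).1).2⟩)
    fun y h => D.ok_Thi.mem ((hU y).1 h).1

theorem ok_Th' : Ok D.Th (totR D.WF B) (zs _ _) U D.F :=
  have sT : totR D.WF B ⊆ totR D.WF D.F := fun _ h => ⟨hBF h.1, h.2⟩
  .of_mem (D.ok_Th.ext.mono sT)
    (fun z h => (hU _).2 ⟨D.Th_mem (sT h), D.hat_Th (sT h) ▸ h.1⟩) fun z h => D.ok_Th.mem (sT h)

theorem zb_Thi : ZB D.Thi U D.F (totR D.WF B) (zs _ _) :=
  .of_inv (D.ok_Thi' hBF hU) (D.ok_Th' hBF hU) (fun y h => D.Th_Thi ((hU y).1 h).1)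
    fun _ h => D.Thi_Th ⟨hBF h.1, h.2⟩

theorem zb_Thi' : ZB D.Thi U univ (totR D.WF B) univ :=
  .of_inv (Ok.top (D.ok_Thi' hBF hU)) (Ok.top (D.ok_Th' hBF hU))
    (fun y h => D.Th_Thi ((hU y).1 h).1)
    fun _ h => D.Thi_Th ⟨hBF h.1, h.2⟩

/-- The part `U` of the tube over `B ⊆ F`. -/
theorem thZ_tube (hB : IsLocallyClosed B) {o : V × V → V [⋀^Fin (k + 1)]→L[ℝ] ℝ}
    (ho : Ori D.WF (k + 1) B o) :
    ThZ D.hat U D.F B ((k + 1 : ℕ) : ℤ) (pull D.Thi U D.F (thR D.WF (k + 1) B o)) :=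
  thZ_pul ((D.rb_WF.mono hB hBF).thZ ho k.succ_pos) (D.zb_Thi hBF hU) (D.zb_Thi' hBF hU)
    fun _ _ => rfl

theorem zb_hat' : ZB D.hat U univ B univ :=
  (D.zb_Thi' hBF hU).comp (.of_section (s := fun x => (x, 0)) (F := fun z => (z.1.1, z.2 • z.1.2))
    ok_fstR ok_zeroR (fun _ _ => rfl) (.of_continuous (by fun_prop) _)
    (fun z hz t _ => ⟨hz.1, by rw [map_smul, hz.2]⟩) (fun _ _ _ _ _ => trivial)
    (fun z _ => by simp) fun z _ => by simp) fun _ _ => rfl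

theorem zb_res' : ZB id B univ U univ :=
  .of_comp_right (ok_fgt fun y h => (hU y).2 ⟨D.F_sub (hBF h), (D.hat_of_mem (hBF h)).symm ▸ h⟩)
    (D.zb_hat' hBF hU) .refl fun _ h => D.hat_of_mem (hBF h)

end Part

theorem Od_iff (y : V × V) : y ∈ 𝕄.Od ↔ y ∈ 𝕄.Od ∧ D.hat y ∈ D.F :=
  ⟨fun h => ⟨h, D.hat_mem h⟩, And.left⟩

theorem slice_iff {p : V} (hp : p ∈ 𝕄.M) (y : V × V) : y ∈ (({p} : Set V) ×ˢ 𝕄.M) \ Dg V ↔
    y ∈ 𝕄.Od ∧ D.hat y ∈ D.F ∩ {y | y.1 = p} :=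
  ⟨fun h => by
    have : y ∈ 𝕄.Od := ⟨⟨h.1.1 ▸ hp, h.1.2⟩, h.2⟩
    exact ⟨this, D.hat_mem this, h.1.1⟩, fun h => ⟨⟨h.2.2, h.1.1.2⟩, h.1.2⟩⟩

theorem zb_hat : ZB D.hat 𝕄.Od univ D.F univ := D.zb_hat' subset_rfl D.Od_iff

theorem zb_resF : ZB id D.F univ 𝕄.Od univ := D.zb_res' subset_rfl D.Od_iff

theorem res_hat (a : H D.F univ) : pull id D.F univ (pull D.hat 𝕄.Od univ a) = a := by
  rw [pull_pull' (F := id) (ok_fgt D.F_sub) D.ok_hat fun _ => D.hat_of_mem, pull_id]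

theorem hat_res (a : H 𝕄.Od univ) : pull D.hat 𝕄.Od univ (pull id D.F univ a) = a := by
  obtain ⟨b, rfl⟩ := D.zb_hat.bij.2 a
  rw [D.res_hat]

theorem hat_pull (a : H 𝕄.MM univ) :
    pull D.hat 𝕄.Od univ (pull id D.F univ a) = pull id 𝕄.Od univ a := by
  rw [← D.hat_res (pull id 𝕄.Od univ a), res_pull (ok_fgt Od_sub) D.F_sub fun _ _ h => h]

/-- excision of the diagonal -/
theorem exc_Dg (E : Set (V × V)) : ZB id (E \ Dg V) D.F E D.F :=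
  .excision_open isClosed_Dg'.isOpen_compl (.of_isClosed D.isClosed_F _)
    fun _ _ h => (D.F_sub h).2

/-- excision of the cut pairs -/
theorem exc_F (E : Set (V × V)) : ZB id (E \ D.F) (Dg V) E (Dg V) :=
  .excision_open D.isClosed_F.isOpen_compl (.of_isClosed isClosed_Dg' _)
    fun _ _ h k => (D.F_sub k).2 h

/-- a slice of the tube -/
theorem ok_slice {y : V × V} (hy : y ∈ D.F) {B : Type} [NormedAddCommGroup B]
    [NormedSpace ℝ B] [FiniteDimensional ℝ B] {L : B →ₗ[ℝ] V} (hL : Function.Injective L)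
    (m : ∀ v, L v ∈ D.Ws y) : Ok (fun v => D.Th (y, L v)) univ {0} 𝕄.Od D.F :=
  D.ok_Th.comp (ok_fibR hy hL fun v => D.WF_eq.2 (m v))

theorem ok_G {Z Z' : Set (V × V)} (h : ∀ y ∈ 𝕄.Tt, D.G y ∈ Z' → y ∈ Z) : Ok D.G 𝕄.Tt Z D.Nb Z' :=
  ok_of lc_Tt D.cont_G D.G_mem h

theorem ok_Gi {Z Z' : Set (V × V)} (h : ∀ y ∈ D.Nb, D.Gi y ∈ Z' → y ∈ Z) :
    Ok D.Gi D.Nb Z 𝕄.Tt Z' := ok_of D.lc_Nb D.cont_Gi D.Gi_mem h

theorem zb_G : ZB D.G 𝕄.Tt (zs V V) D.Nb (Dg V) :=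
  .of_inv (D.ok_G fun _ h k => (D.G_dg h).1 k)
    (D.ok_Gi fun _ h k => D.G_Gi h ▸ (D.G_dg (D.Gi_mem h)).2 k) (fun _ => D.Gi_G) fun _ => D.G_Gi

theorem zb_Gi : ZB D.Gi D.Nb (Dg V) 𝕄.Tt (zs V V) :=
  .of_inv (D.ok_Gi fun _ h k => D.G_Gi h ▸ (D.G_dg (D.Gi_mem h)).2 k)
    (D.ok_G fun _ h k => (D.G_dg h).1 k) (fun _ => D.G_Gi) fun _ => D.Gi_G

theorem zb_Gi' : ZB D.Gi D.Nb univ 𝕄.Tt univ :=
  .of_inv (Ok.top D.zb_Gi.ok) (Ok.top D.zb_G.ok) (fun _ => D.G_Gi) fun _ => D.Gi_G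

theorem zb_G' : ZB D.G 𝕄.Tt univ D.Nb univ :=
  .of_inv (Ok.top D.zb_G.ok) (Ok.top D.zb_Gi.ok) (fun _ => D.Gi_G) fun _ => D.G_Gi

/-- The part of `Nb` over `A` retracts onto the diagonal. -/
theorem zb_NbA {A : Set V} (hA : A ⊆ 𝕄.M) {U : Set (V × V)} (hU : IsLocallyClosed U)
    (h : ∀ y, y ∈ U ↔ y ∈ D.Nb ∧ y.1 ∈ A) : ZB Prod.fst U univ A univ := by
  have sU : U ⊆ D.Nb := fun y e => ((h y).1 e).1
  have mT : ∀ y ∈ U, ∀ t : ℝ, (y.1, t • (D.Gi y).2) ∈ 𝕄.Tt := fun y e t =>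
    Mf.Tan.rsmul (D.Gi_mem (sU e)) t
  exact .of_section (s := fun p => (p, p)) (F := fun z => D.G (z.1.1, z.2 • (D.Gi z.1).2))
    (.of_mem (.of_continuous continuous_fst _) (fun y e => ((h y).1 e).2) fun _ _ _ => trivial)
    (.of_mem (.of_continuous (by fun_prop) _)
      (fun p e => (h _).2 ⟨D.Dg_sub ⟨hA e, hA e⟩ rfl, e⟩) fun _ _ _ => trivial) (fun _ _ => rfl)
    (ext_htpy hU (D.cont_G.comp
      (continuousOn_fst.fst.prodMk (continuousOn_snd.smul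
        (D.cont_Gi.comp continuousOn_fst fun _ e => sU e.1).snd)) fun z e => mT _ e.1 _))
    (fun y e t _ => (h _).2 ⟨D.G_mem (mT y e t), by rw [D.G_fst]; exact ((h y).1 e).2⟩)
    (fun _ _ _ _ _ => trivial) (fun y _ => by simp [G])
    (fun y e => by rw [one_smul]; exact D.G_Gi (sU e))

theorem zb_Nb : ZB Prod.fst D.Nb univ 𝕄.M univ :=
  D.zb_NbA subset_rfl D.lc_Nb fun _ => ⟨fun h => ⟨h, h.1.1⟩, And.left⟩

theorem ok_fst_Nb : Ok Prod.fst D.Nb univ 𝕄.M univ := D.zb_Nb.ok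

theorem ok_snd_Nb : Ok Prod.snd D.Nb univ 𝕄.M univ :=
  .of_mem (.of_continuous continuous_snd _) (fun _ h => h.1.2) fun _ _ _ => trivial

theorem ok_diag_Nb : Ok (fun p => (p, p)) 𝕄.M univ D.Nb univ :=
  .of_mem (.of_continuous (by fun_prop) _) (fun _ h => D.Dg_sub ⟨h, h⟩ rfl) fun _ _ _ => trivial

theorem fst_diag_Nb (a : H D.Nb univ) :
    pull Prod.fst D.Nb univ (pull (fun p => (p, p)) 𝕄.M univ a) = a := by
  obtain ⟨b, rfl⟩ := D.zb_Nb.bij.2 a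
  rw [pull_pull' (F := id) D.ok_diag_Nb D.ok_fst_Nb fun _ _ => rfl, pull_id]

theorem Nb_fst_snd (a : H 𝕄.M univ) :
    pull Prod.fst D.Nb univ a = pull Prod.snd D.Nb univ a := by
  rw [← D.fst_diag_Nb (pull Prod.snd D.Nb univ a),
    pull_pull' (F := id) D.ok_diag_Nb D.ok_snd_Nb fun _ _ => rfl, pull_id]

/-- the points that are not cut points of `p` -/
theorem van_slice {p : V} (hp : p ∈ 𝕄.M) {q : ℤ} (hq : q ≠ 0) :
    Van q (({p} ×ˢ 𝕄.M) \ D.F) univ :=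
  (van_singleton p hq).pul (D.zb_NbA (singleton_subset_iff.2 hp)
    ((isClosed_singleton.prod 𝕄.cpt.isClosed).isLocallyClosed.inter
      D.isClosed_F.isOpen_compl.isLocallyClosed)
    fun y => ⟨fun h => ⟨⟨⟨h.1.1 ▸ hp, h.1.2⟩, h.2⟩, h.1.1⟩, fun h => ⟨⟨h.2, h.1.1.2⟩, h.1.2⟩⟩)

theorem zb_slice (p : V) : ZB Prod.snd (({p} : Set V) ×ˢ 𝕄.M) univ 𝕄.M univ :=
  .of_inv (s := fun q => (p, q)) (ok_snd' _ _)
    (.of_mem (.of_continuous (by fun_prop) _) (fun _ h => ⟨rfl, h⟩) fun _ _ _ => trivial)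
    (fun y h => Prod.ext (Eq.symm h.1) rfl) fun _ _ => rfl

/-- forgetting the support is injective -/
theorem F_fgt_inj : Function.Injective (pull id 𝕄.MM univ : H 𝕄.MM D.F → _) :=
  fgt_inj fun b => by
    obtain ⟨a, rfl⟩ := D.zb_Nb.bij.2 b
    exact ⟨pull Prod.fst 𝕄.MM univ a, res_pull ok_MM1 sdiff_subset (fun _ _ h => h) a⟩

theorem Nb_uv (Q : MT 𝕄) : pull id D.Nb univ Q.uu = pull id D.Nb univ Q.vv := by
  rw [MT.uu, MT.vv, res_pull ok_MM1 D.Nb_MM fun _ _ h => h, res_pull ok_MM2 D.Nb_MM fun _ _ h => h]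
  exact D.Nb_fst_snd _

end TD0

end Pool.Agent.Work.MP_8c604c_gt.OT
end
end

-- merged part: Pool.Agent.Work.MP_8c604c_gt.OG.ThM
section
/-!
The point classes of `M` and the diagonal class of `M x M`.
Hints.  `zb_pt`: `ZB.of_inv` onto `(({p} ×ˢ M) \ F).image snd`, or compose the fibre inclusion with `zb_G`-like maps
(`cont_G`, `cont_Gi`, `G_Gi`, `Gi_G`, `G_dg`; `L` is onto the range of `tp p` by `RB.surj_fib`-type rank count) and `ZB.excision`.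
`van_pt`: `van_loc`, `Van.of_pul`.  `van_Mp`: `Van.res`.  `exists_pt`: `Q.vanp`, `Van.lift`; any generator `c` of
`H M {p}` (`exists_gen`, `Gen.exists_pul`) has image `y ^ 2` or `- y ^ 2` by `gen_supp_sign`.
`exists_tau0`: extend `pull Gi Nb Dg tT` over `MM` by `exc_F`; `(uu - vv)` kills it (`Nb_uv`, `pull_cm`), so its image is
`c • hh` (`ann_hh`, `fgt_cm`); its slice over `p` is a generator of `H M {p}` (`gen_thR_fib`, `zb_pt`, `Gi_G`), whose image is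
`± y ^ 2` (`gen_supp_sign`) and `c • y ^ 2` (`pull_uu`, `pull_vv`, `const`).
The rest as in T/ThM.lean.
-/

noncomputable section

set_option linter.unusedSectionVars false
set_option linter.unusedVariables false

namespace Pool.Agent.Work.MP_8c604c_gt.OT

open Set Topology Filter Pool.Agent.Work.MP_849ab0_ag.G T

variable {V : Type} [NormedAddCommGroup V] [InnerProductSpace ℝ V] [FiniteDimensional ℝ V]
  {𝕄 : Mf V} {k : ℕ}

theorem ok_sl1 {p : V} (hp : p ∈ 𝕄.M) : Ok (fun q => (p, q)) 𝕄.M {p} 𝕄.MM (Dg V) :=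
  .of_mem (.of_continuous (by fun_prop) _) (fun _ h => ⟨hp, h⟩) fun _ _ h => Eq.symm h

theorem ok_sl2 {p : V} (hp : p ∈ 𝕄.M) : Ok (fun q => (q, p)) 𝕄.M {p} 𝕄.MM (Dg V) :=
  .of_mem (.of_continuous (by fun_prop) _) (fun _ h => ⟨h, hp⟩) fun _ _ h => h

theorem ThM_fgt {σ : V → V × V} {Z : Set V} (o : Ok σ 𝕄.M Z 𝕄.MM (Dg V)) (τ : H 𝕄.MM (Dg V)) :
    pull id 𝕄.M univ (pull σ 𝕄.M Z τ) = pull σ 𝕄.M univ (pull id 𝕄.MM univ τ) := by
  rw [res_pull (W₁ := univ) o subset_rfl fun _ _ _ => trivial,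
    pull_res (Ok.top o) subset_rfl fun _ _ _ => trivial]

theorem MT.ThM_pull (Q : MT 𝕄) {σ : V → V × V} (o : Ok σ 𝕄.M univ 𝕄.MM univ) :
    pull σ 𝕄.M univ Q.hh = pull (fun q => (σ q).1) 𝕄.M univ Q.y ^ 2 +
      pull (fun q => (σ q).1) 𝕄.M univ Q.y * pull (fun q => (σ q).2) 𝕄.M univ Q.y +
      pull (fun q => (σ q).2) 𝕄.M univ Q.y ^ 2 := by
  rw [Q.hh_eq, map_add, map_add, pull_mul o, pull_pow o, pull_pow o, Q.pull_uu o, Q.pull_vv o]

theorem MT.ThM_id (Q : MT 𝕄) : pull (fun q : V => q) 𝕄.M univ Q.y = Q.y := pull_id _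

theorem MT.ThM_sl1 (Q : MT 𝕄) {p : V} (hp : p ∈ 𝕄.M) :
    pull (fun q => (p, q)) 𝕄.M univ Q.hh = Q.y ^ 2 := by
  rw [Q.ThM_pull (Ok.top (ok_sl1 hp)), Q.const hp, Q.ThM_id]
  simp

theorem MT.ThM_sl2 (Q : MT 𝕄) {p : V} (hp : p ∈ 𝕄.M) :
    pull (fun q => (q, p)) 𝕄.M univ Q.hh = Q.y ^ 2 := by
  rw [Q.ThM_pull (Ok.top (ok_sl2 hp)), Q.const hp, Q.ThM_id]
  simp

/-- a linear parametrisation of the tangent space -/
theorem Mf.exists_lin (𝕄 : Mf V) {p : V} (hp : p ∈ 𝕄.M) : ∃ L : RN 16 →ₗ[ℝ] V,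
    Function.Injective L ∧ ∀ u, 𝕄.tp p u = u ↔ ∃ v, L v = u := by
  let e := LinearEquiv.ofFinrankEq (R := ℝ) (RN 16) (LinearMap.range (𝕄.tp p : V →ₗ[ℝ] V))
    (by rw [𝕄.rb.rank p hp]; simp)
  refine ⟨(Submodule.subtype _) ∘ₗ e.toLinearMap, (Submodule.injective_subtype _).comp e.injective,
    fun u => (𝕄.rb.mem_range hp).symm.trans ⟨fun h => ⟨e.symm ⟨u, h⟩, by simp⟩, ?_⟩⟩
  rintro ⟨v, rfl⟩
  exact (e v).2

/-- the class of the point `p` -/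
def MT.pt (Q : MT 𝕄) (p : V) : H 𝕄.M {p} :=
  Classical.epsilon fun c => Gen 16 c ∧ pull id 𝕄.M univ c = Q.y ^ 2

/-- the Thom class of the diagonal -/
def MT.tauD (Q : MT 𝕄) : H 𝕄.MM (Dg V) :=
  Classical.epsilon fun τ => IsDeg 16 τ ∧ pull id 𝕄.MM univ τ = Q.hh

namespace TD0

variable (D : TD0 𝕄 k) (Q : MT 𝕄)

/-- the exponential chart at `p` -/
theorem zb_pt {p : V} (hp : p ∈ 𝕄.M) {B : Type} [NormedAddCommGroup B] [NormedSpace ℝ B]
    [FiniteDimensional ℝ B] (hB : Module.finrank ℝ B = 16) {L : B →ₗ[ℝ] V}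
    (hL : Function.Injective L) (m : ∀ v, 𝕄.tp p (L v) = L v) :
    ZB (fun v => (D.G (p, L v)).2) univ {0} 𝕄.M {p} := by
  obtain ⟨g, hg⟩ := L.exists_leftInverse_of_injective (LinearMap.ker_eq_bot.2 hL)
  have gL : ∀ v, g (L v) = v := fun v => LinearMap.congr_fun hg v
  have sj : ∀ u, 𝕄.tp p u = u → L (g u) = u := fun u h => by
    have : LinearMap.range L = LinearMap.range (𝕄.tp p : V →ₗ[ℝ] V) :=
      Submodule.eq_of_le_of_finrank_eq (by rintro _ ⟨v, rfl⟩; exact ⟨_, m v⟩)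
        (by rw [LinearMap.finrank_range_of_inj hL, 𝕄.rb.rank p hp, hB])
    obtain ⟨v, rfl⟩ := this.ge ⟨u, h⟩
    rw [gL]
  have mT : ∀ v, (p, L v) ∈ 𝕄.Tt := fun v => ⟨hp, m v⟩
  have eG : ∀ v, (p, (D.G (p, L v)).2) = D.G (p, L v) := fun v =>
    Prod.ext (D.G_fst (p, L v)).symm rfl
  have hO : IsOpen ((fun q => (p, q)) ⁻¹' D.Fᶜ) :=
    D.isClosed_F.isOpen_compl.preimage (by fun_prop)
  have mN : ∀ q ∈ 𝕄.M ∩ (fun q => (p, q)) ⁻¹' D.Fᶜ, (p, q) ∈ D.Nb := fun q h => ⟨⟨hp, h.1⟩, h.2⟩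
  have eI : ∀ q ∈ 𝕄.M ∩ (fun q => (p, q)) ⁻¹' D.Fᶜ, (p, L (g (D.Gi (p, q)).2)) = D.Gi (p, q) :=
    fun q h => Prod.ext rfl (sj _ (D.Gi_mem (mN q h)).2)
  have o1 : Ok (fun v => (D.G (p, L v)).2) univ {0} (𝕄.M ∩ (fun q => (p, q)) ⁻¹' D.Fᶜ) {p} := by
    refine ok_of isClosed_univ.isLocallyClosed
      (D.cont_G.comp (continuous_const.prodMk L.continuous_of_finiteDimensional).continuousOn
        fun v _ => mT v).snd (fun v _ => ⟨(D.G_mem (mT v)).1.2, ?_⟩) fun v _ h =>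
      hL (((D.G_dg (mT v)).1 ((D.G_fst _).trans (Eq.symm h))).trans (map_zero L).symm)
    rw [mem_preimage, eG]
    exact (D.G_mem (mT v)).2
  have o2 : Ok (fun q => g (D.Gi (p, q)).2) (𝕄.M ∩ (fun q => (p, q)) ⁻¹' D.Fᶜ) {p} univ {0} := by
    refine ok_of (lc_M.inter hO.isLocallyClosed) (g.continuous_of_finiteDimensional.comp_continuousOn
      (D.cont_Gi.comp (by fun_prop) mN).snd) (fun _ _ => trivial) fun q h k => ?_
    have := (D.G_dg (D.Gi_mem (mN q h))).2 (by rw [← eI q h, show g _ = 0 from k, map_zero])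
    rw [D.G_Gi (mN q h)] at this
    exact Eq.symm this
  exact (ZB.of_inv o1 o2 (fun v _ => by rw [eG, D.Gi_G (mT v), gL]) fun q h => by
    rw [eI q h, D.G_Gi (mN q h)]).comp (.excision_open hO (.of_isClosed isClosed_singleton _)
      fun q _ h k => (D.F_sub k).2 (Eq.symm h)) fun _ _ => rfl

include D in
theorem van_pt {p : V} (hp : p ∈ 𝕄.M) {q : ℤ} (hq : q ≠ 16) : Van q 𝕄.M {p} := by
  obtain ⟨L, hL, m⟩ := 𝕄.exists_lin hp
  exact (van_loc (A := RN 16) (by simpa using hq)).of_pul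
    (D.zb_pt hp (by simp) hL fun v => (m _).2 ⟨v, rfl⟩)

include D Q in
theorem van_Mp {p : V} (hp : p ∈ 𝕄.M) {q : ℤ} (h0 : q ≠ 0) (h8 : q ≠ 8) (h15 : q ≠ 15) :
    Van q (𝕄.M \ {p}) univ := by
  by_cases h : q = 16
  · exact h ▸ Q.vanp p hp
  · exact Van.res rfl GysD.aux (Q.van q h0 h8 h) (D.van_pt hp (by omega))

include D in
theorem exists_pt {p : V} (hp : p ∈ 𝕄.M) :
    ∃ c : H 𝕄.M {p}, Gen 16 c ∧ pull id 𝕄.M univ c = Q.y ^ 2 := by
  obtain ⟨L, hL, m⟩ := 𝕄.exists_lin hp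
  obtain ⟨ω, hω⟩ := exists_gen (RN 16)
  obtain ⟨c, hc, -⟩ := hω.exists_pul (D.zb_pt hp (by simp) hL fun v => (m _).2 ⟨v, rfl⟩)
  replace hc : Gen 16 c := by simpa using hc
  rcases gen_supp_sign rfl GysD.aux Q.g16 hc (Q.vanp p hp) with e | e
  · exact ⟨c, hc, e⟩
  · exact ⟨-c, hc.neg, by rw [map_neg, e, neg_neg]⟩

include D in
theorem gen_pt {p : V} (hp : p ∈ 𝕄.M) : Gen 16 (Q.pt p) :=
  (Classical.epsilon_spec (D.exists_pt Q hp)).1

include D in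
theorem fgt_pt {p : V} (hp : p ∈ 𝕄.M) : pull id 𝕄.M univ (Q.pt p) = Q.y ^ 2 :=
  (Classical.epsilon_spec (D.exists_pt Q hp)).2

include D Q in
theorem pt_fgt_inj {p : V} (hp : p ∈ 𝕄.M) :
    Function.Injective (pull id 𝕄.M univ : H 𝕄.M {p} → _) := by
  refine (injective_iff_map_eq_zero _).2 fun a h => eq_zero_of_prj fun q => ?_
  by_cases k : (q : ℤ) = 16
  · obtain ⟨t, e⟩ := (D.gen_pt Q hp).span _ (isDeg_prj 16 a)
    have := congrArg (pull id 𝕄.M univ) e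
    rw [pull_prj, h, map_zero, map_smul, D.fgt_pt Q hp] at this
    rw [k, e, (smul_eq_zero.1 this.symm).resolve_right Q.g16.ne, zero_smul]
  · exact (D.van_pt hp k).eq_zero (isDeg_prj _ _)

theorem ThM_exc : ZB id D.Nb (Dg V) 𝕄.MM (Dg V) := D.exc_F 𝕄.MM

theorem exists_tau0 : ∃ (τ : H 𝕄.MM (Dg V)) (s : ℤ), (s = 1 ∨ s = -1) ∧
    pull id D.Nb (Dg V) τ = (s : ℂ) • pull D.Gi D.Nb (Dg V) 𝕄.tT ∧
    pull id 𝕄.MM univ τ = Q.hh := by
  obtain ⟨τ, e⟩ := D.ThM_exc.bij.2 (pull D.Gi D.Nb (Dg V) 𝕄.tT)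
  have d : IsDeg 16 τ := D.ThM_exc.isDeg (e ▸ Q.thZ_T.deg.pull _ _ _ :)
  have z : cup 𝕄.MM (Dg V) (Q.uu - Q.vv) τ = 0 := D.ThM_exc.bij.1 (by
    rw [map_zero, pull_cm D.ThM_exc.ok, map_sub, D.Nb_uv Q, sub_self, map_zero,
      LinearMap.zero_apply])
  obtain ⟨c, hc⟩ := Q.ann_hh (d.pull id 𝕄.MM univ) (by rw [← fgt_cm, z, map_zero])
  obtain ⟨p, hp⟩ := Q.conn.nonempty
  obtain ⟨L, hL, m⟩ := 𝕄.exists_lin hp
  replace m : ∀ v, 𝕄.tp p (L v) = L v := fun v => (m _).2 ⟨v, rfl⟩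
  have zb := D.zb_pt hp (by simp) hL m
  have o : Ok (fun v => (p, L v)) univ {0} 𝕄.Tt (zs V V) := ok_fibR hp hL m
  have o' : Ok (fun v => D.G (p, L v)) univ {0} D.Nb (Dg V) := D.zb_G.ok.comp o
  have g : Gen 16 (pull (fun q => (p, q)) 𝕄.M {p} τ) := by
    refine .of_pul ?_ zb
    rw [pull_pull' (F := fun v => D.G (p, L v)) zb.ok (ok_sl1 hp)
      fun v _ => Prod.ext (D.G_fst (p, L v)).symm rfl, ← pull_res o' D.Nb_MM fun _ _ h => h, e,
      pull_pull' (F := fun v => (p, L v)) o' D.zb_Gi.ok fun v _ => D.Gi_G (o.maps trivial)]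
    exact gen_thR_fib 𝕄.rb Q.ori_T hp (by simp) hL m
  have k := gen_supp_sign rfl GysD.aux Q.g16 g (Q.vanp p hp)
  rw [ThM_fgt (ok_sl1 hp), hc, map_smul, Q.ThM_sl1 hp] at k
  rcases k with k | k
  · obtain rfl := Q.g16.smul_inj (k.trans (one_smul _ _).symm)
    exact ⟨τ, 1, .inl rfl, by simpa using e, by simpa using hc⟩
  · obtain rfl := Q.g16.smul_inj (k.trans (neg_one_smul ℂ _).symm)
    exact ⟨-τ, -1, .inr rfl, by simp [e], by simp [hc]⟩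

theorem ThM_bij {τ : H 𝕄.MM (Dg V)}
    (h : ThZ Prod.fst D.Nb (Dg V) 𝕄.M 16 (pull id D.Nb (Dg V) τ)) :
    Function.Bijective fun a : H 𝕄.M univ => cup 𝕄.MM (Dg V) (pull Prod.fst 𝕄.MM univ a) τ := by
  rw [← Function.Bijective.of_comp_iff' D.ThM_exc.bij]
  simpa only [Function.comp_def, pull_cm D.ThM_exc.ok,
    res_pull ok_MM1 D.Nb_MM fun _ _ h => h] using h.bij

include D Q in
theorem Dg_fgt_inj : Function.Injective (pull id 𝕄.MM univ : H 𝕄.MM (Dg V) → _) := by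
  obtain ⟨τ, s, hs, e, k⟩ := D.exists_tau0 Q
  refine (injective_iff_map_eq_zero _).2 fun t h => ?_
  obtain ⟨a, rfl⟩ := (D.ThM_bij (thZ_sign (thZ_pul Q.thZ_T D.zb_Gi D.zb_Gi' fun _ _ => rfl)
    (τ' := pull id D.Nb (Dg V) τ) (by rcases hs with rfl | rfl <;> simp [e]))).2 t
  rw [fgt_cm, k] at h
  simp [Q.hh_inj h]

include D in
theorem ThM_spec : IsDeg 16 Q.tauD ∧ pull id 𝕄.MM univ Q.tauD = Q.hh := by
  obtain ⟨τ, -, -, -, k⟩ := D.exists_tau0 Q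
  exact Classical.epsilon_spec (p := fun τ : H 𝕄.MM (Dg V) =>
    IsDeg 16 τ ∧ pull id 𝕄.MM univ τ = Q.hh)
    ⟨prj {16} τ, isDeg_prj _ _, by rw [pull_prj, k, isDeg_iff.1 Q.isDeg_hh]⟩

include D in
theorem isDeg_tauD : IsDeg 16 Q.tauD := by
  exact (D.ThM_spec Q).1

include D in
theorem fgt_tauD : pull id 𝕄.MM univ Q.tauD = Q.hh := by
  exact (D.ThM_spec Q).2

theorem tauD_Nb : pull id D.Nb (Dg V) Q.tauD = pull D.Gi D.Nb (Dg V) 𝕄.tT ∨
    pull id D.Nb (Dg V) Q.tauD = -pull D.Gi D.Nb (Dg V) 𝕄.tT := by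
  obtain ⟨τ, s, hs, e, k⟩ := D.exists_tau0 Q
  rw [D.Dg_fgt_inj Q ((D.fgt_tauD Q).trans k.symm), e]
  rcases hs with rfl | rfl <;> simp

theorem G_tauD : pull D.G 𝕄.Tt (zs V V) Q.tauD = 𝕄.tT ∨ pull D.G 𝕄.Tt (zs V V) Q.tauD = -𝕄.tT := by
  have k : pull D.G 𝕄.Tt (zs V V) (pull D.Gi D.Nb (Dg V) 𝕄.tT) = 𝕄.tT := by
    rw [pull_pull' (F := id) D.zb_G.ok D.zb_Gi.ok fun _ => D.Gi_G, pull_id]
  rw [← pull_res D.zb_G.ok D.Nb_MM fun _ _ h => h]
  exact (D.tauD_Nb Q).imp (fun e => by rw [e, k]) fun e => by rw [e, map_neg, k]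

theorem thZ_Nb : ThZ Prod.fst D.Nb (Dg V) 𝕄.M 16 (pull id D.Nb (Dg V) Q.tauD) :=
  thZ_sign (thZ_pul Q.thZ_T D.zb_Gi D.zb_Gi' fun _ _ => rfl) (D.tauD_Nb Q)

include D in
theorem isZ_tauD : IsZ Q.tauD := (D.exc_F 𝕄.MM).isZ (D.thZ_Nb Q).isZ

include D in
theorem tauD_bij : Function.Bijective fun a : H 𝕄.M univ =>
    cup 𝕄.MM (Dg V) (pull Prod.fst 𝕄.MM univ a) Q.tauD := by
  exact D.ThM_bij (D.thZ_Nb Q)

include D Q in
theorem van_Dg {q : ℤ} (h : Van (q - 16) 𝕄.M univ) : Van q 𝕄.MM (Dg V) :=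
  ((D.thZ_Nb Q).van h).of_pul (D.exc_F 𝕄.MM)

include D in
theorem tauD_slice {p : V} (hp : p ∈ 𝕄.M) : pull (fun q => (p, q)) 𝕄.M {p} Q.tauD = Q.pt p := by
  refine D.pt_fgt_inj Q hp ?_
  rw [ThM_fgt (ok_sl1 hp), D.fgt_tauD, Q.ThM_sl1 hp, D.fgt_pt Q hp]

include D in
theorem tauD_slice' {p : V} (hp : p ∈ 𝕄.M) : pull (fun q => (q, p)) 𝕄.M {p} Q.tauD = Q.pt p := by
  refine D.pt_fgt_inj Q hp ?_
  rw [ThM_fgt (ok_sl2 hp), D.fgt_tauD, Q.ThM_sl2 hp, D.fgt_pt Q hp]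

include D in
theorem tauD_diag : pull (fun p => (p, p)) 𝕄.M univ Q.tauD = (3 : ℂ) • Q.y ^ 2 := by
  have o : Ok (fun p => (p, p)) 𝕄.M univ 𝕄.MM univ :=
    .of_mem (.of_continuous (by fun_prop) _) (fun _ h => ⟨h, h⟩) fun _ _ _ => trivial
  rw [← pull_res o subset_rfl fun _ _ _ => trivial, D.fgt_tauD, Q.ThM_pull o, Q.ThM_id, ← sq,
    show (3 : ℂ) = 1 + 1 + 1 by norm_num, add_smul, add_smul, one_smul]

include D in
/-- the Euler class of the tangent bundle -/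
theorem eT_eq : 𝕄.eT = (3 : ℂ) • Q.y ^ 2 ∨ 𝕄.eT = -((3 : ℂ) • Q.y ^ 2) := by
  have o : Ok (fun x => (x, (0 : V))) 𝕄.M univ 𝕄.Tt (zs V V) :=
    .of_mem (.of_continuous (by fun_prop) _) (fun _ h => geob_tan_zero h) fun _ _ _ => trivial
  have k : pull (fun x => (x, (0 : V))) 𝕄.M univ (pull D.G 𝕄.Tt (zs V V) Q.tauD) =
      (3 : ℂ) • Q.y ^ 2 := by
    rw [pull_pull' (F := fun p => (p, p)) o (D.zb_G.comp (F := D.G) D.ThM_exc fun _ _ => rfl).ok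
      fun _ _ => D.geob_G0 rfl, D.tauD_diag]
  have e : pull (fun x => (x, (0 : V))) 𝕄.M univ 𝕄.tT = 𝕄.eT := rfl
  exact (D.G_tauD Q).imp (fun h => by rw [← k, h, e]) fun h => by rw [← k, h, map_neg, e, neg_neg]

include D in
theorem gen_top : Gen 32 (cup 𝕄.MM (Dg V) (Q.uu ^ 2) Q.tauD) := by
  refine .of_pul ?_ D.ThM_exc
  rw [pull_cm D.ThM_exc.ok, MT.uu, ← pull_pow ok_MM1, res_pull ok_MM1 D.Nb_MM fun _ _ h => h]
  exact thZ_gen_mul (D.thZ_Nb Q) Q.g16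

include D Q in
theorem res_Od_surj : Function.Surjective (pull id 𝕄.Od univ : H 𝕄.MM univ → _) := fun b =>
  (exact_res_dlt (Z₁ := Dg V) rfl GysD.aux b).1 (D.Dg_fgt_inj Q (by
    rw [map_zero]; exact (exact_dlt_supp rfl GysD.aux _).2 ⟨b, rfl⟩))

include D in
theorem res_Od_eq_zero {a : H 𝕄.MM univ} : pull id 𝕄.Od univ a = 0 ↔
    ∃ b : H 𝕄.M univ, a = pull Prod.fst 𝕄.MM univ b * Q.hh := by
  refine (exact_supp_res (Z₁ := Dg V) rfl GysD.aux a).trans ⟨?_, ?_⟩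
  · rintro ⟨t, rfl⟩
    obtain ⟨b, rfl⟩ := (D.tauD_bij Q).2 t
    exact ⟨b, by rw [fgt_cm, D.fgt_tauD]⟩
  · rintro ⟨b, rfl⟩
    exact ⟨_, by rw [fgt_cm, D.fgt_tauD]⟩

include Q in
theorem res_F_surj {p : ℤ} {a : H D.F univ} (ha : IsDeg p a) :
    ∃ b : H 𝕄.MM univ, IsDeg p b ∧ a = pull id D.F univ b := by
  obtain ⟨x, rfl⟩ := D.zb_resF.bij.2 a
  obtain ⟨b, rfl⟩ := D.res_Od_surj Q x
  refine ⟨_, isDeg_prj p b, ?_⟩
  rw [res_pull (ok_fgt Od_sub) D.F_sub fun _ _ h => h] at ha ⊢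
  rw [pull_prj, isDeg_iff.1 ha]

theorem res_F_eq_zero {a : H 𝕄.MM univ} : pull id D.F univ a = 0 ↔
    ∃ b : H 𝕄.M univ, a = pull Prod.fst 𝕄.MM univ b * Q.hh := by
  rw [← res_pull (ok_fgt Od_sub) D.F_sub (fun _ _ h => h) a, map_eq_zero_iff _ D.zb_resF.bij.1,
    D.res_Od_eq_zero Q]

include Q in
theorem res_F_inj {p : ℤ} {b : H 𝕄.MM univ} (hb : IsDeg p b) (hp : p < 16)
    (e : pull id D.F univ b = 0) : b = 0 := by
  obtain ⟨c, rfl⟩ := (D.res_F_eq_zero Q).1 e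
  rw [← isDeg_iff.1 hb, mulH, ← cup_prj_left (s := {p - 16}) (fun q => by
    simp [eq_sub_iff_add_eq]) _ Q.isDeg_hh, (isDeg_prj _ _).eq_zero_of_neg (by omega), map_zero,
    LinearMap.zero_apply]

theorem res_F_hh : pull id D.F univ Q.hh = 0 :=
  (D.res_F_eq_zero Q).2 ⟨1, by rw [pull_oneH ok_MM1, one_mul]⟩

/-- the kernel of the restriction to `F` in degree `16` -/
theorem res_F_deg16 {b : H 𝕄.MM univ} (hb : IsDeg 16 b) (e : pull id D.F univ b = 0) :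
    ∃ c : ℂ, b = c • Q.hh := by
  obtain ⟨c, rfl⟩ := (D.res_F_eq_zero Q).1 e
  obtain ⟨t, k⟩ := (gen_one Q.conn).span _ (isDeg_prj 0 c)
  refine ⟨t, ?_⟩
  rw [← isDeg_iff.1 hb, mulH, ← cup_prj_left (s := {0}) (fun q => by simp) _ Q.isDeg_hh,
    ← pull_prj, k, map_smul, pull_oneH ok_MM1, ← mulH, smul_mul_assoc, one_mul]

end TD0

end Pool.Agent.Work.MP_8c604c_gt.OT
end
end

-- merged part: Pool.Agent.Work.MP_8c604c_gt.OG.ThF
section
/-!
The multiplicity is seven; the lift `thF` of `vv - uu` to supports in `F` is a Thom class.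
Hints.  `van_F1`: `zb_hat'` with `slice_iff`, and `snd` identifies `({p} ×ˢ M) \ Dg` with `M \ {p}` (`ZB.of_inv`).
`k_eq`: as `k_eq'` in T/ThF.lean, with an orientation over `F ∩ {y | y.1 = p}` (`sgnTriv_of_van`, `van_F1`,
`RB.exists_ori`, `thZ_tube`, `slice_iff`, `exc_Dg`, `van_slice`, `zb_slice`, `ThZ.van_lt`, `supp_surj`, `supp_inj`).
`sgnTriv_F`: `SgnTriv.desc` for `en : S → F` (subtypes, closed map), `isPreconnected_en`; `van_S` below.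
`thF_eq`: `thF` restricted to `Od` is `c • thO` (`ThZ.gen`, `Gen.span`).  On the slice `{p} ×ˢ M` the class `thF` is a
generator (`Gen.of_supp`, `van_slice`, `zb_slice`), and so is `thO` on `({p} ×ˢ M) \ Dg` (`thZ_thO`, `ThZ.gen`,
`isConnected_F1`, `exc_Dg`); `Gen.eq_or`, `Gen.smul_inj`.
-/

noncomputable section

set_option linter.unusedSectionVars false
set_option linter.unusedVariables false

namespace Pool.Agent.Work.MP_8c604c_gt.OT

open Set Topology Filter Pool.Agent.Work.MP_849ab0_ag.G T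

variable {V : Type} [NormedAddCommGroup V] [InnerProductSpace ℝ V] [FiniteDimensional ℝ V]
  {𝕄 : Mf V} {k : ℕ}

namespace TD0

section

variable (D : TD0 𝕄 k) (Q : MT 𝕄)

theorem van_F1 {p : V} (hp : p ∈ 𝕄.M) {q : ℤ} (h : Van q (𝕄.M \ {p}) univ) :
    Van q (D.F ∩ {y | y.1 = p}) univ := by
  refine (h.pul (.of_inv (f := Prod.snd) (s := fun q => (p, q))
    (U := (({p} : Set V) ×ˢ 𝕄.M) \ Dg V) (Z := univ)
    (.of_mem (.of_continuous continuous_snd _)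
      (fun y e => ⟨e.1.2, fun e' => e.2 (e.1.1.trans (Eq.symm e'))⟩) fun _ _ _ => trivial)
    (.of_mem (.of_continuous (by fun_prop) _)
      (fun y e => ⟨⟨rfl, e.1⟩, fun e' => e.2 (Eq.symm e')⟩) fun _ _ _ => trivial)
    (fun y e => Prod.ext (Eq.symm e.1.1) rfl) fun _ _ => rfl)).of_pul
    (D.zb_hat' inter_subset_left (D.slice_iff hp))

include D Q in
/-- The conjugate multiplicity is seven. -/
theorem k_eq : k = 7 := by
  obtain ⟨p, hp⟩ := Q.conn.nonempty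
  have c : IsClosed {y : V × V | y.1 = p} := isClosed_eq continuous_fst continuous_const
  have l := (D.isClosed_F.inter c).isLocallyClosed
  obtain ⟨o, ho⟩ := (D.rb_WF.mono l inter_subset_left).exists_ori
    (sgnTriv_of_van (D.isCompact_F.inter_right c)
      (D.van_F1 hp (D.van_Mp Q hp (by omega) (by omega) (by omega))))
  by_contra hk
  have v := ((D.thZ_tube inter_subset_left (D.slice_iff hp) l ho).van (q := 8)
    (D.van_F1 hp (D.van_Mp Q hp (by omega) (by omega) (by omega)))).of_pul (D.exc_Dg _)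
  exact Q.y_ne (((Van.mid rfl GysD.aux v (D.van_slice hp (by omega))).of_pul
    (zb_slice p)).eq_zero Q.isDeg_y)

include Q in
theorem van_S {q : ℤ} (h : q ≠ 0 ∧ q ≠ 8 ∧ q ≠ 16) (h' : q ≠ 15 ∧ q ≠ 23 ∧ q ≠ 31) :
    Van q D.S univ :=
  (Q.thZ_T.van_sp (Q.van q h.1 h.2.1 h.2.2) (Q.van _ (by omega) (by omega) (by omega))).pul D.zb_S

include Q in
theorem sgnTriv_S : SgnTriv D.S := sgnTriv_of_van D.cpt (D.van_S Q (by omega) (by omega))

include Q in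
theorem sgnTriv_F : SgnTriv D.F := by
  have m : MapsTo D.en D.S D.F := fun _ h => D.en_mem h
  have := isCompact_iff_compactSpace.1 D.cpt
  have c : Continuous (m.restrict _ _ _) := D.continuous_en.restrict m
  have hk := D.k_eq Q
  refine SgnTriv.of_subtype ((D.sgnTriv_S Q).to_subtype.desc (q := m.restrict _ _ _)
    (c.isClosedMap.isQuotientMap c fun y => ?_) fun x => ?_)
  · obtain ⟨a, ha, e⟩ := D.F_eq.subset y.2
    exact ⟨⟨a, ha⟩, Subtype.ext e⟩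
  · have e : Subtype.val '' (m.restrict _ _ _ ⁻¹' {x}) = D.S ∩ D.en ⁻¹' {x.1} :=
      Set.ext fun y => ⟨fun ⟨z, e, e'⟩ => e' ▸ ⟨z.2, congrArg Subtype.val e⟩,
        fun ⟨a, b⟩ => ⟨⟨y, a⟩, Subtype.ext b, rfl⟩⟩
    rw [← IsInducing.subtypeVal.isPreconnected_image, e]
    exact D.isPreconnected_en (by omega) x.2

theorem exists_thF :
    ∃ θ : H 𝕄.MM D.F, IsDeg 8 θ ∧ pull id 𝕄.MM univ θ = Q.vv - Q.uu :=
  exists_lift_deg (Q.isDeg_vv.sub Q.isDeg_uu) (by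
    rw [map_sub]; exact sub_eq_zero.2 (D.Nb_uv Q).symm)

/-- the lift of `vv - uu` to supports in `F` -/
def thF : H 𝕄.MM D.F := (D.exists_thF Q).choose

theorem isDeg_thF : IsDeg 8 (D.thF Q) := (D.exists_thF Q).choose_spec.1

theorem fgt_thF : pull id 𝕄.MM univ (D.thF Q) = Q.vv - Q.uu := (D.exists_thF Q).choose_spec.2

theorem eq_thF {θ : H 𝕄.MM D.F} (h : pull id 𝕄.MM univ θ = Q.vv - Q.uu) :
    θ = D.thF Q := D.F_fgt_inj (h.trans (D.fgt_thF Q).symm)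

theorem isZ_thF : IsZ (D.thF Q) := by
  obtain ⟨c, c1, -, c2⟩ := ((Q.tf8.pul D.zb_Nb).lift (U := 𝕄.MM) (Z₁ := D.F) rfl GysD.aux
    (Q.isZ_vv.sub Q.isZ_uu) (Q.isDeg_vv.sub Q.isDeg_uu)
    (by rw [map_sub]; exact sub_eq_zero.2 (D.Nb_uv Q).symm))
  exact D.eq_thF Q c2 ▸ c1

theorem hh_thF : cup 𝕄.MM D.F Q.hh (D.thF Q) = 0 := D.F_fgt_inj (by
  rw [fgt_cm, D.fgt_thF, map_zero, ← neg_sub, mul_neg,
    (IsDeg.evn (Q.isDeg_uu.sub Q.isDeg_vv) ⟨4, rfl⟩).commH, Q.sub_mul_hh, neg_zero])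

/-- the image of `thF` on a subset -/
theorem res_thF {U : Set (V × V)} (h : U ⊆ 𝕄.MM) :
    pull id U univ (D.thF Q) = pull id U univ (Q.vv - Q.uu) := by
  rw [← D.fgt_thF, res_pull (ok_fgt subset_rfl) h fun _ _ h => h]

theorem swap_thF : pull Prod.swap 𝕄.MM D.F (D.thF Q) = -D.thF Q := by
  have o : Ok Prod.swap 𝕄.MM D.F 𝕄.MM D.F := .of_mem (.of_continuous continuous_swap _)
    (fun _ h => ⟨h.2, h.1⟩) fun y _ h => D.swap_F (y := y.swap) h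
  refine D.F_fgt_inj ?_
  rw [res_pull o subset_rfl (fun _ _ _ => mem_univ _), map_neg, D.fgt_thF,
    ← pull_res (Ok.top o) subset_rfl (fun _ _ _ => mem_univ _) (D.thF Q), D.fgt_thF, map_sub,
    Q.pull_uu (Ok.top o), Q.pull_vv (Ok.top o), neg_sub]
  rfl

end

variable (D : TD0 𝕄 7) (Q : MT 𝕄)

/-- an orientation of `WF` -/
def oF : V × V → V [⋀^Fin 8]→L[ℝ] ℝ := Classical.epsilon (Ori D.WF 8 D.F)

include Q in
theorem ori_F : Ori D.WF 8 D.F D.oF := Classical.epsilon_spec (D.rb_WF.exists_ori (D.sgnTriv_F Q))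

/-- the Thom class of `F` in `Od` -/
def thO : H 𝕄.Od D.F := pull D.Thi 𝕄.Od D.F (thR D.WF 8 D.F D.oF)

theorem pull_Th_thO : pull D.Th (totR D.WF D.F) (zs _ _) D.thO = thR D.WF 8 D.F D.oF := by
  rw [thO, pull_pull' (F := id) D.ok_Th D.ok_Thi fun _ => D.Thi_Th, pull_id]

theorem res_thO : pull id D.F univ D.thO = euR D.WF 8 D.oF D.F := by
  rw [thO, res_pull D.ok_Thi D.F_sub fun _ _ _ => mem_univ _]
  exact congrArg (fun f : _ →ₗ[ℂ] _ => f _) (pull_congr fun y hy => D.Thi_of_mem hy)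

include Q in
theorem thZ_thO {B U : Set (V × V)} (hB : IsLocallyClosed B) (hBF : B ⊆ D.F)
    (hU : ∀ y, y ∈ U ↔ y ∈ 𝕄.Od ∧ D.hat y ∈ B) :
    ThZ D.hat U D.F B 8 (pull id U D.F D.thO) := by
  have b : BMap D.WF B D.WF D.F id fun _ => ContinuousLinearMap.id ℝ _ :=
    ⟨continuousOn_id, hBF, continuousOn_const, fun _ _ _ h => h, fun _ _ _ _ h => h⟩
  have t : ThZ D.hat U D.F B 8 (pull D.Thi U D.F (thR D.WF 8 B D.oF)) :=
    D.thZ_tube hBF hU hB ((D.ori_F Q).mono hBF)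
  rw [← pull_thR (r := 8) D.rb_WF (D.ori_F Q) (D.rb_WF.mono hB hBF) ((D.ori_F Q).mono hBF) b
    fun _ _ _ _ => rfl, pull_pull' (F := D.Thi) (D.ok_Thi' hBF hU) (b.ok hB) fun _ _ => rfl] at t
  rw [thO, res_pull D.ok_Thi (fun y h => ((hU y).1 h).1) fun _ _ h => h]
  exact t

theorem thF_eq : pull id 𝕄.Od D.F (D.thF Q) = D.thO ∨ pull id 𝕄.Od D.F (D.thF Q) = -D.thO := by
  obtain ⟨p, hp⟩ := Q.conn.nonempty
  have g := (D.thZ_thO Q D.lc_F subset_rfl D.Od_iff).gen (D.isConnected_F Q.conn)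
  rw [pull_id] at g
  obtain ⟨c, e⟩ := g.span _ ((D.isDeg_thF Q).pull id 𝕄.Od D.F)
  have g1 := (D.thZ_thO Q (D.isClosed_F.inter
    (isClosed_eq continuous_fst continuous_const)).isLocallyClosed inter_subset_left
    (D.slice_iff hp)).gen (D.isConnected_F1 hp)
  have s : ({p} : Set V) ×ˢ 𝕄.M ⊆ 𝕄.MM := fun y h => ⟨h.1 ▸ hp, h.2⟩
  have o : Ok id (({p} : Set V) ×ˢ 𝕄.M) D.F 𝕄.MM D.F := .id s fun _ _ h => h
  have g2 : Gen 8 (pull id (({p} : Set V) ×ˢ 𝕄.M) D.F (D.thF Q)) := by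
    refine .of_supp rfl GysD.aux ?_ ((D.isZ_thF Q).pul _ _ _) ((D.isDeg_thF Q).pull _ _ _)
      fun _ => (D.van_slice hp (by omega)).eq_zero
    rw [res_pull o subset_rfl (fun _ _ _ => mem_univ _), D.res_thF Q s, map_sub,
      Q.pull_uu (ok_fgt s), Q.pull_vv (ok_fgt s),
      pull_congr (f := fun x : V × V => (id x).1) (g := fun _ => p) fun _ h => h.1, Q.const hp,
      sub_zero]
    exact Q.g8.pul (zb_slice p)
  have g3 := g2.pul (D.exc_Dg _)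
  rw [res_pull o sdiff_subset (fun _ _ h => h), ← res_pull (.id Od_sub fun _ _ h => h)
    (fun y h => ((D.slice_iff hp y).1 h).1) (fun _ _ h => h) (D.thF Q), e, map_smul] at g3
  rw [e]
  refine (g1.eq_or g3).imp (fun h => ?_) fun h => ?_
  · rw [g1.smul_inj (h.trans (one_smul _ _).symm), one_smul]
  · rw [g1.smul_inj (h.trans (neg_one_smul ℂ _).symm), neg_one_smul]

/-- `thF` is a Thom class over every locally closed part `B` of `F`. -/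
theorem thZ_thF {B U : Set (V × V)} (hB : IsLocallyClosed B) (hBF : B ⊆ D.F)
    (hU : ∀ y, y ∈ U ↔ y ∈ 𝕄.Od ∧ D.hat y ∈ B) :
    ThZ D.hat U D.F B 8 (pull id U D.F (D.thF Q)) := by
  have e := res_pull (.id Od_sub fun _ _ h => h) (fun y h => ((hU y).1 h).1)
    (fun _ _ (h : _ ∈ D.F) => h) (D.thF Q)
  refine thZ_sign (D.thZ_thO Q hB hBF hU) ((D.thF_eq Q).imp (fun h => ?_) fun h => ?_)
  · rw [← e, h]
  · rw [← e, h, map_neg]

theorem gysD_thF {B U : Set (V × V)} (hB : IsLocallyClosed B) (hBF : B ⊆ D.F)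
    (hU : ∀ y, y ∈ U ↔ y ∈ 𝕄.Od ∧ D.hat y ∈ B) :
    GysD D.hat U D.F B (pull id U D.F (D.thF Q)) 8 (pull id B univ (Q.vv - Q.uu)) := by
  have sU : U ⊆ 𝕄.Od := fun y h => ((hU y).1 h).1
  have o : Ok D.hat U univ D.F univ :=
    .of_mem (D.ok_hat.ext.mono sU) (fun y h => D.hat_mem (sU h)) fun _ _ _ => trivial
  refine thZ_gysD (D.thZ_thF Q hB hBF hU) ?_
  rw [res_pull (.id (sU.trans Od_sub) fun _ _ h => h) subset_rfl (fun _ _ _ => mem_univ _),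
    D.res_thF Q (sU.trans Od_sub), ← res_pull (ok_fgt Od_sub) sU (fun _ _ h => h) (Q.vv - Q.uu),
    ← D.hat_pull, res_pull D.ok_hat sU (fun _ _ h => h),
    pull_res (D.zb_hat' hBF hU).ok (hBF.trans D.F_MM) (fun _ _ h => h),
    pull_res o D.F_MM fun _ _ h => h]

/-- `thF` is a generator on the slices of the tube. -/
theorem thF_slice {y : V × V} (hy : y ∈ D.F) {B : Type} [NormedAddCommGroup B]
    [NormedSpace ℝ B] [FiniteDimensional ℝ B] (hB : Module.finrank ℝ B = 8)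
    {L : B →ₗ[ℝ] V} (hL : Function.Injective L) (m : ∀ v, L v ∈ D.Ws y) :
    Gen 8 (pull (fun v => D.Th (y, L v)) univ {0} (D.thF Q)) := by
  have g : Gen 8 (pull (fun v => (y, L v)) univ {0} (thR D.WF 8 D.F D.oF)) :=
    gen_thR_fib D.rb_WF (D.ori_F Q) hy hB hL fun v => D.WF_eq.2 (m v)
  rw [← D.pull_Th_thO, pull_pull' (F := fun v => D.Th (y, L v))
    (ok_fibR hy hL fun v => D.WF_eq.2 (m v)) D.ok_Th fun _ _ => rfl] at g
  rw [← pull_res (D.ok_slice hy hL m) Od_sub fun _ _ h => h]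
  rcases D.thF_eq Q with e | e
  · rwa [e]
  · rw [e, map_neg]
    exact g.neg

/-- the Euler class of `WF` -/
theorem euR_WF : euR D.WF 8 D.oF D.F = pull id D.F univ (Q.vv - Q.uu) ∨
    euR D.WF 8 D.oF D.F = -pull id D.F univ (Q.vv - Q.uu) := by
  rw [← D.res_thF Q D.F_MM, ← res_pull (.id Od_sub fun _ _ h => h) D.F_sub
    (fun _ _ _ => mem_univ _) (D.thF Q), ← D.res_thO]
  refine (D.thF_eq Q).imp (fun e => ?_) fun e => ?_
  · rw [e]
  · rw [e, map_neg, neg_neg]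

include Q in
theorem thZ_WF : ThZ Prod.fst (totR D.WF D.F) (zs _ _) D.F 8 (thR D.WF 8 D.F D.oF) :=
  D.rb_WF.thZ (D.ori_F Q) (by norm_num)

include Q in
theorem van_F {q : ℤ} (h : ¬ 8 ∣ q) (h' : q < 15) : Van q D.F univ := by
  have key : ∀ q : ℤ, ¬ 8 ∣ q → q < 15 → Van (q - 8) D.F univ → Van q D.F univ := fun q h h' v =>
    (D.thZ_WF Q).van_base ((D.van_S Q (by omega) (by omega)).of_pul D.zb_SW) v
  exact key q h h' (key _ (by omega) (by omega) (van_neg (by omega)))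

end TD0

end Pool.Agent.Work.MP_8c604c_gt.OT
end
end
end

-- merged part: Pool.Agent.Work.MP_8c604c_gt.OG.HS
section
/-!
The cohomology of the space `S` of closed geodesics, and of the part of `S` over a contractible set.
Hints.  `zb_S`, `Q.thZ_T`, `Q.gysD_T`, `eT_eq`; `gen_uS`: `thZ_gen_sp`; `tf8_S`: `ThZ.tf_sp`; `S_deg`, `uS_sq`, `S_23` as
`S_evn`, `S_odd` in T/HS.lean (`GysD.gys_eq_zero`, `gys_mul_e`, `gys_deg`, `pull_e`, `MT.deg`).
`exists_sig`: `Van.exists_dlt` (`Van 32` of `Tt` from `ThZ.base`), `Gen.of_dlt`.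
`van_F_top`: `thZ_van_nil` for `thZ_WF`, finitely many frames (`RB.exists_frame`, compactness), `zb_SW`, `van_S`.
`gen_uv`: `Gen.supp` for `gen_top`, `zb_hat`, `hh_top`, `uv_pow_ne`.
`van_SA`: `RB.mono`, `Ori.mono`, `RB.thZ`, `ThZ.van_sp`, `zb_cone` as in `zb_S`.
-/

noncomputable section

set_option linter.unusedSectionVars false
set_option linter.unusedVariables false

namespace Pool.Agent.Work.MP_8c604c_gt.OT

open Set Topology Filter Pool.Agent.Work.MP_849ab0_ag.G T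

variable {V : Type} [NormedAddCommGroup V] [InnerProductSpace ℝ V] [FiniteDimensional ℝ V]
  {𝕄 : Mf V} {k : ℕ}

theorem MT.exists_sig (Q : MT 𝕄) : ∃ σ : H (𝕄.Tt \ zs V V) univ,
    Gen 31 σ ∧ dlt 𝕄.Tt (zs V V) σ = Q.wT := by
  obtain ⟨σ, z1, z2, z3⟩ := Van.exists_dlt (d := 31) rfl GysD.aux
    ((Q.van _ (by norm_num) (by norm_num) (by norm_num)).pul Q.thZ_T.base) Q.gen_wT.isZ Q.gen_wT.deg
  exact ⟨σ, Gen.of_dlt (d := 31) rfl GysD.aux (z3 ▸ Q.gen_wT) z1 z2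
    ((Q.van _ (by norm_num) (by norm_num) (by norm_num)).pul Q.thZ_T.base), z3⟩

/-- the top class of the nonzero tangent vectors -/
def MT.sig (Q : MT 𝕄) : H (𝕄.Tt \ zs V V) univ := Q.exists_sig.choose

theorem MT.gen_sig (Q : MT 𝕄) : Gen 31 Q.sig := Q.exists_sig.choose_spec.1

theorem MT.dlt_sig (Q : MT 𝕄) : dlt 𝕄.Tt (zs V V) Q.sig = Q.wT := Q.exists_sig.choose_spec.2

namespace TD0

variable (D : TD0 𝕄 k) (Q : MT 𝕄)

/-- the class `y` on closed geodesics -/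
def uS : H D.S univ := pull (fun c : LM V => c 1) D.S univ Q.y

/-- the top class of the closed geodesics -/
def sS : H D.S univ := pull (fun c : LM V => (c 1, D.vel c)) D.S univ Q.sig

theorem isDeg_uS : IsDeg 8 (D.uS Q) := Q.isDeg_y.pull _ _ _

theorem gen_sS : Gen 31 (D.sS Q) := Q.gen_sig.pul D.zb_S

theorem ev_eq (θ : Circle) (a : H 𝕄.M univ) :
    pull (fun c : LM V => c θ) D.S univ a = pull (fun c : LM V => c 1) D.S univ a := by
  obtain ⟨s, -, rfl⟩ := exists_cs θ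
  have := pull_htpy_compact D.cpt (F := fun z : LM V × ℝ => z.1 (cs (z.2 * s)))
    (continuous_fst.eval (continuous_cs.comp (continuous_snd.mul continuous_const)))
    (fun c hc t _ => D.mem c hc _) a
  simp only [zero_mul, one_mul, cs_zero] at this
  exact this.symm

theorem en_uu : pull D.en D.S univ Q.uu = D.uS Q :=
  Q.pull_uu (.of_mem D.ok_en.ext (fun _ h => D.F_MM (D.en_mem h)) fun _ _ _ => trivial)

theorem en_vv : pull D.en D.S univ Q.vv = D.uS Q :=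
  (Q.pull_vv (.of_mem D.ok_en.ext (fun _ h => D.F_MM (D.en_mem h)) fun _ _ _ => trivial)).trans
    (D.ev_eq _ _)

include Q in
theorem HS_pull (a : H 𝕄.M univ) : pull (fun c : LM V => (c 1, D.vel c)) D.S univ
    (pull Prod.fst (𝕄.Tt \ zs V V) univ a) = pull (fun c : LM V => c 1) D.S univ a :=
  pull_pull' D.zb_S.ok Q.gysD_T.ok0 (fun _ _ => rfl) a

theorem HS_lift {p : ℤ} {x : H D.S univ} (hx : IsDeg p x) : ∃ b : H (𝕄.Tt \ zs V V) univ,
    IsDeg p b ∧ x = pull (fun c : LM V => (c 1, D.vel c)) D.S univ b := by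
  obtain ⟨b, rfl⟩ := D.zb_S.bij.2 x
  exact ⟨b, D.zb_S.isDeg hx, rfl⟩

omit D in
theorem HS_fst {p : ℤ} {b : H (𝕄.Tt \ zs V V) univ} (hb : IsDeg p b) (h : Q.gysD_T.gys b = 0) :
    ∃ a : H 𝕄.M univ, IsDeg p a ∧ b = pull Prod.fst (𝕄.Tt \ zs V V) univ a := by
  obtain ⟨a, rfl⟩ := (Q.gysD_T.gys_eq_zero b).1 h
  exact ⟨prj {p} a, isDeg_prj _ _, by rw [pull_prj, isDeg_iff.1 hb]⟩

omit D in
theorem HS_odd {p : ℤ} {b : H (𝕄.Tt \ zs V V) univ} (hb : IsDeg p b) (hp : ¬ 8 ∣ p)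
    (h : Q.gysD_T.gys b = 0) : b = 0 := by
  obtain ⟨a, ha, rfl⟩ := HS_fst Q hb h
  rw [Q.deg_zero ha (Or.inl hp), map_zero]

include D in
theorem HS_e : ∃ s : ℂ, s ≠ 0 ∧ 𝕄.eT = s • Q.y ^ 2 :=
  (D.eT_eq Q).elim (fun h => ⟨3, three_ne_zero, h⟩) fun h =>
    ⟨-3, neg_ne_zero.2 three_ne_zero, h.trans (neg_smul _ _).symm⟩

include D in
theorem HS_y2 : pull Prod.fst (𝕄.Tt \ zs V V) univ (Q.y ^ 2) = 0 := by
  obtain ⟨s, h1, h2⟩ := D.HS_e Q
  have := Q.gysD_T.pull_e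
  rw [h2, map_smul] at this
  exact (smul_eq_zero.1 this).resolve_left h1

theorem gen_uS : Gen 8 (D.uS Q) := by
  rw [uS, ← D.HS_pull Q]
  exact (thZ_gen_sp Q.thZ_T Q.g8 (van_neg (by norm_num)) (van_neg (by norm_num))).pul D.zb_S

include Q in
theorem tf8_S : Tf 8 D.S univ := by
  exact (Q.thZ_T.tf_sp Q.tf8 (van_neg (by norm_num)) (van_neg (by norm_num))).pul D.zb_S

theorem uS_sq : D.uS Q ^ 2 = 0 := by
  rw [uS, ← pull_pow (D.ok_ev 1), ← D.HS_pull Q, D.HS_y2 Q, map_zero]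

include Q in
theorem S_deg {q : ℤ} {a : H D.S univ} (ha : IsDeg q a) (h : q ≠ 0 ∧ q ≠ 8 ∧ q ≠ 23 ∧ q ≠ 31) :
    a = 0 := by
  obtain ⟨b, hb, rfl⟩ := D.HS_lift ha
  rcases eq_or_ne q 15 with rfl | h1
  · obtain ⟨c, hc⟩ := Q.deg (j := 0) (Q.gysD_T.gys_deg hb (by norm_num))
    obtain ⟨s, s1, s2⟩ := D.HS_e Q
    have k := Q.gysD_T.gys_mul_e b
    rw [hc, s2, pow_zero, smul_mul_assoc, one_mul, smul_eq_zero, smul_eq_zero] at k
    have c0 : c = 0 := k.resolve_right (not_or.2 ⟨s1, Q.y_pow_ne le_rfl⟩)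
    rw [HS_odd Q hb (by norm_num) (by rw [hc, c0, zero_smul]), map_zero]
  rcases eq_or_ne q 16 with rfl | h2
  · obtain ⟨a, k, rfl⟩ := HS_fst Q hb (Q.deg_zero (Q.gysD_T.gys_deg (p := 1) hb (by norm_num))
      (Or.inl (by norm_num)))
    obtain ⟨c, rfl⟩ := Q.deg (j := 2) k
    rw [map_smul, D.HS_y2 Q, smul_zero, map_zero]
  exact (D.van_S Q ⟨h.1, h.2.1, h2⟩ ⟨h1, h.2.2⟩).eq_zero ha

/-- the class of degree 23 -/
theorem S_23 : ∃ σ : H D.S univ, IsDeg 23 σ ∧ D.uS Q * σ = D.sS Q ∧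
    ∀ a : H D.S univ, IsDeg 23 a → ∃ t : ℂ, a = t • σ := by
  obtain ⟨s, -, s2⟩ := D.HS_e Q
  obtain ⟨c, hc⟩ := (Q.gysD_T.mul_eq_zero Q.y).1 (by
    rw [s2, mul_smul_comm, ← pow_succ', Q.y_pow, smul_zero])
  have h1 : Q.gysD_T.gys (prj {23} c) = Q.y := by
    rw [Q.gysD_T.gys_prj (t := {8}) (fun p => by simp only [mem_singleton_iff]; omega), hc,
      isDeg_iff.1 Q.isDeg_y]
  have h2 : IsDeg 23 (prj {23} c) := isDeg_prj _ _
  refine ⟨_, h2.pull (fun c : LM V => (c 1, D.vel c)) D.S univ, ?_, fun a ha => ?_⟩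
  · rw [uS, ← D.HS_pull Q, ← pull_mul D.zb_S.ok, sS]
    refine congrArg _ (sub_eq_zero.1 (HS_odd Q (p := 31)
      (IsDeg.sub (IsDeg.mulH (Q.isDeg_y.pull _ _ _) h2) Q.gen_sig.deg) (by norm_num) ?_))
    rw [map_sub, Q.gysD_T.gys_mul_evn (IsDeg.evn Q.isDeg_y ⟨4, rfl⟩), h1,
      Q.gysD_T.gys_eq.2 Q.dlt_sig, sq, sub_self]
  · obtain ⟨b, hb, rfl⟩ := D.HS_lift ha
    obtain ⟨t, ht⟩ := Q.g8.span _ (Q.gysD_T.gys_deg hb (by norm_num))
    refine ⟨t, ?_⟩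
    rw [← map_smul]
    refine congrArg _ (sub_eq_zero.1 (HS_odd Q (hb.sub (h2.smul t)) (by norm_num) ?_))
    rw [map_sub, map_smul, h1, ht, sub_self]

include Q in
theorem van_SA {A : Set V} (hA : IsCompact A) (h : A ⊆ 𝕄.M) {q : ℤ} (v : Van q A univ)
    (v' : Van (q - 15) A univ) : Van q (D.S ∩ {c | c 1 ∈ A}) univ := by
  have r := 𝕄.rb.mono hA.isClosed.isLocallyClosed h
  have c : IsCompact (D.S ∩ {c | c 1 ∈ A}) :=
    D.cpt.inter_right (hA.isClosed.preimage (continuous_eval_const 1))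
  have e : q + 1 - (16 : ℕ) = q - 15 := by omega
  refine ((r.thZ (Q.ori_T.mono h) (by norm_num)).van_sp v (e ▸ v')).pul
    (zb_cone r.lc_nz (fun _ h => h.2) (fun _ h _ ht => cone_nz h ht.ne') c
      c.isClosed.isLocallyClosed (continuous_eval_const 1).continuousOn
      (D.cvel.mono inter_subset_left) (fun c hc => ⟨⟨hc.2, (D.tan c hc.1).2⟩, D.vne c hc.1⟩)
      (fun z hz => ?_) fun c hc c' hc' r hr e e' => D.uniq c hc.1 c' hc'.1 e r hr e')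
  obtain ⟨c, hc, e, r, hr, e'⟩ := D.ex z.1 z.2 ⟨h hz.1.1, hz.1.2⟩ hz.2
  exact ⟨c, ⟨hc, show c 1 ∈ A from e ▸ hz.1.1⟩, r, hr, e, e'⟩

theorem ok_j0 : Ok D.j0 D.S univ (D.Nb \ Dg V) univ :=
  .of_mem (.of_continuous D.continuous_j0 _) (fun _ hc => D.j0_mem hc) fun _ _ _ => trivial

theorem zb_j0 : ZB D.j0 D.S univ (D.Nb \ Dg V) univ := by
  refine D.zb_S.comp (f' := D.G) (.of_inv (s := D.Gi)
    (ok_top 𝕄.rb.lc_nz (D.cont_G.mono sdiff_subset) fun y hy =>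
      ⟨D.G_mem hy.1, fun k => hy.2 ((D.G_dg hy.1).1 k)⟩)
    (ok_top ((Cl.of_isClosed isClosed_Dg _).isLocallyClosed_diff D.lc_Nb)
      (D.cont_Gi.mono sdiff_subset) fun y hy => ⟨D.Gi_mem hy.1, fun k => hy.2 ?_⟩)
    (fun y hy => D.Gi_G hy.1) fun y hy => D.G_Gi hy.1) fun c hc => D.G_vel hc
  rw [← D.G_Gi hy.1]
  exact (D.G_dg (D.Gi_mem hy.1)).2 k

include Q in
theorem van_F_top (D : TD0 𝕄 7) {q : ℤ} (h : 25 ≤ q) : Van q D.F univ := by
  choose W T L h1 h2 using fun x : D.F => D.rb_WF.exists_frame x.2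
  obtain ⟨t, ht⟩ := D.isCompact_F.elim_finite_subcover W (fun x => (h2 x).op)
    fun x hx => mem_iUnion.2 ⟨⟨x, hx⟩, h1 _⟩
  refine thZ_van_nil (D.thZ_WF Q) D.lc_F (O := fun i => W (t.equivFin.symm i))
    (fun i => (h2 _).op) (fun y hy => ?_)
    (s := fun i y => (y, T (t.equivFin.symm i) y fun _ => 1))
    (fun i => continuousOn_id.prodMk ((h2 _).cT.clm_apply continuousOn_const))
    (fun i y hy => ⟨⟨hy.1, (h2 _).mem y hy _⟩, fun k => ?_⟩) (fun _ _ _ => rfl) fun j j1 _ =>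
      (D.van_S Q (by omega) (by omega)).of_pul D.zb_SW
  · obtain ⟨x, hx, k⟩ := mem_iUnion₂.1 (ht hy)
    exact ⟨t.equivFin ⟨x, hx⟩, by rwa [Equiv.symm_apply_apply]⟩
  · exact one_ne_zero (congrFun ((h2 _).inj hy (k.trans (map_zero _).symm)) 0)

theorem gen_uv (D : TD0 𝕄 7) : Gen 32 (Q.uu ^ 2 * Q.vv ^ 2) := by
  have e : pull id 𝕄.MM univ (cup 𝕄.MM (Dg V) (Q.uu ^ 2) Q.tauD) = Q.uu ^ 2 * Q.vv ^ 2 := by
    rw [fgt_cm, D.fgt_tauD, Q.hh_top]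
  rw [← e]
  exact Gen.supp rfl GysD.aux (D.gen_top Q) ((D.van_F_top Q (by norm_num)).pul D.zb_hat)
    (e ▸ Q.uv_pow_ne)

end TD0

end Pool.Agent.Work.MP_8c604c_gt.OT
end
end
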